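import Pool.Agent.HMV.SDefs

/-!
PROJECT HMV (MP_d9a86d_gt, helper67): internal definitions of the proof.
-/

open scoped ContDiff ComplexOrder
open Finset

namespace Pool.Agent.HMV

/-! ### Internal definitions -/

/-- the Levi form as a quadratic form -/
noncomputable def lev {n : ℕ} (φ : (Fin n → ℂ) → ℝ) (z v : Fin n → ℂ) : ℝ :=
  (D2 φ z v v + D2 φ z (Complex.I • v) (Complex.I • v)) / 4

/-- the `(1,0)`-differential `∂φ(z)(v)` -/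
noncomputable def dz {n : ℕ} (φ : (Fin n → ℂ) → ℝ) (z v : Fin n → ℂ) : ℂ :=
  ((fderiv ℝ φ z v : ℝ) - Complex.I * (fderiv ℝ φ z (Complex.I • v) : ℝ)) / 2

/-- `φ` is smooth at `z`, with `(1,0)`-differential `d` and Levi form `l` -/
structure Jet {n : ℕ} (φ : (Fin n → ℂ) → ℝ) (z : Fin n → ℂ) (d : (Fin n → ℂ) → ℂ)
    (l : (Fin n → ℂ) → ℝ) : Prop where
  smooth : ContDiffAt ℝ ∞ φ z
  hd : ∀ v, dz φ z v = d v
  hl : ∀ v, lev φ z v = l v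

/-- `β(u) = u √(1+u²)` and its two derivatives -/
noncomputable def bet (u : ℝ) : ℝ := u * √(1 + u ^ 2)
noncomputable def bet1 (u : ℝ) : ℝ := (1 + 2 * u ^ 2) / √(1 + u ^ 2)
noncomputable def bet2 (u : ℝ) : ℝ := u * (2 * u ^ 2 + 3) / ((1 + u ^ 2) * √(1 + u ^ 2))

/-- `b(t) = - β(√B (T - t))` and its two derivatives -/
noncomputable def bb (B T t : ℝ) : ℝ := -bet (√B * (T - t))
noncomputable def bb1 (B T t : ℝ) : ℝ := √B * bet1 (√B * (T - t))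
noncomputable def bb2 (B T t : ℝ) : ℝ := -(B * bet2 (√B * (T - t)))

/-- the cutoff `h(x) = (x + 3) θ(-3 - x)`: `h(x) = x + 3` for `x ≤ -4`, `h(x) = 0` for `x ≥ -3` -/
noncomputable def hh (x : ℝ) : ℝ := (x + 3) * Real.smoothTransition (-3 - x)

/-- `⟨z, v⟩ = ∑ conj(z_i) v_i` -/
noncomputable def ipn {n : ℕ} (z v : Fin n → ℂ) : ℂ := ∑ i, (starRingEnd ℂ) (z i) * v i

/-- `∂ log |z|² (v)` -/
noncomputable def dn {n : ℕ} (z v : Fin n → ℂ) : ℂ := ipn z v / (nsq z : ℝ)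

/-- the Levi form of `log |z|²` -/
noncomputable def Ln {n : ℕ} (z v : Fin n → ℂ) : ℝ :=
  nsq v / nsq z - ‖ipn z v‖ ^ 2 / nsq z ^ 2

variable {m : ℕ}

/-- `|z'|²`, where `z = (z₀, z')` -/
noncomputable def Pn (z : Fin (m + 1) → ℂ) : ℝ := ∑ i : Fin m, ‖z i.succ‖ ^ 2

/-- `t = log (1 + |z'|²)` -/
noncomputable def tt (z : Fin (m + 1) → ℂ) : ℝ := Real.log (1 + Pn z)

/-- `c = b(t) + t` -/
noncomputable def cc (B T : ℝ) (z : Fin (m + 1) → ℂ) : ℝ := bb B T (tt z) + tt z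

/-- `E = e^c` -/
noncomputable def EE (B T : ℝ) (z : Fin (m + 1) → ℂ) : ℝ := Real.exp (cc B T z)

/-- `F = |z₀ - 1|² + E` -/
noncomputable def FF (B T : ℝ) (z : Fin (m + 1) → ℂ) : ℝ := ‖z 0 - 1‖ ^ 2 + EE B T z

/-- `a = log F - log |z|²` -/
noncomputable def aa (B T : ℝ) (z : Fin (m + 1) → ℂ) : ℝ :=
  Real.log (FF B T z) - Real.log (nsq z)

/-- `G = h(a)` -/
noncomputable def GG (B T : ℝ) (z : Fin (m + 1) → ℂ) : ℝ := hh (aa B T z)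

/-- `τ = E / F` -/
noncomputable def tau (B T : ℝ) (z : Fin (m + 1) → ℂ) : ℝ := EE B T z / FF B T z

/-- `⟨z', v'⟩ = ∑ conj(z_i) v_i` -/
noncomputable def ip (z v : Fin (m + 1) → ℂ) : ℂ :=
  ∑ i : Fin m, (starRingEnd ℂ) (z i.succ) * v i.succ

/-- `∂t(v)` -/
noncomputable def dt (z v : Fin (m + 1) → ℂ) : ℂ := ip z v / (1 + Pn z : ℝ)

/-- the Levi form of `t` -/
noncomputable def Lt (z v : Fin (m + 1) → ℂ) : ℝ :=
  Pn v / (1 + Pn z) - ‖ip z v‖ ^ 2 / (1 + Pn z) ^ 2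

/-- `∂c(v) = (1 + b'(t)) ∂t(v)` -/
noncomputable def dc (B T : ℝ) (z v : Fin (m + 1) → ℂ) : ℂ :=
  ((1 + bb1 B T (tt z) : ℝ) : ℂ) * dt z v

/-- the positive part of the Levi form of `a` -/
noncomputable def PP (B T : ℝ) (z v : Fin (m + 1) → ℂ) : ℝ :=
  tau B T z * (1 + bb1 B T (tt z)) * Lt z v +
    EE B T z / FF B T z ^ 2 * ‖v 0 - (z 0 - 1) * dc B T z v‖ ^ 2

/-- the size of the negative part: `1 + B τ + B e^{-B (T - t)²}` -/
noncomputable def neg (B T : ℝ) (z : Fin (m + 1) → ℂ) : ℝ :=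
  1 + B * tau B T z + B * Real.exp (-(B * (T - tt z) ^ 2))

/-- the `k`-th point `y_k = q^{-k} z` -/
noncomputable def yy (q : ℂ) (k : ℤ) (z : Fin (m + 1) → ℂ) : Fin (m + 1) → ℂ := (q ^ (-k)) • z

/-- `Φ(z) = ∑_k G(q^{-k} z)` -/
noncomputable def Phi (q : ℂ) (B T : ℝ) (z : Fin (m + 1) → ℂ) : ℝ :=
  ∑ᶠ k : ℤ, GG B T (yy q k z)

end Pool.Agent.HMV
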