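import Pool.Agent.HMV.Defs

/-!
HMV-Beta. The one-variable functions `bet u = u √(1+u²)` and `bb B T t = -bet (√B (T - t))`: derivatives and
inequalities.
-/

open scoped ContDiff Topology
open Finset

namespace Pool.Agent.HMV

private theorem w_pos (u : ℝ) : 0 < √(1 + u ^ 2) := Real.sqrt_pos.2 (by positivity)

private theorem w_sq (u : ℝ) : √(1 + u ^ 2) * √(1 + u ^ 2) = 1 + u ^ 2 :=
  Real.mul_self_sqrt (by positivity)

private theorem w_deriv (u : ℝ) : HasDerivAt (fun u : ℝ => √(1 + u ^ 2)) (u / √(1 + u ^ 2)) u := by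
  have h1 : HasDerivAt (fun u : ℝ => 1 + u ^ 2) (2 * u) u := by
    have h := (hasDerivAt_pow 2 u).const_add 1
    simpa using h
  have h2 := h1.sqrt (by positivity)
  refine h2.congr_deriv ?_
  rw [mul_div_mul_left _ _ (two_ne_zero)]

theorem bet_hasDeriv (u : ℝ) : HasDerivAt bet (bet1 u) u := by
  have h := (hasDerivAt_id u).mul (w_deriv u)
  refine h.congr_deriv ?_
  have key : ∀ w : ℝ, w ≠ 0 → w * w = 1 + u ^ 2 → 1 * w + u * (u / w) = (1 + 2 * u ^ 2) / w := by
    intro w hw h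
    field_simp
    linear_combination h
  exact key _ (w_pos u).ne' (w_sq u)

theorem bet1_hasDeriv (u : ℝ) : HasDerivAt bet1 (bet2 u) u := by
  have h0 : HasDerivAt (fun u : ℝ => 1 + 2 * u ^ 2) (4 * u) u := by
    have h := ((hasDerivAt_pow 2 u).const_mul 2).const_add 1
    refine h.congr_deriv ?_
    push_cast
    ring
  have h := h0.div (w_deriv u) (w_pos u).ne'
  refine h.congr_deriv ?_
  have key : ∀ w : ℝ, w ≠ 0 → w * w = 1 + u ^ 2 →
      (4 * u * w - (1 + 2 * u ^ 2) * (u / w)) / w ^ 2 = u * (2 * u ^ 2 + 3) / ((1 + u ^ 2) * w) := by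
    intro w hw h
    rw [← h]
    field_simp
    linear_combination 4 * u * h
  exact key _ (w_pos u).ne' (w_sq u)

theorem bet_smooth : ContDiff ℝ ∞ bet := by
  have h : ContDiff ℝ ∞ (fun u : ℝ => u * √(1 + u ^ 2)) :=
    contDiff_id.mul ((contDiff_const.add (contDiff_id.pow 2)).sqrt fun u => by
      have : (0 : ℝ) < 1 + id u ^ 2 := by positivity
      exact this.ne')
  exact h

theorem bb_smooth (B T : ℝ) : ContDiff ℝ ∞ (bb B T) := by
  have h : ContDiff ℝ ∞ (fun t : ℝ => -bet (√B * (T - t))) :=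
    (bet_smooth.comp (contDiff_const.mul (contDiff_const.sub contDiff_id))).neg
  exact h

private theorem inner_deriv (B T t : ℝ) : HasDerivAt (fun t : ℝ => √B * (T - t)) (-√B) t := by
  have h := ((hasDerivAt_id t).const_sub T).const_mul (√B)
  refine h.congr_deriv ?_
  ring

private theorem bb_hasDeriv (B T t : ℝ) : HasDerivAt (bb B T) (bb1 B T t) t := by
  have h := ((bet_hasDeriv (√B * (T - t))).comp t (inner_deriv B T t)).neg
  refine h.congr_deriv ?_
  unfold bb1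
  ring

theorem bb_deriv (B T t : ℝ) : deriv (bb B T) t = bb1 B T t := (bb_hasDeriv B T t).deriv

theorem bb_deriv2 {B : ℝ} (hB : 0 ≤ B) (T t : ℝ) : deriv (deriv (bb B T)) t = bb2 B T t := by
  have h0 : deriv (bb B T) = bb1 B T := by
    funext s
    exact bb_deriv B T s
  rw [h0]
  have h := ((bet1_hasDeriv (√B * (T - t))).comp t (inner_deriv B T t)).const_mul (√B)
  have h2 : HasDerivAt (bb1 B T) (bb2 B T t) t := by
    refine h.congr_deriv ?_
    unfold bb2
    have hs : √B * √B = B := Real.mul_self_sqrt hB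
    linear_combination (-bet2 (√B * (T - t))) * hs
  exact h2.deriv

private theorem bet1_pos (u : ℝ) : 0 < bet1 u := by
  have := w_pos u
  unfold bet1
  positivity

theorem bb1_pos {B : ℝ} (hB : 0 < B) (T t : ℝ) : 0 < bb1 B T t :=
  mul_pos (Real.sqrt_pos.2 hB) (bet1_pos _)

private theorem bet2_le (u : ℝ) : bet2 u ≤ 2 := by
  have hw := w_pos u
  have hs := w_sq u
  unfold bet2
  rw [div_le_iff₀ (by positivity)]
  rcases le_or_gt u 0 with hu | hu
  · have h1 : u * (2 * u ^ 2 + 3) ≤ 0 := mul_nonpos_of_nonpos_of_nonneg hu (by positivity)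
    have h2 : 0 ≤ 2 * ((1 + u ^ 2) * √(1 + u ^ 2)) := by positivity
    linarith
  · have h1 : (u * (2 * u ^ 2 + 3)) ^ 2 ≤ (2 * ((1 + u ^ 2) * √(1 + u ^ 2))) ^ 2 := by
      have h2 : (2 * ((1 + u ^ 2) * √(1 + u ^ 2))) ^ 2 =
          4 * (1 + u ^ 2) ^ 2 * (√(1 + u ^ 2) * √(1 + u ^ 2)) := by ring
      rw [h2, hs]
      nlinarith [sq_nonneg u]
    exact (pow_le_pow_iff_left₀ (by positivity) (by positivity) two_ne_zero).1 h1

theorem bb2_ge {B : ℝ} (hB : 0 ≤ B) (T t : ℝ) : -(2 * B) ≤ bb2 B T t := by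
  unfold bb2
  have h := mul_le_mul_of_nonneg_left (bet2_le (√B * (T - t))) hB
  linarith

private theorem arg_sq {B : ℝ} (hB : 0 ≤ B) (T t : ℝ) : (√B * (T - t)) ^ 2 = B * (T - t) ^ 2 := by
  have hs : √B * √B = B := Real.mul_self_sqrt hB
  linear_combination (T - t) ^ 2 * hs

private theorem bet_ge {u : ℝ} (hu : 0 ≤ u) : u ^ 2 ≤ bet u := by
  unfold bet
  have h : u ≤ √(1 + u ^ 2) := Real.le_sqrt_of_sq_le (by linarith)
  nlinarith [mul_le_mul_of_nonneg_left h hu]

theorem bb_le {B T t : ℝ} (hB : 0 ≤ B) (ht : t ≤ T) : bb B T t ≤ -(B * (T - t) ^ 2) := by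
  have hu : 0 ≤ √B * (T - t) := mul_nonneg (Real.sqrt_nonneg B) (by linarith)
  have h := bet_ge hu
  rw [arg_sq hB] at h
  unfold bb
  linarith

private theorem bet1_ge (u : ℝ) : 2 * u ≤ bet1 u := by
  have hw := w_pos u
  have hs := w_sq u
  unfold bet1
  rw [le_div_iff₀ hw]
  nlinarith [sq_nonneg (√(1 + u ^ 2) - u)]

theorem bb1_ge {B : ℝ} (hB : 0 ≤ B) (T t : ℝ) : 2 * B * (T - t) ≤ bb1 B T t := by
  unfold bb1
  have h := mul_le_mul_of_nonneg_left (bet1_ge (√B * (T - t))) (Real.sqrt_nonneg B)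
  have hs : √B * √B = B := Real.mul_self_sqrt hB
  have h2 : √B * (2 * (√B * (T - t))) = 2 * B * (T - t) := by
    linear_combination 2 * (T - t) * hs
  linarith

private theorem bet1_sq (u : ℝ) : bet1 u ^ 2 ≤ 1 + 4 * u ^ 2 := by
  have hw := w_pos u
  have hs := w_sq u
  unfold bet1
  rw [div_pow, sq (√(1 + u ^ 2)), hs, div_le_iff₀ (by positivity)]
  nlinarith [sq_nonneg u]

private theorem exp_aux {s : ℝ} (hs : 0 ≤ s) : (1 + 4 * s) * Real.exp (-s) ≤ 2 := by
  have h1 := Real.quadratic_le_exp_of_nonneg hs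
  have h2 : 1 + 4 * s ≤ 2 * Real.exp s := by nlinarith [sq_nonneg (1 - s)]
  have h3 : 0 < Real.exp (-s) := Real.exp_pos _
  have h4 : Real.exp s * Real.exp (-s) = 1 := by rw [← Real.exp_add]; simp
  calc (1 + 4 * s) * Real.exp (-s) ≤ 2 * Real.exp s * Real.exp (-s) :=
        mul_le_mul_of_nonneg_right h2 h3.le
    _ = 2 := by rw [mul_assoc, h4, mul_one]

theorem bb1_exp {B T t : ℝ} (hB : 0 ≤ B) (ht : t ≤ T) :
    (Real.exp (bb B T t) * bb1 B T t) ^ 2 ≤ 2 * B * Real.exp (-(B * (T - t) ^ 2)) := by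
  have h1 := bb_le hB ht
  obtain ⟨s, hs⟩ : ∃ s : ℝ, s = B * (T - t) ^ 2 := ⟨_, rfl⟩
  have hs0 : 0 ≤ s := by rw [hs]; positivity
  rw [← hs] at h1 ⊢
  have h2 : (bb1 B T t) ^ 2 ≤ B * (1 + 4 * s) := by
    unfold bb1
    have h3 := bet1_sq (√B * (T - t))
    rw [arg_sq hB, ← hs] at h3
    rw [mul_pow, Real.sq_sqrt hB]
    exact mul_le_mul_of_nonneg_left h3 hB
  have h4 : Real.exp (bb B T t) ^ 2 ≤ Real.exp (-s) * Real.exp (-s) := by
    rw [← Real.exp_nat_mul, ← Real.exp_add]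
    apply Real.exp_le_exp.2
    push_cast
    linarith
  rw [mul_pow]
  calc Real.exp (bb B T t) ^ 2 * bb1 B T t ^ 2 ≤ (Real.exp (-s) * Real.exp (-s)) * (B * (1 + 4 * s)) :=
        mul_le_mul h4 h2 (by positivity) (by positivity)
    _ = (B * Real.exp (-s)) * ((1 + 4 * s) * Real.exp (-s)) := by ring
    _ ≤ (B * Real.exp (-s)) * 2 := mul_le_mul_of_nonneg_left (exp_aux hs0) (by positivity)
    _ = 2 * B * Real.exp (-s) := by ring

theorem lt_of_bb_neg {B T t : ℝ} (h : bb B T t < 0) : t < T := by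
  by_contra hc
  push Not at hc
  have h1 : √B * (T - t) ≤ 0 := mul_nonpos_of_nonneg_of_nonpos (Real.sqrt_nonneg B) (by linarith)
  have h2 : bet (√B * (T - t)) ≤ 0 := mul_nonpos_of_nonpos_of_nonneg h1 (w_pos _).le
  unfold bb at h
  linarith

end Pool.Agent.HMV
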