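import Pool.Agent.HMV.Defs

/-!
HMV-Hfun. The cutoff `hh x = (x + 3) θ(-3 - x)`, `θ = Real.smoothTransition`.

`hh = 0` on `[-3, ∞)`, `hh x = x + 3` on `(-∞, -4]`; the bounds on `[-4, -3]` are by compactness.
-/

open scoped ContDiff Topology
open Finset

namespace Pool.Agent.HMV

theorem hh_smooth : ContDiff ℝ ∞ hh := by
  have h1 : ContDiff ℝ ∞ fun x : ℝ => Real.smoothTransition (-3 - x) :=
    Real.smoothTransition.contDiff.comp (contDiff_const.sub contDiff_id)
  exact (contDiff_id.add contDiff_const).mul h1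

theorem hh_far {x : ℝ} (hx : -3 ≤ x) : hh x = 0 := by
  unfold hh
  rw [Real.smoothTransition.zero_of_nonpos (by linarith), mul_zero]

private theorem hh_dcont : Continuous (deriv hh) :=
  (hh_smooth.of_le (by norm_num) : ContDiff ℝ 1 hh).continuous_deriv le_rfl

private theorem hh_ddcont : Continuous (deriv (deriv hh)) := by
  have h1 : ContDiff ℝ 1 (deriv hh) := by
    have h2 : ContDiff ℝ (1 + 1) hh := by
      rw [one_add_one_eq_two]
      exact contDiff_infty.1 hh_smooth 2
    exact (contDiff_succ_iff_deriv.1 h2).2.2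
  exact h1.continuous_deriv le_rfl

private theorem dd_zero {x : ℝ} (hx : -3 < x) : deriv hh x = 0 := by
  have h3 : hh =ᶠ[𝓝 x] fun _ => (0 : ℝ) :=
    Filter.eventuallyEq_of_mem (Ioi_mem_nhds hx) fun z hz => hh_far (le_of_lt hz)
  rw [h3.deriv_eq, deriv_const]

private theorem dd_one {x : ℝ} (hx : x < -4) : deriv hh x = 1 := by
  have h3 : hh =ᶠ[𝓝 x] fun y => y + 3 := by
    refine Filter.eventuallyEq_of_mem (Iio_mem_nhds hx) fun z hz => ?_
    have hz' : z < -4 := hz
    show hh z = z + 3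
    unfold hh
    rw [Real.smoothTransition.one_of_one_le (by linarith), mul_one]
  rw [h3.deriv_eq]
  exact ((hasDerivAt_id x).add_const 3).deriv

theorem hh_d_far {x : ℝ} (hx : -3 ≤ x) : deriv hh x = 0 ∧ deriv (deriv hh) x = 0 := by
  have h1 : Set.Ici (-3 : ℝ) ⊆ {y | deriv hh y = 0} := by
    rw [← closure_Ioi]
    refine closure_minimal ?_ (isClosed_eq hh_dcont continuous_const)
    intro y hy
    exact dd_zero hy
  have h2 : Set.Ici (-3 : ℝ) ⊆ {y | deriv (deriv hh) y = 0} := by
    rw [← closure_Ioi]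
    refine closure_minimal ?_ (isClosed_eq hh_ddcont continuous_const)
    intro y hy
    have h3 : deriv hh =ᶠ[𝓝 y] fun _ => (0 : ℝ) :=
      Filter.eventuallyEq_of_mem (Ioi_mem_nhds hy) fun z hz => dd_zero hz
    show deriv (deriv hh) y = 0
    rw [h3.deriv_eq, deriv_const]
  exact ⟨h1 hx, h2 hx⟩

theorem hh_near {x : ℝ} (hx : x < -4) : deriv hh x = 1 ∧ deriv (deriv hh) x = 0 := by
  have h3 : deriv hh =ᶠ[𝓝 x] fun _ => (1 : ℝ) :=
    Filter.eventuallyEq_of_mem (Iio_mem_nhds hx) fun z hz => dd_one hz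
  refine ⟨dd_one hx, ?_⟩
  rw [h3.deriv_eq, deriv_const]

theorem hh_d_nonneg (x : ℝ) : 0 ≤ deriv hh x := by
  by_cases hx : -3 ≤ x
  · rw [(hh_d_far hx).1]
  · have hd : DifferentiableAt ℝ Real.smoothTransition (-3 - x) :=
      (Real.smoothTransition.contDiff (n := 1)).differentiable (by norm_num) _
    have h1 : HasDerivAt (fun y : ℝ => -3 - y) (-1) x := by
      simpa using (hasDerivAt_id x).const_sub (-3)
    have h2 : HasDerivAt (fun y : ℝ => Real.smoothTransition (-3 - y))
        (deriv Real.smoothTransition (-3 - x) * (-1)) x := hd.hasDerivAt.comp x h1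
    have h3 : HasDerivAt (fun y : ℝ => y + 3) 1 x := (hasDerivAt_id x).add_const 3
    have h4 : HasDerivAt hh (1 * Real.smoothTransition (-3 - x) +
        (x + 3) * (deriv Real.smoothTransition (-3 - x) * (-1))) x := h3.mul h2
    rw [h4.deriv]
    have h5 : 0 ≤ deriv Real.smoothTransition (-3 - x) :=
      Real.smoothTransition.monotone.deriv_nonneg
    have h6 := Real.smoothTransition.nonneg (-3 - x)
    have h7 : x + 3 ≤ 0 := by linarith
    have h8 := mul_nonneg (neg_nonneg.2 h7) h5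
    linarith

theorem hh_bound : ∃ C : ℝ, 1 ≤ C ∧ ∀ x, deriv hh x ≤ C ∧ |deriv (deriv hh) x| ≤ C := by
  obtain ⟨C1, h1⟩ := (isCompact_Icc (a := (-4 : ℝ)) (b := -3)).exists_bound_of_continuousOn
    hh_dcont.continuousOn
  obtain ⟨C2, h2⟩ := (isCompact_Icc (a := (-4 : ℝ)) (b := -3)).exists_bound_of_continuousOn
    hh_ddcont.continuousOn
  refine ⟨max 1 (max C1 C2), le_max_left _ _, ?_⟩
  intro x
  have e1 : (1 : ℝ) ≤ max 1 (max C1 C2) := le_max_left _ _
  have e2 : C1 ≤ max 1 (max C1 C2) := (le_max_left _ _).trans (le_max_right _ _)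
  have e3 : C2 ≤ max 1 (max C1 C2) := (le_max_right _ _).trans (le_max_right _ _)
  by_cases hx : -3 ≤ x
  · rw [(hh_d_far hx).1, (hh_d_far hx).2, abs_zero]
    exact ⟨by linarith, by linarith⟩
  · by_cases hx' : x < -4
    · rw [(hh_near hx').1, (hh_near hx').2, abs_zero]
      exact ⟨by linarith, by linarith⟩
    · have hm : x ∈ Set.Icc (-4 : ℝ) (-3) := ⟨by linarith, by linarith⟩
      have g1 := h1 x hm
      have g2 := h2 x hm
      rw [Real.norm_eq_abs] at g1 g2
      exact ⟨(le_abs_self _).trans (g1.trans e2), g2.trans e3⟩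

end Pool.Agent.HMV
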