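import Pool.Agent.HMV.Defs

/-!
HMV-Jet. Rules for `Jet f z d l` (f is smooth at z, with (1,0)-differential d and Levi form l).
-/

open scoped ContDiff Topology
open Finset

namespace Pool.Agent.HMV

variable {n : ℕ} {f g : (Fin n → ℂ) → ℝ} {z : Fin n → ℂ} {d d' : (Fin n → ℂ) → ℂ}
  {l l' : (Fin n → ℂ) → ℝ}

private theorem jet_ev (hf : ContDiffAt ℝ ∞ f z) : ∀ᶠ x in 𝓝 z, DifferentiableAt ℝ f x := by
  have h1 : ContDiffAt ℝ 1 f z := hf.of_le (mod_cast le_top)
  filter_upwards [h1.eventually (by simp)] with x hx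
  exact hx.differentiableAt (by simp)

private theorem jet_d2 (hf : ContDiffAt ℝ ∞ f z) : DifferentiableAt ℝ (fderiv ℝ f) z := by
  have h1 : ContDiffAt ℝ 2 f z := contDiffAt_infty.1 hf 2
  have h2 : ContDiffAt ℝ 1 (fderiv ℝ f) z := h1.fderiv_right (by norm_num)
  exact h2.differentiableAt (by simp)

private theorem jet_add_D2 (hf : ContDiffAt ℝ ∞ f z) (hg : ContDiffAt ℝ ∞ g z)
    (v w : Fin n → ℂ) : D2 (fun x => f x + g x) z v w = D2 f z v w + D2 g z v w := by
  unfold D2
  have h1 : fderiv ℝ (fun x => f x + g x) =ᶠ[𝓝 z] fun x => fderiv ℝ f x + fderiv ℝ g x := by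
    filter_upwards [jet_ev hf, jet_ev hg] with x hx hx'
    exact fderiv_fun_add hx hx'
  rw [h1.fderiv_eq, fderiv_fun_add (jet_d2 hf) (jet_d2 hg)]
  rfl

private theorem jet_mul_D2 (c : ℝ) (hf : ContDiffAt ℝ ∞ f z)
    (v w : Fin n → ℂ) : D2 (fun x => c * f x) z v w = c * D2 f z v w := by
  unfold D2
  have h1 : fderiv ℝ (fun x => c * f x) =ᶠ[𝓝 z] fun x => c • fderiv ℝ f x := by
    filter_upwards [jet_ev hf] with x hx
    exact fderiv_const_mul hx c
  rw [h1.fderiv_eq, fderiv_fun_const_smul (jet_d2 hf)]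
  rfl

theorem Jet.const (c : ℝ) (z : Fin n → ℂ) : Jet (fun _ => c) z (fun _ => 0) (fun _ => 0) := by
  refine ⟨contDiffAt_const, fun v => ?_, fun v => ?_⟩
  · unfold dz
    simp
  · unfold lev D2
    simp

theorem Jet.add (hf : Jet f z d l) (hg : Jet g z d' l') :
    Jet (fun x => f x + g x) z (fun v => d v + d' v) (fun v => l v + l' v) := by
  refine ⟨hf.smooth.add hg.smooth, fun v => ?_, fun v => ?_⟩
  · rw [← hf.hd v, ← hg.hd v]
    unfold dz
    rw [fderiv_fun_add (jet_ev hf.smooth).self_of_nhds (jet_ev hg.smooth).self_of_nhds]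
    simp only [add_apply, Complex.ofReal_add]
    ring
  · rw [← hf.hl v, ← hg.hl v]
    unfold lev
    rw [jet_add_D2 hf.smooth hg.smooth, jet_add_D2 hf.smooth hg.smooth]
    ring

theorem Jet.const_mul (c : ℝ) (hf : Jet f z d l) :
    Jet (fun x => c * f x) z (fun v => (c : ℂ) * d v) (fun v => c * l v) := by
  refine ⟨contDiffAt_const.mul hf.smooth, fun v => ?_, fun v => ?_⟩
  · rw [← hf.hd v]
    unfold dz
    rw [fderiv_const_mul (jet_ev hf.smooth).self_of_nhds c]
    simp only [smul_apply, smul_eq_mul, Complex.ofReal_mul]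
    ring
  · rw [← hf.hl v]
    unfold lev
    rw [jet_mul_D2 c hf.smooth, jet_mul_D2 c hf.smooth]
    ring

theorem Jet.sub (hf : Jet f z d l) (hg : Jet g z d' l') :
    Jet (fun x => f x - g x) z (fun v => d v - d' v) (fun v => l v - l' v) := by
  have h := hf.add (hg.const_mul (-1))
  have e1 : (fun x => f x + -1 * g x) = fun x => f x - g x := by
    funext x
    ring
  have e2 : (fun v => d v + ((-1 : ℝ) : ℂ) * d' v) = fun v => d v - d' v := by
    funext v
    push_cast
    ring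
  have e3 : (fun v => l v + -1 * l' v) = fun v => l v - l' v := by
    funext v
    ring
  rw [e1, e2, e3] at h
  exact h

theorem Jet.sum {ι : Type*} (s : Finset ι) {f : ι → (Fin n → ℂ) → ℝ}
    {d : ι → (Fin n → ℂ) → ℂ} {l : ι → (Fin n → ℂ) → ℝ}
    (h : ∀ i ∈ s, Jet (f i) z (d i) (l i)) :
    Jet (fun x => ∑ i ∈ s, f i x) z (fun v => ∑ i ∈ s, d i v) (fun v => ∑ i ∈ s, l i v) := by
  classical
  induction s using Finset.induction_on with
  | empty =>
    simp only [Finset.sum_empty]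
    exact Jet.const 0 z
  | insert a s ha ih =>
    simp only [Finset.sum_insert ha]
    exact (h a (Finset.mem_insert_self a s)).add
      (ih fun i hi => h i (Finset.mem_insert_of_mem hi))

theorem Jet.congr (hf : Jet f z d l) (h : g =ᶠ[𝓝 z] f) : Jet g z d l := by
  refine ⟨hf.smooth.congr_of_eventuallyEq h, fun v => ?_, fun v => ?_⟩
  · rw [← hf.hd v]
    unfold dz
    rw [h.fderiv_eq]
  · rw [← hf.hl v]
    unfold lev D2
    rw [(h.fderiv (𝕜 := ℝ)).fderiv_eq]

/-- a smooth function has a jet -/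
theorem Jet.of_contDiffAt (hf : ContDiffAt ℝ ∞ f z) : Jet f z (dz f z) (lev f z) :=
  ⟨hf, fun _ => rfl, fun _ => rfl⟩

end Pool.Agent.HMV
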