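import Pool.Agent.HMV.Defs

/-!
HMV-JetC. Chain rule for jets.

`D2 (h ∘ f) z v w = deriv h (f z) * D2 f z v w + deriv (deriv h) (f z) * (fderiv ℝ f z v) * (fderiv ℝ f z w)`,
and `D2 (f (c • ·)) z v w = D2 f (c • z) (c • v) (c • w)`.
-/

open scoped ContDiff Topology
open Finset

namespace Pool.Agent.HMV

variable {n : ℕ} {f : (Fin n → ℂ) → ℝ} {z : Fin n → ℂ} {d : (Fin n → ℂ) → ℂ}
  {l : (Fin n → ℂ) → ℝ}

private theorem jetc_ev {E : Type*} [NormedAddCommGroup E] [NormedSpace ℝ E] {g : E → ℝ} {x : E}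
    (h : ContDiffAt ℝ ∞ g x) : ∀ᶠ y in 𝓝 x, DifferentiableAt ℝ g y := by
  have h1 : ContDiffAt ℝ 1 g x := h.of_le (by exact_mod_cast le_top)
  have h2 := h1.eventually (by simp)
  filter_upwards [h2] with y hy
  exact hy.differentiableAt (by simp)

private theorem jetc_fd {E : Type*} [NormedAddCommGroup E] [NormedSpace ℝ E] {g : E → ℝ} {x : E}
    (h : ContDiffAt ℝ ∞ g x) : DifferentiableAt ℝ (fderiv ℝ g) x := by
  have h1 : ContDiffAt ℝ 1 (fderiv ℝ g) x := h.fderiv_right (by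
    show ((1 : ℕ∞) : WithTop ℕ∞) + 1 ≤ _
    exact_mod_cast le_top)
  exact h1.differentiableAt (by simp)

private theorem jetc_dd {h : ℝ → ℝ} {t : ℝ} (hh : ContDiffAt ℝ ∞ h t) : DifferentiableAt ℝ (deriv h) t := by
  have h1 := jetc_fd hh
  have h2 : deriv h = fun y => fderiv ℝ h y 1 := rfl
  rw [h2]
  exact h1.clm_apply (differentiableAt_const _)

private theorem jetc_fderiv {h : ℝ → ℝ} (hh : ContDiffAt ℝ ∞ h (f z)) (hf : ContDiffAt ℝ ∞ f z) :
    fderiv ℝ (fun x => h (f x)) =ᶠ[𝓝 z] fun x => deriv h (f x) • fderiv ℝ f x := by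
  have hc : Filter.Tendsto f (𝓝 z) (𝓝 (f z)) := hf.continuousAt.tendsto
  filter_upwards [jetc_ev hf, hc.eventually (jetc_ev hh)] with x hx1 hx2
  exact (hx2.hasDerivAt.comp_hasFDerivAt x hx1.hasFDerivAt).fderiv

private theorem jetc_D2 {h : ℝ → ℝ} (hh : ContDiffAt ℝ ∞ h (f z)) (hf : ContDiffAt ℝ ∞ f z) (v w : Fin n → ℂ) :
    D2 (fun x => h (f x)) z v w = deriv h (f z) * D2 f z v w +
      deriv (deriv h) (f z) * fderiv ℝ f z v * fderiv ℝ f z w := by
  have hfz : HasFDerivAt f (fderiv ℝ f z) z := (jetc_ev hf).self_of_nhds.hasFDerivAt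
  have h1 : HasFDerivAt (fun x => deriv h (f x)) (deriv (deriv h) (f z) • fderiv ℝ f z) z :=
    (jetc_dd hh).hasDerivAt.comp_hasFDerivAt z hfz
  have h2 : HasFDerivAt (fderiv ℝ f) (fderiv ℝ (fderiv ℝ f) z) z := (jetc_fd hf).hasFDerivAt
  have h3 := h1.smul h2
  have h4 : fderiv ℝ (fderiv ℝ (fun x => h (f x))) z = deriv h (f z) • fderiv ℝ (fderiv ℝ f) z +
      (deriv (deriv h) (f z) • fderiv ℝ f z).smulRight (fderiv ℝ f z) := by
    rw [(jetc_fderiv hh hf).fderiv_eq]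
    exact h3.fderiv
  unfold D2
  rw [h4]
  simp only [_root_.add_apply, _root_.smul_apply, ContinuousLinearMap.smulRight_apply,
    smul_eq_mul]

private theorem jetc_nrm (a b : ℝ) : ‖((a : ℂ) - Complex.I * (b : ℂ)) / 2‖ ^ 2 = (a ^ 2 + b ^ 2) / 4 := by
  rw [norm_div, div_pow, Complex.sq_norm, Complex.normSq_apply]
  have h2 : ‖(2 : ℂ)‖ ^ 2 = 4 := by simp; norm_num
  rw [h2]
  simp
  ring

theorem Jet.comp {h : ℝ → ℝ} (hh : ContDiffAt ℝ ∞ h (f z)) (hf : Jet f z d l) :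
    Jet (fun x => h (f x)) z (fun v => ((deriv h (f z) : ℝ) : ℂ) * d v)
      (fun v => deriv h (f z) * l v + deriv (deriv h) (f z) * ‖d v‖ ^ 2) := by
  have hfs := hf.smooth
  have hfd : ∀ v, fderiv ℝ (fun x => h (f x)) z v = deriv h (f z) * fderiv ℝ f z v := by
    intro v
    rw [(jetc_fderiv hh hfs).self_of_nhds]
    rfl
  refine ⟨hh.comp z hfs, fun v => ?_, fun v => ?_⟩
  · rw [← hf.hd v]
    unfold dz
    rw [hfd, hfd]
    push_cast
    ring
  · rw [← hf.hl v, ← hf.hd v]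
    unfold lev dz
    rw [jetc_D2 hh hfs, jetc_D2 hh hfs, jetc_nrm]
    ring

theorem Jet.smul_comp (c : ℂ) (hf : Jet f (c • z) d l) :
    Jet (fun x => f (c • x)) z (fun v => d (c • v)) (fun v => l (c • v)) := by
  have hfs := hf.smooth
  let L : (Fin n → ℂ) →L[ℝ] (Fin n → ℂ) := (c • ContinuousLinearMap.id ℂ (Fin n → ℂ)).restrictScalars ℝ
  have hL : ∀ x, L x = c • x := fun x => rfl
  have hLd : ∀ x, HasFDerivAt (fun x : Fin n → ℂ => c • x) L x := fun x => L.hasFDerivAt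
  have hLc : Filter.Tendsto (fun x : Fin n → ℂ => c • x) (𝓝 z) (𝓝 (c • z)) := (hLd z).continuousAt.tendsto
  have h1 : fderiv ℝ (fun x => f (c • x)) =ᶠ[𝓝 z] fun x => (fderiv ℝ f (c • x)).comp L := by
    filter_upwards [hLc.eventually (jetc_ev hfs)] with x hx
    exact (hx.hasFDerivAt.comp x (hLd x)).fderiv
  have hfd : ∀ v, fderiv ℝ (fun x => f (c • x)) z v = fderiv ℝ f (c • z) (c • v) := by
    intro v
    rw [h1.self_of_nhds]
    rfl
  have h2 : HasFDerivAt (fun x => fderiv ℝ f (c • x)) ((fderiv ℝ (fderiv ℝ f) (c • z)).comp L) z :=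
    (jetc_fd hfs).hasFDerivAt.comp z (hLd z)
  have h3 := h2.clm_comp (hasFDerivAt_const L z)
  have hD2 : ∀ v w, D2 (fun x => f (c • x)) z v w = D2 f (c • z) (c • v) (c • w) := by
    intro v w
    unfold D2
    rw [h1.fderiv_eq, h3.fderiv]
    simp only [ContinuousLinearMap.comp_zero, zero_add]
    rfl
  have hsc : ContDiffAt ℝ ∞ (fun x => f (c • x)) z := by
    have : ContDiffAt ℝ ∞ (fun x : Fin n → ℂ => c • x) z := L.contDiff.contDiffAt
    exact ContDiffAt.comp z hfs this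
  refine ⟨hsc, fun v => ?_, fun v => ?_⟩
  · rw [← hf.hd]
    unfold dz
    rw [hfd, hfd, smul_comm c Complex.I v]
  · rw [← hf.hl]
    unfold lev
    rw [hD2, hD2, smul_comm c Complex.I v]

end Pool.Agent.HMV
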