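import Pool.Agent.HMV.Defs

/-!
HMV-JetQ. Jets of the quadratic functions `‖x_i - a‖²`, `|x|²`, `|x'|²`; Cauchy-Schwarz.

All three are sums of squares of real affine functions; the first and second derivatives are
computed for such sums.
-/

open scoped ContDiff Topology
open Finset

namespace Pool.Agent.HMV

private lemma jet_gen {n : ℕ} {ι : Type} [Fintype ι] (e : ι → Fin n) (a : ι → ℂ)
    (z : Fin n → ℂ) :
    Jet (fun x => ∑ i, ‖x (e i) - a i‖ ^ 2) z
      (fun v => ∑ i, (starRingEnd ℂ) (z (e i) - a i) * v (e i))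
      (fun v => ∑ i, ‖v (e i)‖ ^ 2) := by
  set R : ι → (Fin n → ℂ) →L[ℝ] ℝ := fun i =>
    Complex.reCLM.comp (ContinuousLinearMap.proj (R := ℝ) (φ := fun _ : Fin n => ℂ) (e i)) with hR
  set J : ι → (Fin n → ℂ) →L[ℝ] ℝ := fun i =>
    Complex.imCLM.comp (ContinuousLinearMap.proj (R := ℝ) (φ := fun _ : Fin n => ℂ) (e i)) with hJ
  have hRv : ∀ i x, R i x = (x (e i)).re := fun i x => rfl
  have hJv : ∀ i x, J i x = (x (e i)).im := fun i x => rfl
  set f : (Fin n → ℂ) → ℝ := fun x => ∑ i, ‖x (e i) - a i‖ ^ 2 with hf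
  have hf2 : f = fun x => ∑ i, ((R i x - (a i).re) ^ 2 + (J i x - (a i).im) ^ 2) := by
    rw [hf]
    funext x
    refine Finset.sum_congr rfl fun i _ => ?_
    rw [hRv, hJv, Complex.sq_norm, Complex.normSq_apply, Complex.sub_re, Complex.sub_im]
    ring
  have hsm : ContDiff ℝ ∞ f := by
    rw [hf2]
    refine ContDiff.sum fun i _ => ?_
    exact (((R i).contDiff.sub contDiff_const).pow 2).add
      (((J i).contDiff.sub contDiff_const).pow 2)
  have hd : ∀ x, HasFDerivAt f (∑ i, ((2 * (R i x - (a i).re)) • R i +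
      (2 * (J i x - (a i).im)) • J i)) x := by
    intro x
    rw [hf2]
    refine HasFDerivAt.fun_sum fun i _ => ?_
    have h1 := (((R i).hasFDerivAt (x := x)).sub_const (a i).re).pow 2
    have h2 := (((J i).hasFDerivAt (x := x)).sub_const (a i).im).pow 2
    refine (h1.add h2).congr_fderiv ?_
    ext v
    simp
  have hfd : fderiv ℝ f = fun x => ∑ i, ((2 * (R i x - (a i).re)) • R i +
      (2 * (J i x - (a i).im)) • J i) := by
    funext x
    exact (hd x).fderiv
  have hdd : HasFDerivAt (fderiv ℝ f) (∑ i, (((2 : ℝ) • R i).smulRight (R i) +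
      ((2 : ℝ) • J i).smulRight (J i))) z := by
    rw [hfd]
    refine HasFDerivAt.fun_sum fun i _ => ?_
    have h1 := ((((R i).hasFDerivAt (x := z)).sub_const (a i).re).const_mul 2).smul_const (R i)
    have h2 := ((((J i).hasFDerivAt (x := z)).sub_const (a i).im).const_mul 2).smul_const (J i)
    exact h1.add h2
  have hD2 : ∀ v w, D2 f z v w = ∑ i, (2 * (v (e i)).re * (w (e i)).re +
      2 * (v (e i)).im * (w (e i)).im) := by
    intro v w
    rw [D2, hdd.fderiv]
    simp only [ContinuousLinearMap.sum_apply, ContinuousLinearMap.add_apply,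
      ContinuousLinearMap.smulRight_apply, ContinuousLinearMap.smul_apply, smul_eq_mul, hRv, hJv]
  have hD1 : ∀ v, fderiv ℝ f z v = ∑ i, (2 * ((z (e i)).re - (a i).re) * (v (e i)).re +
      2 * ((z (e i)).im - (a i).im) * (v (e i)).im) := by
    intro v
    rw [hfd]
    simp only [ContinuousLinearMap.sum_apply, ContinuousLinearMap.add_apply,
      ContinuousLinearMap.smul_apply, smul_eq_mul, hRv, hJv]
  refine ⟨hsm.contDiffAt, ?_, ?_⟩
  · intro v
    rw [dz, hD1, hD1]
    push_cast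
    rw [Finset.mul_sum, ← Finset.sum_sub_distrib, Finset.sum_div]
    refine Finset.sum_congr rfl fun i _ => ?_
    apply Complex.ext
    · simp
      ring
    · simp
      ring
  · intro v
    rw [lev, hD2, hD2, ← Finset.sum_add_distrib, Finset.sum_div]
    refine Finset.sum_congr rfl fun i _ => ?_
    rw [Complex.sq_norm, Complex.normSq_apply]
    simp
    ring

theorem jet_normSq_sub {n : ℕ} (i : Fin n) (a : ℂ) (z : Fin n → ℂ) :
    Jet (fun x => ‖x i - a‖ ^ 2) z (fun v => (starRingEnd ℂ) (z i - a) * v i)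
      (fun v => ‖v i‖ ^ 2) := by
  have h := jet_gen (ι := Unit) (fun _ => i) (fun _ => a) z
  simpa only [Finset.univ_unique, Finset.sum_singleton] using h

theorem jet_nsq {n : ℕ} (z : Fin n → ℂ) : Jet nsq z (ipn z) nsq := by
  have h := jet_gen (ι := Fin n) (fun i => i) (fun _ => 0) z
  simp only [sub_zero] at h
  exact h

theorem jet_Pn {m : ℕ} (z : Fin (m + 1) → ℂ) : Jet Pn z (ip z) Pn := by
  have h := jet_gen (ι := Fin m) (fun i => i.succ) (fun _ => 0) z
  simp only [sub_zero] at h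
  exact h

private lemma cs_gen {ι : Type} [Fintype ι] (x y : ι → ℂ) :
    ‖∑ i, (starRingEnd ℂ) (x i) * y i‖ ^ 2 ≤ (∑ i, ‖x i‖ ^ 2) * ∑ i, ‖y i‖ ^ 2 := by
  have h1 : ‖∑ i, (starRingEnd ℂ) (x i) * y i‖ ≤ ∑ i, ‖x i‖ * ‖y i‖ := by
    refine (norm_sum_le _ _).trans (Finset.sum_le_sum fun i _ => ?_)
    rw [norm_mul, RCLike.norm_conj]
  calc ‖∑ i, (starRingEnd ℂ) (x i) * y i‖ ^ 2 ≤ (∑ i, ‖x i‖ * ‖y i‖) ^ 2 := by
        gcongr
    _ ≤ (∑ i, ‖x i‖ ^ 2) * ∑ i, ‖y i‖ ^ 2 := Finset.sum_mul_sq_le_sq_mul_sq _ _ _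

theorem ipn_sq_le {n : ℕ} (z v : Fin n → ℂ) : ‖ipn z v‖ ^ 2 ≤ nsq z * nsq v :=
  cs_gen z v

theorem ip_sq_le {m : ℕ} (z v : Fin (m + 1) → ℂ) : ‖ip z v‖ ^ 2 ≤ Pn z * Pn v :=
  cs_gen (fun i : Fin m => z i.succ) (fun i : Fin m => v i.succ)

end Pool.Agent.HMV
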