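import Mathlib

/-!
HMV-Cnt. Counting (Mathlib only).

(1) `card_le`: all `k ∈ S` satisfy `(x - β)/L ≤ k ≤ (x - α)/L`, so
`S ⊆ Finset.Icc ⌈(x-β)/L⌉ ⌊(x-α)/L⌋`, whose cardinality is at most `(β-α)/L + 1`.
(2) `close_unique`: put `Q = ‖q‖ > 1`, `δ = (Q-1)/(Q+1)`; `(1+δ)/(1-δ) = Q`. From
`‖q^(-j) c - 1‖ < δ`: `1 - δ < Q^(-j) ‖c‖ < 1 + δ`; if `j < k` then
`Q ≤ Q^(k-j) = (Q^(-j)‖c‖)/(Q^(-k)‖c‖) < (1+δ)/(1-δ) = Q`, a contradiction; symmetric for `k < j`.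
-/

namespace Pool.Agent.HMV

theorem card_le {L x α β : ℝ} (hL : 0 < L) (hab : α ≤ β) (S : Finset ℤ)
    (h : ∀ k ∈ S, α ≤ x - k * L ∧ x - k * L ≤ β) : (S.card : ℝ) ≤ (β - α) / L + 1 := by
  have h1 : S ⊆ Finset.Icc ⌈(x - β) / L⌉ ⌊(x - α) / L⌋ := by
    intro k hk
    obtain ⟨h2, h3⟩ := h k hk
    rw [Finset.mem_Icc]
    constructor
    · apply Int.ceil_le.2
      rw [div_le_iff₀ hL]
      linarith
    · apply Int.le_floor.2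
      rw [le_div_iff₀ hL]
      linarith
  have h2 := Finset.card_le_card h1
  rw [Int.card_Icc] at h2
  have h3 : (S.card : ℝ) ≤ ((⌊(x - α) / L⌋ + 1 - ⌈(x - β) / L⌉).toNat : ℝ) := by exact_mod_cast h2
  have h0 : 0 ≤ (β - α) / L := div_nonneg (by linarith) hL.le
  refine h3.trans ?_
  rcases le_total (⌊(x - α) / L⌋ + 1 - ⌈(x - β) / L⌉) 0 with h4 | h4
  · rw [Int.toNat_of_nonpos h4]
    push_cast
    linarith
  · have h5 : ((⌊(x - α) / L⌋ + 1 - ⌈(x - β) / L⌉).toNat : ℝ) =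
        (⌊(x - α) / L⌋ : ℝ) + 1 - (⌈(x - β) / L⌉ : ℝ) := by
      have := Int.toNat_of_nonneg h4
      have h6 : (((⌊(x - α) / L⌋ + 1 - ⌈(x - β) / L⌉).toNat : ℤ) : ℝ) =
        ((⌊(x - α) / L⌋ + 1 - ⌈(x - β) / L⌉ : ℤ) : ℝ) := by rw [this]
      push_cast at h6
      exact_mod_cast h6
    rw [h5]
    have h6 := Int.floor_le ((x - α) / L)
    have h7 := Int.le_ceil ((x - β) / L)
    have h8 : (x - α) / L - (x - β) / L = (β - α) / L := by ring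
    linarith

private theorem close_lt {q : ℂ} (hq : 1 < ‖q‖) (c : ℂ) {j k : ℤ} (hjk : j < k)
    (hj : ‖q ^ (-j) * c - 1‖ < (‖q‖ - 1) / (‖q‖ + 1))
    (hk : ‖q ^ (-k) * c - 1‖ < (‖q‖ - 1) / (‖q‖ + 1)) : False := by
  set Q := ‖q‖ with hQ
  have hQ0 : 0 < Q := by linarith
  have a1 : Q ^ (-j) * ‖c‖ ≤ 1 + ‖q ^ (-j) * c - 1‖ := by
    have := norm_add_le (1 : ℂ) (q ^ (-j) * c - 1)
    rw [add_sub_cancel, norm_one, norm_mul, norm_zpow] at this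
    exact this
  have a2 : 1 ≤ Q ^ (-k) * ‖c‖ + ‖q ^ (-k) * c - 1‖ := by
    have := norm_sub_le (q ^ (-k) * c) (q ^ (-k) * c - 1)
    rw [sub_sub_cancel, norm_one, norm_mul, norm_zpow] at this
    exact this
  have a3 : Q * (Q ^ (-k) * ‖c‖) ≤ Q ^ (-j) * ‖c‖ := by
    rw [← mul_assoc]
    refine mul_le_mul_of_nonneg_right ?_ (norm_nonneg c)
    rw [← zpow_one_add₀ hQ0.ne']
    exact zpow_le_zpow_right₀ hq.le (by omega)
  have a4 : Q * (1 - (Q - 1) / (Q + 1)) = 1 + (Q - 1) / (Q + 1) := by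
    have : Q + 1 ≠ 0 := by linarith
    field_simp
    ring
  have a5 : Q * (1 - (Q - 1) / (Q + 1)) < Q * (Q ^ (-k) * ‖c‖) :=
    mul_lt_mul_of_pos_left (by linarith) hQ0
  linarith

theorem close_unique {q : ℂ} (hq : 1 < ‖q‖) (c : ℂ) {j k : ℤ}
    (hj : ‖q ^ (-j) * c - 1‖ < (‖q‖ - 1) / (‖q‖ + 1))
    (hk : ‖q ^ (-k) * c - 1‖ < (‖q‖ - 1) / (‖q‖ + 1)) : j = k := by
  rcases lt_trichotomy j k with h | h | h
  · exact (close_lt hq c h hj hk).elim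
  · exact h
  · exact (close_lt hq c h hk hj).elim

end Pool.Agent.HMV
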