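import Pool.Agent.HMV.Defs

/-!
HMV-Mat. The matrix `leviMat f z` is Hermitian, its quadratic form is the Levi form, and it is
continuous on `ℂⁿ ∖ 0`. (Symmetry and bilinearity of the second derivative.)
-/

open scoped ContDiff Topology Matrix
open Finset

namespace Pool.Agent.HMV

variable {n : ℕ} {f : (Fin n → ℂ) → ℝ} {z : Fin n → ℂ}

private theorem two_le : (2 : WithTop ℕ∞) ≤ ∞ := by
  show ((2 : ℕ∞) : WithTop ℕ∞) ≤ ((⊤ : ℕ∞) : WithTop ℕ∞)
  exact WithTop.coe_le_coe.2 le_top

private theorem D2_symm (hf : ContDiffAt ℝ ∞ f z) (v w : Fin n → ℂ) :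
    D2 f z v w = D2 f z w v := by
  have h : IsSymmSndFDerivAt ℝ f z := by
    refine hf.isSymmSndFDerivAt ?_
    rw [minSmoothness_of_isRCLikeNormedField]
    exact two_le
  exact h v w

theorem leviMat_herm (hf : ContDiffAt ℝ ∞ f z) : (leviMat f z).IsHermitian := by
  ext j k
  rw [Matrix.conjTranspose_apply]
  unfold leviMat
  rw [D2_symm hf (Pi.single k 1) (Pi.single j 1),
    D2_symm hf (Pi.single k Complex.I) (Pi.single j Complex.I),
    D2_symm hf (Pi.single k Complex.I) (Pi.single j 1),
    D2_symm hf (Pi.single k 1) (Pi.single j Complex.I)]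
  apply Complex.ext <;> simp

private theorem single_eq (j : Fin n) (c : ℂ) :
    (Pi.single j c : Fin n → ℂ) =
      c.re • (Pi.single j 1 : Fin n → ℂ) + c.im • (Pi.single j Complex.I : Fin n → ℂ) := by
  ext i
  by_cases h : i = j
  · subst h
    simp only [Pi.single_eq_same, Pi.add_apply, Pi.smul_apply, Complex.real_smul, mul_one]
    exact (Complex.re_add_im c).symm
  · simp [Pi.single_eq_of_ne h]

private theorem D2_single (j k : Fin n) (c d : ℂ) :
    D2 f z (Pi.single j c) (Pi.single k d) =
      c.re * d.re * D2 f z (Pi.single j 1) (Pi.single k 1) +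
      c.re * d.im * D2 f z (Pi.single j 1) (Pi.single k Complex.I) +
      c.im * d.re * D2 f z (Pi.single j Complex.I) (Pi.single k 1) +
      c.im * d.im * D2 f z (Pi.single j Complex.I) (Pi.single k Complex.I) := by
  rw [single_eq j c, single_eq k d]
  unfold D2
  simp only [map_add, map_smul, _root_.add_apply, _root_.smul_apply, smul_eq_mul]
  ring

private theorem D2_sum (x y : Fin n → ℂ) :
    D2 f z x y = ∑ j, ∑ k, D2 f z (Pi.single j (x j)) (Pi.single k (y k)) := by
  have hx : x = ∑ j, Pi.single j (x j) := (Finset.univ_sum_single x).symm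
  have hy : y = ∑ k, Pi.single k (y k) := (Finset.univ_sum_single y).symm
  unfold D2
  conv_lhs => rw [hx, hy]
  rw [map_sum (fderiv ℝ (fderiv ℝ f) z), _root_.sum_apply]
  refine Finset.sum_congr rfl fun j _ => ?_
  rw [map_sum]

theorem leviMat_form (hf : ContDiffAt ℝ ∞ f z) (x : Fin n → ℂ) :
    star x ⬝ᵥ (leviMat f z *ᵥ x) = ((lev f z x : ℝ) : ℂ) := by
  have him : (star x ⬝ᵥ (leviMat f z *ᵥ x)).im = 0 :=
    (leviMat_herm hf).im_star_dotProduct_mulVec_self x
  apply Complex.ext
  · rw [Complex.ofReal_re]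
    have h1 : star x ⬝ᵥ (leviMat f z *ᵥ x) =
        ∑ j, ∑ k, (starRingEnd ℂ) (x j) * (leviMat f z j k * x k) := by
      simp only [dotProduct, Matrix.mulVec, Pi.star_apply, Finset.mul_sum]
      rfl
    rw [h1, Complex.re_sum]
    simp only [Complex.re_sum]
    unfold lev
    rw [D2_sum x x, D2_sum (Complex.I • x) (Complex.I • x), ← Finset.sum_add_distrib,
      Finset.sum_div]
    refine Finset.sum_congr rfl fun j _ => ?_
    rw [← Finset.sum_add_distrib, Finset.sum_div]
    refine Finset.sum_congr rfl fun k _ => ?_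
    rw [D2_single, D2_single j k ((Complex.I • x) j)]
    unfold leviMat
    simp only [Pi.smul_apply, smul_eq_mul, Complex.mul_re, Complex.mul_im, Complex.conj_re,
      Complex.conj_im, Complex.I_re, Complex.I_im, Complex.add_re, Complex.add_im,
      Complex.ofReal_re, Complex.ofReal_im, Complex.div_ofNat_re, Complex.div_ofNat_im]
    ring
  · rw [Complex.ofReal_im]; exact him

theorem leviMat_cont (hf : ContDiffOn ℝ ∞ f {0}ᶜ) : ContinuousOn (leviMat f) {0}ᶜ := by
  have hD : ∀ v w : Fin n → ℂ, ContinuousOn (fun z => D2 f z v w) {0}ᶜ := by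
    intro v w z hz
    have h1 : ContDiffAt ℝ ∞ f z := hf.contDiffAt (isOpen_compl_singleton.mem_nhds hz)
    have h2 : ContDiffAt ℝ 1 (fderiv ℝ f) z := h1.fderiv_right (by rw [one_add_one_eq_two]; exact two_le)
    have h3 : ContDiffAt ℝ 0 (fderiv ℝ (fderiv ℝ f)) z := h2.fderiv_right (by norm_num)
    have h4 : ContinuousAt (fun z => fderiv ℝ (fderiv ℝ f) z v w) z :=
      (h3.continuousAt.clm_apply continuousAt_const).clm_apply continuousAt_const
    exact h4.continuousWithinAt
  refine continuousOn_pi.2 fun j => continuousOn_pi.2 fun k => ?_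
  have e : (fun z => leviMat f z j k) = fun z =>
      (((D2 f z (Pi.single j 1) (Pi.single k 1) +
      D2 f z (Pi.single j Complex.I) (Pi.single k Complex.I) : ℝ) : ℂ) +
    Complex.I * ((D2 f z (Pi.single j Complex.I) (Pi.single k 1) -
      D2 f z (Pi.single j 1) (Pi.single k Complex.I) : ℝ) : ℂ)) / 4 := rfl
  rw [e]
  refine ContinuousOn.div_const ?_ _
  refine ContinuousOn.add ?_ (ContinuousOn.mul continuousOn_const ?_)
  · exact Complex.continuous_ofReal.comp_continuousOn ((hD _ _).add (hD _ _))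
  · exact Complex.continuous_ofReal.comp_continuousOn ((hD _ _).sub (hD _ _))

end Pool.Agent.HMV
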