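import Pool.Agent.HMV.Defs

/-!
HMV-Det. Lower bound for the determinant of a Hermitian matrix (pure linear algebra).

Let `S` be the upper triangular matrix with first row `√μ (1, -c_1, ..., -c_m)` and the other
rows `√λ e_i` (`i ≥ 1`); `det S = √μ √λ^m`, and
`‖S v‖² = λ Pn v + μ ‖v 0 - ∑ c_i v_{i+1}‖²`. The matrix `B = (S⁻¹)ᴴ A S⁻¹` satisfies `v* B v ≥ |v|²`, so its
eigenvalues are `≥ 1`, `det B ≥ 1`, and `det A = det B |det S|²`.
-/

open scoped Matrix ComplexOrder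
open Finset

namespace Pool.Agent.HMV

private theorem det_one_le {n : ℕ} {B : Matrix (Fin n) (Fin n) ℂ} (hB : B.IsHermitian)
    (h : ∀ v : Fin n → ℂ, ∑ i, ‖v i‖ ^ 2 ≤ (star v ⬝ᵥ (B *ᵥ v)).re) :
    ∃ r : ℝ, 1 ≤ r ∧ B.det = (r : ℂ) := by
  refine ⟨∏ i, hB.eigenvalues i, ?_, ?_⟩
  · have h1 : ∀ i, 1 ≤ hB.eigenvalues i := by
      intro i
      have h2 := h (hB.eigenvectorBasis i).ofLp
      have h3 : ∑ l, ‖(hB.eigenvectorBasis i).ofLp l‖ ^ 2 = 1 := by
        have h4 := hB.eigenvectorBasis.norm_eq_one i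
        rw [EuclideanSpace.norm_eq, Real.sqrt_eq_one] at h4
        exact h4
      have h5 : (star (hB.eigenvectorBasis i).ofLp ⬝ᵥ (hB.eigenvectorBasis i).ofLp) = (1 : ℂ) := by
        rw [dotProduct]
        have h6 : ∀ l, star ((hB.eigenvectorBasis i).ofLp) l * (hB.eigenvectorBasis i).ofLp l =
            ((‖(hB.eigenvectorBasis i).ofLp l‖ ^ 2 : ℝ) : ℂ) := by
          intro l
          rw [Pi.star_apply, Complex.star_def, ← Complex.normSq_eq_conj_mul_self, Complex.normSq_eq_norm_sq]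
        rw [Finset.sum_congr rfl fun l _ => h6 l, ← Complex.ofReal_sum, h3, Complex.ofReal_one]
      rw [h3, hB.mulVec_eigenvectorBasis, dotProduct_smul, h5] at h2
      simpa using h2
    calc (1 : ℝ) = ∏ _i : Fin n, (1 : ℝ) := by simp
      _ ≤ ∏ i, hB.eigenvalues i := Finset.prod_le_prod (fun _ _ => zero_le_one) fun i _ => h1 i
  · rw [hB.det_eq_prod_eigenvalues]
    push_cast
    rfl

private noncomputable def Sm {m : ℕ} (lam mu : ℝ) (c : Fin m → ℂ) : Matrix (Fin (m + 1)) (Fin (m + 1)) ℂ :=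
  fun i j => Fin.cases ((√mu : ℂ) * Fin.cases (1 : ℂ) (fun l => -c l) j)
    (fun l => if j = l.succ then ((√lam : ℝ) : ℂ) else 0) i

private theorem Sm_zero {m : ℕ} (lam mu : ℝ) (c : Fin m → ℂ) (v : Fin (m + 1) → ℂ) :
    (Sm lam mu c *ᵥ v) 0 = (√mu : ℝ) * (v 0 - ∑ i : Fin m, c i * v i.succ) := by
  rw [Matrix.mulVec, dotProduct, Fin.sum_univ_succ]
  simp only [Sm, Fin.cases_zero, Fin.cases_succ, mul_one]
  rw [mul_sub, sub_eq_add_neg, Finset.mul_sum, ← Finset.sum_neg_distrib]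
  congr 1
  refine Finset.sum_congr rfl fun i _ => ?_
  ring

private theorem Sm_succ {m : ℕ} (lam mu : ℝ) (c : Fin m → ℂ) (v : Fin (m + 1) → ℂ) (l : Fin m) :
    (Sm lam mu c *ᵥ v) l.succ = (√lam : ℝ) * v l.succ := by
  rw [Matrix.mulVec, dotProduct]
  simp only [Sm, Fin.cases_succ]
  rw [Finset.sum_eq_single l.succ]
  · simp
  · intro b _ hb
    simp [hb]
  · simp

private theorem Sm_det {m : ℕ} (lam mu : ℝ) (c : Fin m → ℂ) :
    (Sm lam mu c).det = ((√mu * √lam ^ m : ℝ) : ℂ) := by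
  rw [Matrix.det_of_isUpperTriangular, Fin.prod_univ_succ]
  · simp only [Sm, Fin.cases_zero, Fin.cases_succ, mul_one, if_true]
    rw [Finset.prod_const, Finset.card_univ, Fintype.card_fin]
    push_cast
    ring
  · intro i j hij
    refine Fin.cases ?_ (fun l => ?_) i hij
    · intro h
      exact absurd h (Fin.not_lt_zero _)
    · intro h
      simp only [Sm, Fin.cases_succ]
      rw [if_neg]
      intro h1
      rw [h1] at h
      exact lt_irrefl _ h

private theorem Sm_norm {m : ℕ} {lam mu : ℝ} (hl : 0 < lam) (hm : 0 < mu) (c : Fin m → ℂ)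
    (v : Fin (m + 1) → ℂ) :
    ∑ i, ‖(Sm lam mu c *ᵥ v) i‖ ^ 2 = lam * Pn v + mu * ‖v 0 - ∑ i : Fin m, c i * v i.succ‖ ^ 2 := by
  rw [Fin.sum_univ_succ, Sm_zero]
  rw [norm_mul, mul_pow, Complex.norm_real, Real.norm_of_nonneg (Real.sqrt_nonneg _), Real.sq_sqrt hm.le, Pn,
    Finset.mul_sum, add_comm]
  congr 1
  refine Finset.sum_congr rfl fun l _ => ?_
  rw [Sm_succ, norm_mul, mul_pow, Complex.norm_real, Real.norm_of_nonneg (Real.sqrt_nonneg _), Real.sq_sqrt hl.le]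

theorem det_ge {m : ℕ} {A : Matrix (Fin (m + 1)) (Fin (m + 1)) ℂ} (hA : A.IsHermitian)
    {lam mu : ℝ} (hl : 0 < lam) (hm : 0 < mu) (c : Fin m → ℂ)
    (h : ∀ v : Fin (m + 1) → ℂ,
      lam * Pn v + mu * ‖v 0 - ∑ i : Fin m, c i * v i.succ‖ ^ 2 ≤ (star v ⬝ᵥ (A *ᵥ v)).re) :
    mu * lam ^ m ≤ A.det.re := by
  have hs : 0 < √mu * √lam ^ m := mul_pos (Real.sqrt_pos.2 hm) (pow_pos (Real.sqrt_pos.2 hl) _)
  have hdet := Sm_det lam mu c
  have hu : IsUnit (Sm lam mu c).det := by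
    rw [hdet, isUnit_iff_ne_zero]
    exact_mod_cast hs.ne'
  obtain ⟨r, hr, hB⟩ := det_one_le (B := ((Sm lam mu c)⁻¹)ᴴ * A * (Sm lam mu c)⁻¹)
    (Matrix.isHermitian_conjTranspose_mul_mul _ hA) (fun v => by
      have h1 := h ((Sm lam mu c)⁻¹ *ᵥ v)
      rw [← Sm_norm hl hm, Matrix.mulVec_mulVec, Matrix.mul_nonsing_inv _ hu, Matrix.one_mulVec] at h1
      refine h1.trans (le_of_eq ?_)
      congr 1
      rw [Matrix.star_mulVec, Matrix.mulVec_mulVec, ← Matrix.dotProduct_mulVec, Matrix.mulVec_mulVec,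
        Matrix.mul_assoc])
  have h2 : A = (Sm lam mu c)ᴴ * (((Sm lam mu c)⁻¹)ᴴ * A * (Sm lam mu c)⁻¹) * Sm lam mu c := by
    rw [Matrix.mul_assoc, Matrix.mul_assoc, Matrix.nonsing_inv_mul _ hu, Matrix.mul_one, ← Matrix.mul_assoc,
      ← Matrix.conjTranspose_mul, Matrix.nonsing_inv_mul _ hu, Matrix.conjTranspose_one, Matrix.one_mul]
  have h3 : A.det = ((mu * lam ^ m * r : ℝ) : ℂ) := by
    rw [h2, Matrix.det_mul, Matrix.det_mul, hB, Matrix.det_conjTranspose, hdet, Complex.star_def, Complex.conj_ofReal,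
      ← Complex.ofReal_mul, ← Complex.ofReal_mul]
    congr 1
    have h4 : √mu * √mu = mu := Real.mul_self_sqrt hm.le
    have h5 : √lam ^ m * √lam ^ m = lam ^ m := by rw [← mul_pow, Real.mul_self_sqrt hl.le]
    calc √mu * √lam ^ m * r * (√mu * √lam ^ m) = (√mu * √mu) * (√lam ^ m * √lam ^ m) * r := by ring
      _ = mu * lam ^ m * r := by rw [h4, h5]
  rw [h3, Complex.ofReal_re]
  have : 0 ≤ mu * lam ^ m := by positivity
  nlinarith

end Pool.Agent.HMV
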