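import Pool.Agent.HMV.Phi

/-!
HMV-Osc. The function `Φ` with `B = 2T` is bounded by a multiple of `T³` (helper67).
-/

open scoped ContDiff Topology
open Finset

namespace Pool.Agent.HMV

private theorem bet_upper {u : ℝ} (hu : 0 ≤ u) : bet u ≤ 2 * u ^ 2 + 1 := by
  unfold bet
  have h1 : √(1 + u ^ 2) ≤ 1 + u := by
    rw [Real.sqrt_le_left (by linarith)]
    nlinarith
  have h2 : u * √(1 + u ^ 2) ≤ u * (1 + u) := mul_le_mul_of_nonneg_left h1 hu
  nlinarith [sq_nonneg (u - 1)]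

private theorem log_nsq_le {m : ℕ} {B T : ℝ} {z : Fin (m + 1) → ℂ} (hz : z ≠ 0)
    (ha : aa B T z < -3) : Real.log (nsq z) ≤ 1 + tt z := by
  obtain ⟨-, h1, -, -, -⟩ := aa_supp hz ha
  have h0 := nsq_pos hz
  have hP := Pn_nonneg z
  have h2 : nsq z ≤ 5 / 2 * (1 + Pn z) := by linarith
  have h3 := Real.log_le_log h0 h2
  rw [Real.log_mul (by norm_num) (by linarith)] at h3
  have h4 : Real.log (5 / 2) ≤ 1 := by
    rw [Real.log_le_iff_le_exp (by norm_num)]
    have := Real.exp_one_gt_d9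
    linarith
  unfold tt
  linarith

private theorem aa_ge_gen {m : ℕ} {T : ℝ} (hT : 1 ≤ T) {z : Fin (m + 1) → ℂ} (hz : z ≠ 0)
    (ha : aa (2 * T) T z < -3) : -(4 * T ^ 3 + 3) ≤ aa (2 * T) T z := by
  have h1 := log_nsq_le hz ha
  obtain ⟨-, -, -, ht, -⟩ := aa_supp hz ha
  have ht0 : 0 ≤ tt z := Real.log_nonneg (by have := Pn_nonneg z; linarith)
  have h2 : cc (2 * T) T z ≤ Real.log (FF (2 * T) T z) := by
    rw [Real.le_log_iff_exp_le (FF_pos _ _ _)]
    unfold FF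
    have : 0 ≤ ‖z 0 - 1‖ ^ 2 := by positivity
    have h3 : EE (2 * T) T z = Real.exp (cc (2 * T) T z) := rfl
    linarith
  have h3 : -(4 * T ^ 3 + 1) ≤ bb (2 * T) T (tt z) := by
    unfold bb
    have hu : 0 ≤ √(2 * T) * (T - tt z) := mul_nonneg (Real.sqrt_nonneg _) (by linarith)
    have h4 := bet_upper hu
    have h5 : (√(2 * T) * (T - tt z)) ^ 2 = 2 * T * (T - tt z) ^ 2 := by
      rw [mul_pow, Real.sq_sqrt (by linarith)]
    rw [h5] at h4
    have h6 : (T - tt z) ^ 2 ≤ T ^ 2 := pow_le_pow_left₀ (by linarith) (by linarith) 2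
    have h7 : 2 * (2 * T * (T - tt z) ^ 2) ≤ 4 * T ^ 3 := by
      have : T * (T - tt z) ^ 2 ≤ T * T ^ 2 := mul_le_mul_of_nonneg_left h6 (by linarith)
      nlinarith
    linarith
  have h4 : cc (2 * T) T z = bb (2 * T) T (tt z) + tt z := rfl
  have h5 : aa (2 * T) T z = Real.log (FF (2 * T) T z) - Real.log (nsq z) := rfl
  linarith

private theorem aa_ge_far {m : ℕ} {B T δ : ℝ} (hδ : 0 < δ) {z : Fin (m + 1) → ℂ} (hz : z ≠ 0)
    (ha : aa B T z < -3) (hd : δ ≤ ‖z 0 - 1‖) : -(T + (1 + 2 * |Real.log δ|)) ≤ aa B T z := by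
  have h1 := log_nsq_le hz ha
  obtain ⟨-, -, -, ht, -⟩ := aa_supp hz ha
  have h2 : 2 * Real.log δ ≤ Real.log (FF B T z) := by
    have h3 : δ ^ 2 ≤ FF B T z := by
      unfold FF
      have := EE_pos B T z
      have : δ ^ 2 ≤ ‖z 0 - 1‖ ^ 2 := pow_le_pow_left₀ hδ.le hd 2
      linarith
    have h4 := Real.log_le_log (by positivity) h3
    rw [Real.log_pow] at h4
    exact_mod_cast h4
  have h3 := neg_abs_le (Real.log δ)
  have h5 : aa B T z = Real.log (FF B T z) - Real.log (nsq z) := rfl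
  linarith

private theorem hh_abs {x : ℝ} (hx : x < -3) : |hh x| ≤ -x := by
  unfold hh
  rw [abs_mul, abs_of_neg (by linarith : x + 3 < 0),
    abs_of_nonneg (Real.smoothTransition.nonneg _)]
  have h1 := Real.smoothTransition.le_one (-3 - x)
  have h2 : -(x + 3) * Real.smoothTransition (-3 - x) ≤ -(x + 3) * 1 :=
    mul_le_mul_of_nonneg_left h1 (by linarith)
  linarith

theorem Phi_bound (m : ℕ) {q : ℂ} (hq : 1 < ‖q‖) : ∃ C : ℝ, 0 < C ∧ ∀ T : ℝ, 1 ≤ T →
    ∀ z : Fin (m + 1) → ℂ, z ≠ 0 → |Phi q (2 * T) T z| ≤ C * T ^ 3 := by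
  classical
  obtain ⟨C, hC0, hC⟩ := sum_neg_le m hq
  set δ : ℝ := (‖q‖ - 1) / (‖q‖ + 1) with hδ
  have hδ0 : 0 < δ := div_pos (by linarith) (by linarith)
  set D : ℝ := 1 + 2 * |Real.log δ| with hD
  have hD0 : 0 < D := by positivity
  refine ⟨7 + C * (1 + D), by positivity, fun T hT z hz => ?_⟩
  obtain ⟨S, -, hS⟩ := Phi_loc (m := m) hq (by linarith : (0 : ℝ) ≤ 2 * T) T hz
  have h1 : Phi q (2 * T) T z = ∑ k ∈ S, GG (2 * T) T (yy q k z) := hS.self_of_nhds
  set S' := S.filter fun k => aa (2 * T) T (yy q k z) < -3 with hS'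
  have h2 : ∑ k ∈ S, GG (2 * T) T (yy q k z) = ∑ k ∈ S', GG (2 * T) T (yy q k z) := by
    rw [hS', Finset.sum_filter]
    refine Finset.sum_congr rfl fun k _ => ?_
    split_ifs with h
    · rfl
    · exact (GG_far (by linarith : (0 : ℝ) ≤ 2 * T) T (yy_ne hq k hz) (not_lt.1 h) 0).1
  have hmem : ∀ k ∈ S', aa (2 * T) T (yy q k z) < -3 := fun k hk => (Finset.mem_filter.1 hk).2
  have hcard : (S'.card : ℝ) ≤ C * T := by
    have h3 := hC T hT z hz S' hmem
    have h4 : (S'.card : ℝ) = ∑ k ∈ S', (1 : ℝ) := by simp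
    rw [h4]
    refine le_trans (Finset.sum_le_sum fun k _ => ?_) h3
    have hE := EE_pos (2 * T) T (yy q k z)
    have hF := FF_pos (2 * T) T (yy q k z)
    have ht : 0 ≤ tau (2 * T) T (yy q k z) := div_nonneg hE.le hF.le
    unfold neg
    have h5 : 0 ≤ 2 * T * tau (2 * T) T (yy q k z) := by positivity
    have h6 : 0 ≤ 2 * T * Real.exp (-(2 * T * (T - tt (yy q k z)) ^ 2)) := by positivity
    linarith
  have hterm : ∀ k ∈ S', |GG (2 * T) T (yy q k z)| ≤
      (if ‖yy q k z 0 - 1‖ < δ then 4 * T ^ 3 + 3 else 0) + (T + D) := by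
    intro k hk
    have ha := hmem k hk
    have hn := yy_ne hq k hz
    have h3 := hh_abs ha
    have h4 : GG (2 * T) T (yy q k z) = hh (aa (2 * T) T (yy q k z)) := rfl
    rw [h4]
    split_ifs with hc
    · have h5 := aa_ge_gen hT hn ha
      linarith
    · have h5 := aa_ge_far hδ0 hn ha (not_lt.1 hc)
      linarith
  rw [h1, h2]
  refine le_trans (Finset.abs_sum_le_sum_abs _ _) (le_trans (Finset.sum_le_sum hterm) ?_)
  rw [Finset.sum_add_distrib, Finset.sum_const, nsmul_eq_mul]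
  have hclose : ∑ k ∈ S', (if ‖yy q k z 0 - 1‖ < δ then 4 * T ^ 3 + 3 else 0) ≤ 4 * T ^ 3 + 3 := by
    rw [← Finset.sum_filter, Finset.sum_const, nsmul_eq_mul]
    have h5 : ((S'.filter fun k => ‖yy q k z 0 - 1‖ < δ).card : ℝ) ≤ 1 := by
      have : (S'.filter fun k => ‖yy q k z 0 - 1‖ < δ).card ≤ 1 := by
        rw [Finset.card_le_one]
        intro j hj k hk
        exact close_unique hq (z 0) (Finset.mem_filter.1 hj).2 (Finset.mem_filter.1 hk).2
      exact_mod_cast this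
    have h6 : 0 ≤ 4 * T ^ 3 + 3 := by positivity
    calc _ ≤ 1 * (4 * T ^ 3 + 3) := mul_le_mul_of_nonneg_right h5 h6
      _ = _ := one_mul _
  have h7 : (S'.card : ℝ) * (T + D) ≤ C * T * (T + D) :=
    mul_le_mul_of_nonneg_right hcard (by linarith)
  have hT1 : 1 ≤ T ^ 3 := one_le_pow₀ hT
  have hT2 : T * (T + D) ≤ (1 + D) * T ^ 3 := by
    have e1 : T * T ≤ T ^ 3 := by nlinarith [mul_nonneg (by linarith : (0:ℝ) ≤ T) (by linarith : (0:ℝ) ≤ T)]
    have e2 : T ≤ T ^ 3 := by nlinarith [mul_nonneg (by linarith : (0:ℝ) ≤ T) (by linarith : (0:ℝ) ≤ T)]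
    nlinarith
  have h8 : C * T * (T + D) ≤ C * ((1 + D) * T ^ 3) := by
    have := mul_le_mul_of_nonneg_left hT2 hC0.le
    linarith
  nlinarith

end Pool.Agent.HMV
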