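import Pool.Agent.HMV.Vol2
import Pool.Agent.HMV.Osc

/-!
HMV-Fin. The theorem (helper67).
-/

open scoped Matrix ComplexOrder Topology ContDiff
open Finset MeasureTheory Filter

namespace Pool.Agent.HMV

private theorem small {η : ℝ} (hη : 0 < η) :
    ∃ T1 : ℝ, 3 ≤ T1 ∧ ∀ T, T1 ≤ T → 3 * Real.exp (-(T ^ 3 / 2)) ≤ η := by
  have h1 : Tendsto (fun T : ℝ => T ^ 3 / 2) atTop atTop :=
    (tendsto_pow_atTop (by norm_num)).atTop_div_const (by norm_num)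
  have h2 : Tendsto (fun T : ℝ => 3 * Real.exp (-(T ^ 3 / 2))) atTop (𝓝 (3 * 0)) :=
    (Real.tendsto_exp_neg_atTop_nhds_zero.comp h1).const_mul 3
  rw [mul_zero] at h2
  obtain ⟨T1, hT1⟩ := eventually_atTop.1 (h2.eventually_lt_const hη)
  exact ⟨max T1 3, le_max_right _ _, fun T hT => (hT1 T (le_trans (le_max_left _ _) hT)).le⟩

/-- Quantitative form: there are potentials `φ` with `|φ| ≤ T²` and volume at least
`c T^{n-2}`. -/
theorem volumes (n : ℕ) (hn : 3 ≤ n) (q : ℂ) (hq : 1 < ‖q‖)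
    (A : (Fin n → ℂ) → Matrix (Fin n) (Fin n) ℂ) (hA : IsHermMetric q A) :
    ∃ c : ℝ, 0 < c ∧ ∀ T : ℝ, 1 ≤ T → ∃ φ : (Fin n → ℂ) → ℝ, IsPotential q A φ ∧
      (∀ z, z ≠ 0 → |φ z| ≤ T ^ 2) ∧ c * T ^ (n - 2) ≤ mvol q A φ := by
  obtain ⟨m, rfl⟩ : ∃ m, n = m + 1 := ⟨n - 1, by omega⟩
  obtain ⟨ε0, hε0, hAε0⟩ := metric_ge hq hA
  obtain ⟨θ, hθ0, -, hθ⟩ := Phi_lower m hq
  obtain ⟨C, hC0, hC⟩ := Phi_bound m hq
  have hQ0 : 0 < ‖q‖ := by linarith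
  have hη : 0 < ((‖q‖ - 1) / (3 * ‖q‖)) ^ 2 := by
    have : 0 < (‖q‖ - 1) / (3 * ‖q‖) := div_pos (by linarith) (by positivity)
    positivity
  obtain ⟨T1, hT13, hT1⟩ := small hη
  set δ : ℝ := min 1 ((‖q‖ - 1) / 2) with hδ
  have hδ0 : 0 < δ := lt_min one_pos (by linarith)
  set r : ℝ := √(‖q‖ / 2) with hrdef
  have hr : 0 < r := Real.sqrt_pos.2 (by positivity)
  have hs : 0 < volume (shell m r δ) ∧ volume (shell m r δ) < ⊤ ∧
      MeasurableSet (shell m r δ) := shell_pos (by omega) hr hδ0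
  set V : ℝ := Real.pi * (volume (shell m r δ)).toReal with hV
  have hV0 : 0 < V := mul_pos Real.pi_pos (ENNReal.toReal_pos hs.1.ne' hs.2.1.ne)
  have hT10 : 0 < T1 := by linarith
  set ε : ℝ := min ε0 (2 / (θ * C * T1 ^ 2)) with hε
  have hεpos : 0 < ε := lt_min hε0 (by positivity)
  have hε1 : ε ≤ ε0 := min_le_left _ _
  have hε2 : ε * (θ * C * T1 ^ 2) ≤ 2 := by
    have h1 : ε ≤ 2 / (θ * C * T1 ^ 2) := min_le_right _ _
    rwa [le_div_iff₀ (by positivity)] at h1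
  have hAε : ∀ z, z ≠ 0 → ∀ v : Fin (m + 1) → ℂ,
      ε * (nsq v / nsq z) ≤ (star v ⬝ᵥ (A z *ᵥ v)).re := fun z hz v =>
    le_trans (mul_le_mul_of_nonneg_right hε1 (div_nonneg (nsq_nonneg _) (nsq_nonneg _)))
      (hAε0 z hz v)
  refine ⟨ε * θ / (8 * T1) * (ε * θ * T1 / (18 * r ^ 2)) ^ m * V, by positivity, ?_⟩
  intro T hT
  have hT0 : 0 < T := by linarith
  have hTT : T1 ≤ T1 * T := by nlinarith
  have hTT3 : 3 ≤ T1 * T := le_trans hT13 hTT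
  refine ⟨pot q ε θ r (T1 * T), pot_isPotential hq hA hεpos hAε hθ hr (by linarith), ?_, ?_⟩
  · intro z hz
    have hc : (((r⁻¹ : ℝ) : ℂ)) ≠ 0 := by
      exact_mod_cast (inv_pos.2 hr).ne'
    have h1 := hC (T1 * T) (by linarith) ((((r⁻¹ : ℝ) : ℂ)) • z) (smul_ne_zero hc hz)
    have h2 : |pot q ε θ r (T1 * T) z| = ε * (θ / (2 * (T1 * T))) *
        |Phi q (2 * (T1 * T)) (T1 * T) ((((r⁻¹ : ℝ) : ℂ)) • z)| := by
      unfold pot
      rw [abs_mul, abs_of_pos (by positivity : 0 < ε * (θ / (2 * (T1 * T))))]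
    rw [h2]
    have h3 : 0 ≤ ε * (θ / (2 * (T1 * T))) := by positivity
    calc ε * (θ / (2 * (T1 * T))) *
          |Phi q (2 * (T1 * T)) (T1 * T) ((((r⁻¹ : ℝ) : ℂ)) • z)|
        ≤ ε * (θ / (2 * (T1 * T))) * (C * (T1 * T) ^ 3) := mul_le_mul_of_nonneg_left h1 h3
      _ = ε * (θ * C * T1 ^ 2) / 2 * T ^ 2 := by field_simp
      _ ≤ 1 * T ^ 2 := mul_le_mul_of_nonneg_right (by linarith) (by positivity)
      _ = T ^ 2 := one_mul _
  · have h1 := mvol_lower hq hA hεpos hθ0 hAε hθ hδ0 (min_le_left _ _) (min_le_right _ _) hTT3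
      (hT1 _ hTT) (by omega)
    refine le_trans (le_of_eq ?_) h1
    have e1 : m + 1 - 2 + 1 = m := by omega
    have e2 : (ε * θ * (T1 * T) / (18 * r ^ 2)) ^ m =
        (ε * θ * T1 / (18 * r ^ 2)) ^ m * (T ^ (m + 1 - 2) * T) := by
      rw [← pow_succ, e1, ← mul_pow]
      congr 1
      ring
    rw [← hrdef, e2, ← hV]
    field_simp

/-- For `n ≥ 3` and `|q| > 1` the Monge-Ampere volumes of the Hermitian metrics in the
`dd^c`-class of an arbitrary Hermitian metric on the Hopf manifold are unbounded. -/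
theorem unbounded (n : ℕ) (hn : 3 ≤ n) (q : ℂ) (hq : 1 < ‖q‖)
    (A : (Fin n → ℂ) → Matrix (Fin n) (Fin n) ℂ) (hA : IsHermMetric q A) (M : ℝ) :
    ∃ φ : (Fin n → ℂ) → ℝ, IsPotential q A φ ∧ M < mvol q A φ := by
  obtain ⟨c, hc, h⟩ := volumes n hn q hq A hA
  have h1 : Tendsto (fun T : ℝ => c * T ^ (n - 2)) atTop atTop :=
    Tendsto.const_mul_atTop hc (tendsto_pow_atTop (by omega))
  obtain ⟨T, hT, hT1⟩ := ((h1.eventually_gt_atTop M).and (eventually_ge_atTop (1 : ℝ))).exists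
  obtain ⟨φ, h2, -, h3⟩ := h T hT1
  exact ⟨φ, h2, lt_of_lt_of_le hT h3⟩

end Pool.Agent.HMV
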