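import Pool.Agent.HMV.Defs

/-!
HMV-Fub. The integral of `1/e(z')` over the tube `{z' ∈ D, |z₀ - r|² ≤ e(z')}` (measure theory only).

`volume_preserving_piFinSuccAbove` identifies `Fin (m+1) → ℂ` with `ℂ × (Fin m → ℂ)`; for fixed `y ∈ D` the inner
integral is `ofReal (1/e y) * volume (closedBall r √(e y)) = ofReal π`.
-/

open MeasureTheory

namespace Pool.Agent.HMV

private theorem disc_vol {ε : ℝ} (hε : 0 < ε) (r : ℂ) :
    ENNReal.ofReal (1 / ε) * volume {x : ℂ | ‖x - r‖ ^ 2 ≤ ε} = ENNReal.ofReal Real.pi := by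
  have h1 : {x : ℂ | ‖x - r‖ ^ 2 ≤ ε} = Metric.closedBall r (√ε) := by
    ext x
    rw [Set.mem_ofPred_eq, Metric.mem_closedBall, dist_eq_norm, Real.le_sqrt (norm_nonneg _) hε.le]
  rw [h1, Complex.volume_closedBall, ← ENNReal.ofReal_pow (Real.sqrt_nonneg _), Real.sq_sqrt hε.le, ← mul_assoc,
    ← ENNReal.ofReal_mul (by positivity), one_div, inv_mul_cancel₀ hε.ne', ENNReal.ofReal_one, one_mul]
  rw [← NNReal.coe_real_pi, ENNReal.ofReal_coe_nnreal]

theorem tube_measurable {m : ℕ} (e : (Fin m → ℂ) → ℝ) (he : Measurable e)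
    (D : Set (Fin m → ℂ)) (hD : MeasurableSet D) (r : ℂ) :
    MeasurableSet {z : Fin (m + 1) → ℂ | (fun i => z (Fin.succ i)) ∈ D ∧
        ‖z 0 - r‖ ^ 2 ≤ e (fun i => z (Fin.succ i))} := by
  have h1 : Measurable (fun z : Fin (m + 1) → ℂ => fun i : Fin m => z (Fin.succ i)) := by fun_prop
  have h2 : Measurable (fun z : Fin (m + 1) → ℂ => ‖z 0 - r‖ ^ 2) := by fun_prop
  exact (h1 hD).inter (measurableSet_le h2 (he.comp h1))

theorem tube_lintegral {m : ℕ} (e : (Fin m → ℂ) → ℝ) (he : Measurable e)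
    (hpos : ∀ y, 0 < e y) (D : Set (Fin m → ℂ)) (hD : MeasurableSet D) (r : ℂ) :
    ∫⁻ z in {z : Fin (m + 1) → ℂ | (fun i => z (Fin.succ i)) ∈ D ∧
        ‖z 0 - r‖ ^ 2 ≤ e (fun i => z (Fin.succ i))},
      ENNReal.ofReal (1 / e (fun i => z (Fin.succ i))) =
    ENNReal.ofReal Real.pi * volume D := by
  set T : Set (ℂ × (Fin m → ℂ)) := {p | p.2 ∈ D ∧ ‖p.1 - r‖ ^ 2 ≤ e p.2} with hT
  have hTm : MeasurableSet T := by
    have h2 : Measurable (fun p : ℂ × (Fin m → ℂ) => ‖p.1 - r‖ ^ 2) := by fun_prop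
    exact (measurable_snd hD).inter (measurableSet_le h2 (he.comp measurable_snd))
  set G : ℂ × (Fin m → ℂ) → ENNReal := T.indicator fun p => ENNReal.ofReal (1 / e p.2) with hG
  have hGm : Measurable G := by
    refine Measurable.indicator ?_ hTm
    exact ((measurable_const.div (he.comp measurable_snd))).ennreal_ofReal
  have hp := volume_preserving_piFinSuccAbove (fun _ : Fin (m + 1) => ℂ) 0
  have h1 : ∫⁻ z in {z : Fin (m + 1) → ℂ | (fun i => z (Fin.succ i)) ∈ D ∧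
        ‖z 0 - r‖ ^ 2 ≤ e (fun i => z (Fin.succ i))},
      ENNReal.ofReal (1 / e (fun i => z (Fin.succ i))) =
      ∫⁻ z, G (MeasurableEquiv.piFinSuccAbove (fun _ : Fin (m + 1) => ℂ) 0 z) := by
    rw [← lintegral_indicator (tube_measurable e he D hD r)]
    refine lintegral_congr fun z => ?_
    rfl
  rw [h1, hp.lintegral_comp hGm, Measure.volume_eq_prod, lintegral_prod_symm _ hGm.aemeasurable]
  have h2 : ∀ y : Fin m → ℂ, ∫⁻ x : ℂ, G (x, y) = D.indicator (fun _ => ENNReal.ofReal Real.pi) y := by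
    intro y
    by_cases hy : y ∈ D
    · rw [Set.indicator_of_mem hy, ← disc_vol (hpos y) r]
      have hm : MeasurableSet {x : ℂ | ‖x - r‖ ^ 2 ≤ e y} := by
        have h2 : Measurable (fun x : ℂ => ‖x - r‖ ^ 2) := by fun_prop
        exact measurableSet_le h2 measurable_const
      rw [← lintegral_indicator_const hm]
      refine lintegral_congr fun x => ?_
      rw [hG]
      by_cases hx : ‖x - r‖ ^ 2 ≤ e y
      · rw [Set.indicator_of_mem (show (x, y) ∈ T from ⟨hy, hx⟩), Set.indicator_of_mem (show x ∈ _ from hx)]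
      · rw [Set.indicator_of_notMem (show (x, y) ∉ T from fun h => hx h.2),
          Set.indicator_of_notMem (show x ∉ _ from hx)]
    · rw [Set.indicator_of_notMem hy]
      have h3 : ∀ x : ℂ, G (x, y) = 0 := fun x => by
        rw [hG, Set.indicator_of_notMem (show (x, y) ∉ T from fun h => hy h.1)]
      simp only [h3, lintegral_zero]
  simp only [h2]
  rw [lintegral_indicator_const hD]

/-- the shell `{y | 1 ≤ |y|²/r² ≤ 1 + δ}` in `ℂ^m`, `m ≥ 1`, has positive finite volume -/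
theorem shell_pos {m : ℕ} (hm : 1 ≤ m) {r δ : ℝ} (hr : 0 < r) (hδ : 0 < δ) :
    0 < volume {y : Fin m → ℂ | r ^ 2 ≤ nsq y ∧ nsq y ≤ (1 + δ) * r ^ 2} ∧
      volume {y : Fin m → ℂ | r ^ 2 ≤ nsq y ∧ nsq y ≤ (1 + δ) * r ^ 2} < ⊤ ∧
      MeasurableSet {y : Fin m → ℂ | r ^ 2 ≤ nsq y ∧ nsq y ≤ (1 + δ) * r ^ 2} := by
  have hc : Continuous (fun y : Fin m → ℂ => nsq y) := by
    unfold nsq
    fun_prop
  have hr2 : 0 < r ^ 2 := by positivity
  refine ⟨?_, ?_, ?_⟩
  · have ho : IsOpen {y : Fin m → ℂ | r ^ 2 < nsq y ∧ nsq y < (1 + δ) * r ^ 2} :=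
      (isOpen_lt continuous_const hc).inter (isOpen_lt hc continuous_const)
    have hne : {y : Fin m → ℂ | r ^ 2 < nsq y ∧ nsq y < (1 + δ) * r ^ 2}.Nonempty := by
      refine ⟨Pi.single ⟨0, hm⟩ ((√((1 + δ / 2) * r ^ 2) : ℝ) : ℂ), ?_⟩
      have h1 : nsq (Pi.single (⟨0, hm⟩ : Fin m) ((√((1 + δ / 2) * r ^ 2) : ℝ) : ℂ)) = (1 + δ / 2) * r ^ 2 := by
        rw [nsq, Finset.sum_eq_single (⟨0, hm⟩ : Fin m)]
        · rw [Pi.single_eq_same, Complex.norm_real, Real.norm_eq_abs, sq_abs, Real.sq_sqrt (by positivity)]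
        · intro b _ hb
          rw [Pi.single_eq_of_ne hb, norm_zero]
          norm_num
        · intro h
          exact absurd (Finset.mem_univ _) h
      rw [Set.mem_ofPred_eq, h1]
      constructor <;> nlinarith
    refine (ho.measure_pos volume hne).trans_le (measure_mono ?_)
    rintro y ⟨h1, h2⟩
    exact ⟨h1.le, h2.le⟩
  · have hb : {y : Fin m → ℂ | r ^ 2 ≤ nsq y ∧ nsq y ≤ (1 + δ) * r ^ 2} ⊆
        Metric.closedBall 0 (√((1 + δ) * r ^ 2)) := by
      rintro y ⟨-, h2⟩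
      rw [mem_closedBall_zero_iff, pi_norm_le_iff_of_nonneg (Real.sqrt_nonneg _)]
      intro i
      refine Real.le_sqrt_of_sq_le (le_trans ?_ h2)
      exact Finset.single_le_sum (f := fun i => ‖y i‖ ^ 2) (fun i _ => by positivity) (Finset.mem_univ i)
    exact (measure_mono hb).trans_lt measure_closedBall_lt_top
  · exact ((isClosed_le continuous_const hc).inter (isClosed_le hc continuous_const)).measurableSet

end Pool.Agent.HMV
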