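import Pool.Agent.HMV.LevT
import Pool.Agent.HMV.Beta

/-!
HMV-LevA. The jet of `a = log F - log |z|²` (exact identity): chain rule for `c = b(t) + t`, `E = e^c`,
`F = |z₀ - 1|² + E` and `log F`, and the algebraic identity
`F (‖v₀‖² + E ‖δ‖²) - ‖conj w v₀ + E δ‖² = E ‖v₀ - w δ‖²` with `F = ‖w‖² + E`.
-/

open scoped ContDiff Topology
open Finset

namespace Pool.Agent.HMV

theorem EE_pos {m : ℕ} (B T : ℝ) (z : Fin (m + 1) → ℂ) : 0 < EE B T z := Real.exp_pos _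

theorem FF_pos {m : ℕ} (B T : ℝ) (z : Fin (m + 1) → ℂ) : 0 < FF B T z := by
  have := EE_pos B T z
  unfold FF
  positivity

private theorem levA_ext {n : ℕ} {f : (Fin n → ℂ) → ℝ} {z : Fin n → ℂ} {d d' : (Fin n → ℂ) → ℂ}
    {l l' : (Fin n → ℂ) → ℝ} (h : Jet f z d l) (hd : ∀ v, d v = d' v) (hl : ∀ v, l v = l' v) :
    Jet f z d' l' :=
  ⟨h.smooth, fun v => (h.hd v).trans (hd v), fun v => (h.hl v).trans (hl v)⟩

private theorem levA_cc {m : ℕ} {B : ℝ} (hB : 0 ≤ B) (T : ℝ) (z : Fin (m + 1) → ℂ) :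
    Jet (cc B T) z (dc B T z)
      (fun v => (1 + bb1 B T (tt z)) * Lt z v + bb2 B T (tt z) * ‖dt z v‖ ^ 2) := by
  have hs : ContDiff ℝ ∞ (fun s => bb B T s + s) := (bb_smooth B T).add contDiff_id
  have hdiff : Differentiable ℝ (bb B T) := (bb_smooth B T).differentiable (by simp)
  have h1 : deriv (fun s => bb B T s + s) = fun s => deriv (bb B T) s + 1 := by
    funext s
    exact ((hdiff s).hasDerivAt.add (hasDerivAt_id s)).deriv
  have h2 : deriv (deriv (fun s => bb B T s + s)) (tt z) = bb2 B T (tt z) := by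
    rw [h1, deriv_add_const, bb_deriv2 hB]
  have h3 : deriv (fun s => bb B T s + s) (tt z) = 1 + bb1 B T (tt z) := by
    rw [h1]
    show deriv (bb B T) (tt z) + 1 = 1 + bb1 B T (tt z)
    rw [bb_deriv, add_comm]
  refine levA_ext (Jet.comp (h := fun s => bb B T s + s) hs.contDiffAt (tt_jet z)) (fun v => ?_) (fun v => ?_)
  · rw [h3]
    rfl
  · rw [h3, h2]

private theorem levA_EE {m : ℕ} {B : ℝ} (hB : 0 ≤ B) (T : ℝ) (z : Fin (m + 1) → ℂ) :
    Jet (EE B T) z (fun v => ((EE B T z : ℝ) : ℂ) * dc B T z v)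
      (fun v => EE B T z * ((1 + bb1 B T (tt z)) * Lt z v + bb2 B T (tt z) * ‖dt z v‖ ^ 2) +
        EE B T z * ‖dc B T z v‖ ^ 2) := by
  refine levA_ext (Jet.comp (h := Real.exp) Real.contDiff_exp.contDiffAt (levA_cc hB T z))
    (fun v => ?_) (fun v => ?_)
  · rw [Real.deriv_exp]
    rfl
  · rw [Real.deriv_exp, Real.deriv_exp]
    rfl

private theorem levA_FF {m : ℕ} {B : ℝ} (hB : 0 ≤ B) (T : ℝ) (z : Fin (m + 1) → ℂ) :
    Jet (FF B T) z
      (fun v => (starRingEnd ℂ) (z 0 - 1) * v 0 + ((EE B T z : ℝ) : ℂ) * dc B T z v)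
      (fun v => ‖v 0‖ ^ 2 + (EE B T z * ((1 + bb1 B T (tt z)) * Lt z v + bb2 B T (tt z) * ‖dt z v‖ ^ 2) +
        EE B T z * ‖dc B T z v‖ ^ 2)) :=
  (jet_normSq_sub 0 1 z).add (levA_EE hB T z)

private theorem levA_id (w v δ : ℂ) (E : ℝ) :
    (‖w‖ ^ 2 + E) * (‖v‖ ^ 2 + E * ‖δ‖ ^ 2) - ‖(starRingEnd ℂ) w * v + (E : ℂ) * δ‖ ^ 2 =
      E * ‖v - w * δ‖ ^ 2 := by
  simp only [Complex.sq_norm, Complex.normSq_apply, Complex.add_re, Complex.add_im, Complex.sub_re,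
    Complex.sub_im, Complex.mul_re, Complex.mul_im, Complex.conj_re, Complex.conj_im,
    Complex.ofReal_re, Complex.ofReal_im]
  ring

theorem aa_jet {m : ℕ} {B : ℝ} (hB : 0 ≤ B) (T : ℝ) {z : Fin (m + 1) → ℂ} (hz : z ≠ 0) :
    Jet (aa B T) z
      (fun v => ((starRingEnd ℂ) (z 0 - 1) * v 0 + ((EE B T z : ℝ) : ℂ) * dc B T z v) /
        ((FF B T z : ℝ) : ℂ) - dn z v)
      (fun v => PP B T z v + tau B T z * bb2 B T (tt z) * ‖dt z v‖ ^ 2 - Ln z v) := by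
  have hF := FF_pos B T z
  have h1 := Jet.comp (h := Real.log) (Real.contDiffAt_log.2 hF.ne') (levA_FF hB T z)
  have h2 := h1.sub (logn_jet hz)
  refine levA_ext (f := aa B T) h2 (fun v => ?_) (fun v => ?_)
  · rw [Real.deriv_log']
    push_cast
    rw [div_eq_inv_mul]
  · have h3 : deriv (deriv Real.log) (FF B T z) = -(FF B T z ^ 2)⁻¹ := by
      rw [Real.deriv_log', deriv_inv]
    rw [h3, Real.deriv_log]
    have h4 := levA_id (z 0 - 1) (v 0) (dc B T z v) (EE B T z)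
    have h5 : FF B T z = ‖z 0 - 1‖ ^ 2 + EE B T z := rfl
    rw [← h5] at h4
    have h6 : PP B T z v = EE B T z / FF B T z * (1 + bb1 B T (tt z)) * Lt z v +
      EE B T z / FF B T z ^ 2 * ‖v 0 - (z 0 - 1) * dc B T z v‖ ^ 2 := rfl
    have h7 : tau B T z = EE B T z / FF B T z := rfl
    rw [h6, h7]
    have h8 : EE B T z / FF B T z ^ 2 * ‖v 0 - (z 0 - 1) * dc B T z v‖ ^ 2 =
        (FF B T z * (‖v 0‖ ^ 2 + EE B T z * ‖dc B T z v‖ ^ 2) -
          ‖(starRingEnd ℂ) (z 0 - 1) * v 0 + ((EE B T z : ℝ) : ℂ) * dc B T z v‖ ^ 2) / FF B T z ^ 2 := by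
      rw [h4]
      ring
    rw [h8]
    have hF' := hF.ne'
    field_simp
    ring

end Pool.Agent.HMV
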