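import Pool.Agent.HMV.JetC
import Pool.Agent.HMV.JetQ
import Pool.Agent.HMV.Jet

/-!
HMV-LevT. The jet of `t = log (1 + |z'|²)` and of `log |z|²`, from the chain rule for jets and the jets of the
quadratic functions `|z'|²`, `|z|²`; the estimates are the Cauchy-Schwarz inequality.
-/

open scoped ContDiff Topology
open Finset

namespace Pool.Agent.HMV

theorem nsq_nonneg {n : ℕ} (z : Fin n → ℂ) : 0 ≤ nsq z :=
  Finset.sum_nonneg fun _ _ => by positivity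

theorem nsq_pos {n : ℕ} {z : Fin n → ℂ} (hz : z ≠ 0) : 0 < nsq z := by
  obtain ⟨i, hi⟩ := Function.ne_iff.mp hz
  refine Finset.sum_pos' (fun _ _ => by positivity) ⟨i, Finset.mem_univ i, ?_⟩
  have : 0 < ‖z i‖ := norm_pos_iff.mpr hi
  positivity

theorem Pn_nonneg {m : ℕ} (z : Fin (m + 1) → ℂ) : 0 ≤ Pn z :=
  Finset.sum_nonneg fun _ _ => by positivity

theorem nsq_eq {m : ℕ} (z : Fin (m + 1) → ℂ) : nsq z = ‖z 0‖ ^ 2 + Pn z := by
  unfold nsq Pn
  rw [Fin.sum_univ_succ]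

theorem nsq_smul {n : ℕ} (c : ℂ) (z : Fin n → ℂ) : nsq (c • z) = ‖c‖ ^ 2 * nsq z := by
  unfold nsq
  rw [Finset.mul_sum]
  refine Finset.sum_congr rfl fun i _ => ?_
  rw [Pi.smul_apply, smul_eq_mul, norm_mul, mul_pow]

theorem Pn_smul {m : ℕ} (c : ℂ) (z : Fin (m + 1) → ℂ) : Pn (c • z) = ‖c‖ ^ 2 * Pn z := by
  unfold Pn
  rw [Finset.mul_sum]
  refine Finset.sum_congr rfl fun i _ => ?_
  rw [Pi.smul_apply, smul_eq_mul, norm_mul, mul_pow]

private theorem levT_d1 : deriv (fun x : ℝ => Real.log (1 + x)) = fun x => (1 + x)⁻¹ := by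
  funext x
  rw [deriv_comp_const_add, Real.deriv_log]

private theorem levT_d2 (x : ℝ) :
    deriv (deriv (fun x : ℝ => Real.log (1 + x))) x = -((1 + x) ^ 2)⁻¹ := by
  rw [levT_d1]
  have h := deriv_comp_const_add (fun y : ℝ => y⁻¹) 1 x
  rw [h, deriv_inv]

theorem tt_jet {m : ℕ} (z : Fin (m + 1) → ℂ) : Jet tt z (dt z) (Lt z) := by
  have hp : 0 < 1 + Pn z := by
    have := Pn_nonneg z
    linarith
  have hsm : ContDiffAt ℝ ∞ (fun x : ℝ => Real.log (1 + x)) (Pn z) :=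
    (contDiffAt_const.add contDiffAt_id).log hp.ne'
  have J := Jet.comp (f := Pn) hsm (jet_Pn z)
  refine ⟨J.smooth, fun v => (J.hd v).trans ?_, fun v => (J.hl v).trans ?_⟩
  · rw [levT_d1]
    unfold dt
    push_cast
    rw [div_eq_inv_mul]
  · rw [levT_d2, levT_d1]
    unfold Lt
    rw [div_eq_mul_inv, div_eq_mul_inv]
    ring

theorem Lt_ge {m : ℕ} (z v : Fin (m + 1) → ℂ) : Pn v / (1 + Pn z) ^ 2 ≤ Lt z v := by
  have hp : 0 < 1 + Pn z := by
    have := Pn_nonneg z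
    linarith
  have h := ip_sq_le z v
  unfold Lt
  have e : Pn v / (1 + Pn z) - ‖ip z v‖ ^ 2 / (1 + Pn z) ^ 2 =
      (Pn v * (1 + Pn z) - ‖ip z v‖ ^ 2) / (1 + Pn z) ^ 2 := by
    field_simp
  rw [e]
  gcongr
  linarith

theorem dt_sq_le {m : ℕ} (z v : Fin (m + 1) → ℂ) : ‖dt z v‖ ^ 2 ≤ Pn v / (1 + Pn z) := by
  have hp : 0 < 1 + Pn z := by
    have := Pn_nonneg z
    linarith
  have h := ip_sq_le z v
  have hv := Pn_nonneg v
  unfold dt
  rw [norm_div, div_pow, Complex.norm_real, Real.norm_eq_abs, sq_abs, div_le_div_iff₀ (by positivity) hp]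
  calc ‖ip z v‖ ^ 2 * (1 + Pn z) ≤ Pn z * Pn v * (1 + Pn z) := by gcongr
    _ ≤ Pn v * (1 + Pn z) ^ 2 := by nlinarith [mul_nonneg hv hp.le]

theorem logn_jet {n : ℕ} {z : Fin n → ℂ} (hz : z ≠ 0) :
    Jet (fun x => Real.log (nsq x)) z (dn z) (Ln z) := by
  have hp := nsq_pos hz
  have hsm : ContDiffAt ℝ ∞ Real.log (nsq z) := Real.contDiffAt_log.mpr hp.ne'
  have J := Jet.comp (f := nsq) hsm (jet_nsq z)
  refine ⟨J.smooth, fun v => (J.hd v).trans ?_, fun v => (J.hl v).trans ?_⟩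
  · rw [Real.deriv_log]
    unfold dn
    push_cast
    rw [div_eq_inv_mul]
  · rw [Real.deriv_log, Real.deriv_log', deriv_inv]
    unfold Ln
    rw [div_eq_mul_inv, div_eq_mul_inv]
    ring

theorem Ln_le {n : ℕ} (z v : Fin n → ℂ) : Ln z v ≤ nsq v / nsq z := by
  unfold Ln
  have : 0 ≤ ‖ipn z v‖ ^ 2 / nsq z ^ 2 := by positivity
  linarith

theorem dn_sq_le {n : ℕ} (z v : Fin n → ℂ) : ‖dn z v‖ ^ 2 ≤ nsq v / nsq z := by
  have h := ipn_sq_le z v
  unfold dn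
  rw [norm_div, div_pow, Complex.norm_real, Real.norm_eq_abs, sq_abs]
  rcases (nsq_nonneg z).eq_or_lt with h0 | h0
  · rw [← h0]
    simp
  · rw [div_le_div_iff₀ (by positivity) h0]
    calc ‖ipn z v‖ ^ 2 * nsq z ≤ nsq z * nsq v * nsq z := by gcongr
      _ = nsq v * nsq z ^ 2 := by ring

end Pool.Agent.HMV
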