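import Pool.Agent.HMV.LevT
import Pool.Agent.HMV.Beta

/-!
HMV-Supp. Consequences of `a(z) < -3`: the point is close to the point `(1, 0)` in the scale of its norm.
-/

open Finset

namespace Pool.Agent.HMV

private theorem supp_exp : 20 * Real.exp (-3) ≤ 1 := by
  have h1 : (2.7182818283 : ℝ) < Real.exp 1 := Real.exp_one_gt_d9
  have h2 : Real.exp 3 = Real.exp 1 ^ 3 := by
    rw [← Real.exp_nat_mul]
    norm_num
  have h3 : (20 : ℝ) ≤ Real.exp 3 := by
    rw [h2]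
    have : (2.7182818283 : ℝ) ^ 3 ≤ Real.exp 1 ^ 3 := pow_le_pow_left₀ (by norm_num) h1.le 3
    refine le_trans ?_ this
    norm_num
  rw [Real.exp_neg]
  rw [← div_eq_mul_inv, div_le_one (Real.exp_pos 3)]
  exact h3

private theorem supp_exp_tt {m : ℕ} (z : Fin (m + 1) → ℂ) : Real.exp (tt z) = 1 + Pn z := by
  unfold tt
  rw [Real.exp_log]
  have := Pn_nonneg z
  linarith

theorem aa_supp {m : ℕ} {B T : ℝ} {z : Fin (m + 1) → ℂ} (hz : z ≠ 0) (ha : aa B T z < -3) :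
    2 / 3 ≤ nsq z ∧ 2 / 5 * nsq z ≤ 1 + Pn z ∧ 1 + Pn z ≤ 5 / 2 * nsq z ∧ tt z < T ∧
      ‖z 0 - 1‖ ^ 2 ≤ nsq z / 20 := by
  have hN : 0 < nsq z := nsq_pos hz
  have hE : 0 < EE B T z := Real.exp_pos _
  have hF : 0 < FF B T z := by
    unfold FF
    positivity
  have h1 : FF B T z < nsq z / 20 := by
    unfold aa at ha
    have h2 : Real.log (FF B T z) < Real.log (nsq z * Real.exp (-3)) := by
      rw [Real.log_mul hN.ne' (Real.exp_pos _).ne', Real.log_exp]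
      linarith
    have h3 := (Real.log_lt_log_iff hF (by positivity)).1 h2
    refine h3.trans_le ?_
    have := supp_exp
    nlinarith
  set w := ‖z 0 - 1‖ with hw
  have hw0 : 0 ≤ w := norm_nonneg _
  have hFd : FF B T z = w ^ 2 + EE B T z := rfl
  have hw2 : w ^ 2 ≤ nsq z / 20 := by rw [hFd] at h1; linarith
  have hE2 : EE B T z < nsq z / 20 := by
    rw [hFd] at h1
    nlinarith [sq_nonneg w]
  set r := √(nsq z) with hr
  have hr2 : r ^ 2 = nsq z := Real.sq_sqrt hN.le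
  have hr0 : 0 ≤ r := Real.sqrt_nonneg _
  have hNe : nsq z = ‖z 0‖ ^ 2 + Pn z := nsq_eq z
  have hP : 0 ≤ Pn z := Pn_nonneg z
  have hz0 : ‖z 0‖ ≤ r := by
    apply Real.le_sqrt_of_sq_le
    linarith
  have hwr : w ≤ 2237 / 10000 * r := by
    rw [← hr2] at hw2
    apply le_of_sq_le_sq _ (by positivity)
    nlinarith
  have ht1 : 1 ≤ ‖z 0‖ + w := by
    have h4 : (1 : ℂ) = z 0 - (z 0 - 1) := by ring
    have h5 : ‖(1 : ℂ)‖ ≤ ‖z 0‖ + ‖z 0 - 1‖ := by
      conv_lhs => rw [h4]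
      exact norm_sub_le _ _
    simpa using h5
  have ht2 : ‖z 0‖ ≤ 1 + w := by
    have h4 : z 0 = 1 + (z 0 - 1) := by ring
    calc ‖z 0‖ = ‖1 + (z 0 - 1)‖ := by rw [← h4]
      _ ≤ ‖(1 : ℂ)‖ + ‖z 0 - 1‖ := norm_add_le _ _
      _ = 1 + w := by rw [norm_one]
  have hr1 : 1 ≤ 12237 / 10000 * r := by linarith
  have hA : 2 / 3 ≤ nsq z := by
    rw [← hr2]
    nlinarith
  have hB : 2 / 5 * nsq z ≤ 1 + Pn z := by
    have h6 : ‖z 0‖ ^ 2 ≤ (1 + w) ^ 2 := pow_le_pow_left₀ (norm_nonneg _) ht2 2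
    have h7 : w ≤ 2237 / 10000 * r * (12237 / 10000 * r) := by
      calc w = w * 1 := (mul_one w).symm
        _ ≤ 2237 / 10000 * r * (12237 / 10000 * r) :=
          mul_le_mul hwr hr1 zero_le_one (by positivity)
    have h8 : w ≤ 2237 * 12237 / 100000000 * nsq z := by
      rw [← hr2]
      linarith
    nlinarith
  have hC : 1 + Pn z ≤ 5 / 2 * nsq z := by
    nlinarith [sq_nonneg ‖z 0‖]
  refine ⟨hA, hB, hC, ?_, hw2⟩
  apply lt_of_bb_neg (B := B)
  have h9 : EE B T z = Real.exp (bb B T (tt z)) * (1 + Pn z) := by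
    unfold EE cc
    rw [Real.exp_add, supp_exp_tt]
  have h10 : Real.exp (bb B T (tt z)) < 1 := by
    have h11 : 0 < Real.exp (bb B T (tt z)) := Real.exp_pos _
    have h12 : Real.exp (bb B T (tt z)) * (2 / 5 * nsq z) ≤ Real.exp (bb B T (tt z)) * (1 + Pn z) :=
      mul_le_mul_of_nonneg_left hB h11.le
    rw [← h9] at h12
    by_contra h13
    rw [not_lt] at h13
    nlinarith
  exact Real.exp_lt_one_iff.1 h10

/-- bounds for `nsq z` in terms of `T` -/
theorem aa_supp_nsq {m : ℕ} {B T : ℝ} {z : Fin (m + 1) → ℂ} (hz : z ≠ 0)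
    (ha : aa B T z < -3) : nsq z ≤ 5 / 2 * Real.exp T ∧
      ∀ s, s ≤ tt z → 2 / 5 * Real.exp s ≤ nsq z := by
  obtain ⟨_, h2, h3, h4, _⟩ := aa_supp hz ha
  rw [← supp_exp_tt] at h2 h3
  constructor
  · have h5 : Real.exp (tt z) ≤ Real.exp T := Real.exp_le_exp.2 h4.le
    linarith
  · intro s hs
    have h5 : Real.exp s ≤ Real.exp (tt z) := Real.exp_le_exp.2 hs
    linarith

end Pool.Agent.HMV
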