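import Pool.Agent.HMV.LevA
import Pool.Agent.HMV.Supp
import Pool.Agent.HMV.Hfun

/-!
HMV-Loc. Local lower bound for the Levi form of `G = h(a)`: chain rule for `hh` and the jet of `a`,
elementary estimates on the set `a < -3`.
-/

open scoped ContDiff Topology
open Finset

namespace Pool.Agent.HMV

private theorem GG_jet {m : ℕ} {B : ℝ} (hB : 0 ≤ B) (T : ℝ) {z : Fin (m + 1) → ℂ} (hz : z ≠ 0) :
    Jet (GG B T) z
      (fun v => ((deriv hh (aa B T z) : ℝ) : ℂ) *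
        (((starRingEnd ℂ) (z 0 - 1) * v 0 + ((EE B T z : ℝ) : ℂ) * dc B T z v) /
        ((FF B T z : ℝ) : ℂ) - dn z v))
      (fun v => deriv hh (aa B T z) *
        (PP B T z v + tau B T z * bb2 B T (tt z) * ‖dt z v‖ ^ 2 - Ln z v) +
        deriv (deriv hh) (aa B T z) *
        ‖((starRingEnd ℂ) (z 0 - 1) * v 0 + ((EE B T z : ℝ) : ℂ) * dc B T z v) /
        ((FF B T z : ℝ) : ℂ) - dn z v‖ ^ 2) :=
  Jet.comp (f := aa B T) (h := hh) hh_smooth.contDiffAt (aa_jet hB T hz)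

theorem GG_smooth {m : ℕ} {B : ℝ} (hB : 0 ≤ B) (T : ℝ) {z : Fin (m + 1) → ℂ} (hz : z ≠ 0) :
    ContDiffAt ℝ ∞ (GG B T) z := (GG_jet hB T hz).smooth

theorem GG_far {m : ℕ} {B : ℝ} (hB : 0 ≤ B) (T : ℝ) {z : Fin (m + 1) → ℂ} (hz : z ≠ 0)
    (ha : -3 ≤ aa B T z) (v : Fin (m + 1) → ℂ) : GG B T z = 0 ∧ lev (GG B T) z v = 0 := by
  refine ⟨hh_far ha, ?_⟩
  rw [(GG_jet hB T hz).hl v, (hh_d_far ha).1, (hh_d_far ha).2]
  ring

private theorem sq_add3 (x y w : ℂ) : ‖x + y - w‖ ^ 2 ≤ 3 * (‖x‖ ^ 2 + ‖y‖ ^ 2 + ‖w‖ ^ 2) := by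
  have h1 : ‖x + y - w‖ ≤ ‖x‖ + ‖y‖ + ‖w‖ := by
    calc ‖x + y - w‖ ≤ ‖x + y‖ + ‖w‖ := norm_sub_le _ _
      _ ≤ ‖x‖ + ‖y‖ + ‖w‖ := by linarith [norm_add_le x y]
  have h2 : ‖x + y - w‖ ^ 2 ≤ (‖x‖ + ‖y‖ + ‖w‖) ^ 2 := pow_le_pow_left₀ (norm_nonneg _) h1 2
  nlinarith [sq_nonneg (‖x‖ - ‖y‖), sq_nonneg (‖y‖ - ‖w‖), sq_nonneg (‖x‖ - ‖w‖)]

private theorem Pn_le_nsq {m : ℕ} (v : Fin (m + 1) → ℂ) : Pn v ≤ nsq v := by
  rw [nsq_eq]; nlinarith [sq_nonneg ‖v 0‖]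

private theorem v0_le_nsq {m : ℕ} (v : Fin (m + 1) → ℂ) : ‖v 0‖ ^ 2 ≤ nsq v := by
  rw [nsq_eq]; linarith [Pn_nonneg v]

theorem GG_local (m : ℕ) : ∃ C : ℝ, 1 ≤ C ∧ ∀ B T : ℝ, 1 ≤ B → ∀ z : Fin (m + 1) → ℂ, z ≠ 0 →
    aa B T z < -3 → ∀ v : Fin (m + 1) → ℂ,
      nsq z * (deriv hh (aa B T z) * PP B T z v) - C * neg B T z * nsq v ≤
        nsq z * lev (GG B T) z v := by
  obtain ⟨C₀, hC₀, hCb⟩ := hh_bound
  set e4 : ℝ := Real.exp 4 with he4
  have e4pos : 0 < e4 := Real.exp_pos _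
  have e41 : 1 ≤ e4 := Real.one_le_exp (by norm_num)
  set C₁ : ℝ := 3 * (e4 + 6 + 63 * e4 ^ 2) with hC₁
  have hC₁pos : 0 ≤ C₁ := by positivity
  refine ⟨C₀ * (5 + C₁), ?_, ?_⟩
  · nlinarith
  intro B T hB z hz ha v
  have hB0 : 0 ≤ B := by linarith
  have hB0' : 0 < B := by linarith
  obtain ⟨hN23, hP1, hP2, htT, hw⟩ := aa_supp hz ha
  have hN : 0 < nsq z := nsq_pos hz
  have hE := EE_pos B T z
  have hF := FF_pos B T z
  have hP := Pn_nonneg z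
  have hv := nsq_nonneg v
  have hPv := Pn_nonneg v
  have hPvn := Pn_le_nsq v
  have hv0 := v0_le_nsq v
  have hEF : EE B T z ≤ FF B T z := by
    unfold FF; nlinarith [sq_nonneg ‖z 0 - 1‖]
  have hτ0 : 0 ≤ tau B T z := div_nonneg hE.le hF.le
  have hτ1 : tau B T z ≤ 1 := by
    unfold tau; rw [div_le_one hF]; exact hEF
  have hb1 : 0 < bb1 B T (tt z) := bb1_pos hB0' T (tt z)
  have hb2 := bb2_ge hB0 T (tt z)
  have hdt := dt_sq_le z v
  have hLn := Ln_le z v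
  have hdn := dn_sq_le z v
  have h1P : 0 < 1 + Pn z := by linarith
  rw [(GG_jet hB0 T hz).hl v]
  set h' := deriv hh (aa B T z) with hh'
  set h'' := deriv (deriv hh) (aa B T z) with hh''
  have hh'0 : 0 ≤ h' := hh_d_nonneg _
  have hh'1 : h' ≤ C₀ := (hCb _).1
  have hh''1 : |h''| ≤ C₀ := (hCb _).2
  set τ := tau B T z with hτ
  set b1 := bb1 B T (tt z) with hb1def
  set b2 := bb2 B T (tt z) with hb2def
  set N := nsq z with hNdef
  set n := nsq v with hndef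
  set ex := Real.exp (-(B * (T - tt z) ^ 2)) with hexdef
  have hex : 0 ≤ ex := Real.exp_nonneg _
  -- `N ‖dt‖² ≤ (5/2) n`
  have hdtN : N * ‖dt z v‖ ^ 2 ≤ 5 / 2 * n := by
    have h1 : N * ‖dt z v‖ ^ 2 ≤ N * (Pn v / (1 + Pn z)) := mul_le_mul_of_nonneg_left hdt hN.le
    have h2 : N * (Pn v / (1 + Pn z)) ≤ 5 / 2 * Pn v := by
      rw [← mul_div_assoc, div_le_iff₀ h1P]
      nlinarith
    linarith
  have hdt0 : 0 ≤ ‖dt z v‖ ^ 2 := sq_nonneg _
  -- part 1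
  have part1 : -((1 + 5 * B * τ) * n) ≤ N * (τ * b2 * ‖dt z v‖ ^ 2 - Ln z v) := by
    have h1 : N * Ln z v ≤ n := by
      have := mul_le_mul_of_nonneg_left hLn hN.le
      rwa [mul_div_cancel₀ _ hN.ne'] at this
    have h2 : -(2 * B) * (τ * (N * ‖dt z v‖ ^ 2)) ≤ b2 * (τ * (N * ‖dt z v‖ ^ 2)) :=
      mul_le_mul_of_nonneg_right hb2 (mul_nonneg hτ0 (mul_nonneg hN.le hdt0))
    have h3 : τ * (N * ‖dt z v‖ ^ 2) ≤ τ * (5 / 2 * n) := mul_le_mul_of_nonneg_left hdtN hτ0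
    have h4 : 2 * B * (τ * (N * ‖dt z v‖ ^ 2)) ≤ 2 * B * (τ * (5 / 2 * n)) :=
      mul_le_mul_of_nonneg_left h3 (by linarith)
    have h5 : N * (τ * b2 * ‖dt z v‖ ^ 2 - Ln z v) =
        b2 * (τ * (N * ‖dt z v‖ ^ 2)) - N * Ln z v := by ring
    rw [h5]
    linarith
  have hX0 : 0 ≤ (1 + 5 * B * τ) * n := by positivity
  have part1' : -(C₀ * ((1 + 5 * B * τ) * n)) ≤
      h' * (N * (τ * b2 * ‖dt z v‖ ^ 2 - Ln z v)) := by
    have h1 := mul_le_mul_of_nonneg_left part1 hh'0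
    have h2 := mul_le_mul_of_nonneg_right hh'1 hX0
    linarith
  -- part 2
  set d : ℂ := ((starRingEnd ℂ) (z 0 - 1) * v 0 + ((EE B T z : ℝ) : ℂ) * dc B T z v) /
        ((FF B T z : ℝ) : ℂ) - dn z v with hd
  have part2 : -(C₀ * (C₁ * (1 + B * ex) * n)) ≤ N * (h'' * ‖d‖ ^ 2) := by
    by_cases ha4 : aa B T z < -4
    · have h0 : h'' = 0 := (hh_near ha4).2
      rw [h0]
      have : 0 ≤ C₀ * (C₁ * (1 + B * ex) * n) := by positivity
      linarith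
    · push Not at ha4
      -- `N ≤ e4 F`
      have hNF : N ≤ e4 * FF B T z := by
        have h1 : Real.log N ≤ 4 + Real.log (FF B T z) := by
          unfold aa at ha4; linarith
        have h2 : Real.log (e4 * FF B T z) = 4 + Real.log (FF B T z) := by
          rw [Real.log_mul e4pos.ne' hF.ne', he4, Real.log_exp]
        rw [← h2] at h1
        exact (Real.log_le_log_iff hN (by positivity)).1 h1
      set F := FF B T z with hFdef
      have hd3 : d = (starRingEnd ℂ) (z 0 - 1) * v 0 / (F : ℂ) +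
          ((EE B T z : ℝ) : ℂ) * dc B T z v / (F : ℂ) - dn z v := by
        rw [hd, add_div]
      have hsum : ‖d‖ ^ 2 ≤ 3 * (‖(starRingEnd ℂ) (z 0 - 1) * v 0 / (F : ℂ)‖ ^ 2 +
          ‖((EE B T z : ℝ) : ℂ) * dc B T z v / (F : ℂ)‖ ^ 2 + ‖dn z v‖ ^ 2) := by
        rw [hd3]; exact sq_add3 _ _ _
      -- first term
      have t1 : N * ‖(starRingEnd ℂ) (z 0 - 1) * v 0 / (F : ℂ)‖ ^ 2 ≤ e4 * n := by
        have e1 : ‖(starRingEnd ℂ) (z 0 - 1) * v 0 / (F : ℂ)‖ ^ 2 =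
            ‖z 0 - 1‖ ^ 2 * ‖v 0‖ ^ 2 / F ^ 2 := by
          rw [norm_div, norm_mul, RCLike.norm_conj, Complex.norm_real, Real.norm_of_nonneg hF.le,
            div_pow, mul_pow]
        have e2 : ‖z 0 - 1‖ ^ 2 ≤ F := by rw [hFdef]; unfold FF; linarith
        rw [e1, ← mul_div_assoc, div_le_iff₀ (by positivity)]
        have e3 : N * (‖z 0 - 1‖ ^ 2 * ‖v 0‖ ^ 2) ≤ (e4 * F) * (F * n) := by
          apply mul_le_mul hNF _ (by positivity) (by positivity)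
          exact mul_le_mul e2 hv0 (sq_nonneg _) hF.le
        calc N * (‖z 0 - 1‖ ^ 2 * ‖v 0‖ ^ 2) ≤ (e4 * F) * (F * n) := e3
          _ = e4 * n * F ^ 2 := by ring
      -- second term
      have hEP : EE B T z = Real.exp (bb B T (tt z)) * (1 + Pn z) := by
        unfold EE cc
        rw [Real.exp_add]
        congr 1
        unfold tt
        rw [Real.exp_log h1P]
      have hτb : τ * b1 ≤ 5 / 2 * e4 * (Real.exp (bb B T (tt z)) * b1) := by
        rw [hτ]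
        unfold tau
        rw [← hFdef, div_mul_eq_mul_div, div_le_iff₀ hF, hEP]
        have q0 : 0 < Real.exp (bb B T (tt z)) := Real.exp_pos _
        have q1 : (1 + Pn z) ≤ 5 / 2 * (e4 * F) := by linarith
        have q2 : 0 ≤ Real.exp (bb B T (tt z)) * b1 := by positivity
        have q3 := mul_le_mul_of_nonneg_left q1 q2
        calc Real.exp (bb B T (tt z)) * (1 + Pn z) * b1 =
            Real.exp (bb B T (tt z)) * b1 * (1 + Pn z) := by ring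
          _ ≤ Real.exp (bb B T (tt z)) * b1 * (5 / 2 * (e4 * F)) := q3
          _ = 5 / 2 * e4 * (Real.exp (bb B T (tt z)) * b1) * F := by ring
      have hτb0 : 0 ≤ τ * b1 := mul_nonneg hτ0 hb1.le
      have hτb2 : (τ * b1) ^ 2 ≤ 25 / 2 * e4 ^ 2 * (B * ex) := by
        have q1 := pow_le_pow_left₀ hτb0 hτb 2
        have q2 := bb1_exp hB0 htT.le
        have q3 : (5 / 2 * e4 * (Real.exp (bb B T (tt z)) * b1)) ^ 2 =
            25 / 4 * e4 ^ 2 * (Real.exp (bb B T (tt z)) * b1) ^ 2 := by ring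
        rw [q3] at q1
        have q4 := mul_le_mul_of_nonneg_left q2 (show (0 : ℝ) ≤ 25 / 4 * e4 ^ 2 by positivity)
        calc (τ * b1) ^ 2 ≤ 25 / 4 * e4 ^ 2 * (Real.exp (bb B T (tt z)) * b1) ^ 2 := q1
          _ ≤ 25 / 4 * e4 ^ 2 * (2 * B * ex) := q4
          _ = 25 / 2 * e4 ^ 2 * (B * ex) := by ring
      have t2 : N * ‖((EE B T z : ℝ) : ℂ) * dc B T z v / (F : ℂ)‖ ^ 2 ≤
          (5 + 125 / 2 * e4 ^ 2 * (B * ex)) * n := by
        have e1 : ‖((EE B T z : ℝ) : ℂ) * dc B T z v / (F : ℂ)‖ = τ * (1 + b1) * ‖dt z v‖ := by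
          unfold dc
          rw [norm_div, norm_mul, norm_mul, Complex.norm_real, Complex.norm_real,
            Complex.norm_real, Real.norm_of_nonneg hF.le, Real.norm_of_nonneg hE.le,
            Real.norm_of_nonneg (by positivity), hτ]
          unfold tau
          rw [← hFdef]
          ring
        have e2 : τ * (1 + b1) ≤ 1 + τ * b1 := by nlinarith
        have e3 : 0 ≤ τ * (1 + b1) := by positivity
        have e4' : (τ * (1 + b1)) ^ 2 ≤ 2 + 2 * (τ * b1) ^ 2 := by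
          have := pow_le_pow_left₀ e3 e2 2
          nlinarith [sq_nonneg (1 - τ * b1)]
        rw [e1, mul_pow]
        have e5 : (τ * (1 + b1)) ^ 2 ≤ 2 + 25 * e4 ^ 2 * (B * ex) := by linarith
        calc N * ((τ * (1 + b1)) ^ 2 * ‖dt z v‖ ^ 2) =
            (τ * (1 + b1)) ^ 2 * (N * ‖dt z v‖ ^ 2) := by ring
          _ ≤ (2 + 25 * e4 ^ 2 * (B * ex)) * (5 / 2 * n) :=
            mul_le_mul e5 hdtN (mul_nonneg hN.le hdt0) (by positivity)
          _ = (5 + 125 / 2 * e4 ^ 2 * (B * ex)) * n := by ring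
      have t3 : N * ‖dn z v‖ ^ 2 ≤ n := by
        have := mul_le_mul_of_nonneg_left hdn hN.le
        rwa [mul_div_cancel₀ _ hN.ne'] at this
      have hNd : N * ‖d‖ ^ 2 ≤ C₁ * (1 + B * ex) * n := by
        have q1 := mul_le_mul_of_nonneg_left hsum hN.le
        have q2 : N * ‖d‖ ^ 2 ≤ 3 * (e4 * n + (5 + 125 / 2 * e4 ^ 2 * (B * ex)) * n + n) := by
          linarith
        have hBx : 0 ≤ B * ex := by positivity
        have q3 : 3 * (e4 * n + (5 + 125 / 2 * e4 ^ 2 * (B * ex)) * n + n) =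
            (3 * (e4 + 6 + 125 / 2 * e4 ^ 2 * (B * ex))) * n := by ring
        have q4 : 3 * (e4 + 6 + 125 / 2 * e4 ^ 2 * (B * ex)) ≤ C₁ * (1 + B * ex) := by
          rw [hC₁]
          have q5 : 0 ≤ e4 * (B * ex) := by positivity
          have q6 : 0 ≤ e4 ^ 2 * (B * ex) := by positivity
          nlinarith [sq_nonneg e4]
        calc N * ‖d‖ ^ 2 ≤ _ := q2
          _ = (3 * (e4 + 6 + 125 / 2 * e4 ^ 2 * (B * ex))) * n := q3
          _ ≤ C₁ * (1 + B * ex) * n := mul_le_mul_of_nonneg_right q4 hv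
      have hNd0 : 0 ≤ N * ‖d‖ ^ 2 := by positivity
      have q7 : -C₀ ≤ h'' := (abs_le.1 hh''1).1
      have q8 : -C₀ * (N * ‖d‖ ^ 2) ≤ h'' * (N * ‖d‖ ^ 2) := mul_le_mul_of_nonneg_right q7 hNd0
      have q9 : C₀ * (N * ‖d‖ ^ 2) ≤ C₀ * (C₁ * (1 + B * ex) * n) :=
        mul_le_mul_of_nonneg_left hNd (by linarith)
      calc -(C₀ * (C₁ * (1 + B * ex) * n)) ≤ -C₀ * (N * ‖d‖ ^ 2) := by linarith
        _ ≤ h'' * (N * ‖d‖ ^ 2) := q8
        _ = N * (h'' * ‖d‖ ^ 2) := by ring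
  -- conclusion
  have hneg : C₀ * ((1 + 5 * B * τ) * n) + C₀ * (C₁ * (1 + B * ex) * n) ≤
      C₀ * (5 + C₁) * neg B T z * n := by
    have e1 : neg B T z = 1 + B * τ + B * ex := rfl
    rw [e1]
    have q1 : (1 + 5 * B * τ) + C₁ * (1 + B * ex) ≤ (5 + C₁) * (1 + B * τ + B * ex) := by
      have q2 : 0 ≤ B * τ := by positivity
      have q3 : 0 ≤ B * ex := by positivity
      have q4 : 0 ≤ C₁ * (B * τ) := by positivity
      nlinarith
    have q5 : 0 ≤ C₀ * n := by positivity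
    have q6 := mul_le_mul_of_nonneg_left q1 q5
    calc C₀ * ((1 + 5 * B * τ) * n) + C₀ * (C₁ * (1 + B * ex) * n) =
        C₀ * n * ((1 + 5 * B * τ) + C₁ * (1 + B * ex)) := by ring
      _ ≤ C₀ * n * ((5 + C₁) * (1 + B * τ + B * ex)) := q6
      _ = C₀ * (5 + C₁) * (1 + B * τ + B * ex) * n := by ring
  have hfin : N * (h' * (PP B T z v + τ * b2 * ‖dt z v‖ ^ 2 - Ln z v) + h'' * ‖d‖ ^ 2) =
      N * (h' * PP B T z v) + h' * (N * (τ * b2 * ‖dt z v‖ ^ 2 - Ln z v)) +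
        N * (h'' * ‖d‖ ^ 2) := by ring
  rw [hfin]
  linarith

theorem PP_nonneg {m : ℕ} {B : ℝ} (hB : 0 < B) (T : ℝ) (z v : Fin (m + 1) → ℂ) :
    0 ≤ PP B T z v := by
  have hE := EE_pos B T z
  have hF := FF_pos B T z
  have hb1 : 0 < bb1 B T (tt z) := bb1_pos hB T (tt z)
  have hLt : 0 ≤ Lt z v := by
    refine le_trans ?_ (Lt_ge z v)
    exact div_nonneg (Pn_nonneg v) (sq_nonneg _)
  have hτ0 : 0 ≤ tau B T z := div_nonneg hE.le hF.le
  unfold PP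
  positivity

end Pool.Agent.HMV
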