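import Pool.Agent.HMV.LevT

/-!
HMV-Met. Every Hermitian metric of the Hopf manifold dominates a multiple of `|z|^{-2} I`;
integrability on the fundamental domain.

The metric has a positive minimum on the unit sphere bundle over the compact set
`1 ≤ |z|² ≤ |q|²`, and `|z|²` times the metric is invariant under `z ↦ q z`.
-/

open scoped Matrix ComplexOrder Topology
open Finset MeasureTheory

namespace Pool.Agent.HMV

private theorem Met_cont (n : ℕ) : Continuous (nsq : (Fin n → ℂ) → ℝ) := by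
  unfold nsq
  fun_prop

private theorem Met_nsq_smul {n : ℕ} (c : ℂ) (z : Fin n → ℂ) : nsq (c • z) = ‖c‖ ^ 2 * nsq z := by
  unfold nsq
  rw [Finset.mul_sum]
  refine Finset.sum_congr rfl fun i _ => ?_
  rw [Pi.smul_apply, smul_eq_mul, norm_mul, mul_pow]

private theorem Met_nsq_nonneg {n : ℕ} (z : Fin n → ℂ) : 0 ≤ nsq z :=
  Finset.sum_nonneg fun _ _ => sq_nonneg _

private theorem Met_nsq_pos {n : ℕ} {z : Fin n → ℂ} (hz : z ≠ 0) : 0 < nsq z := by
  obtain ⟨i, hi⟩ : ∃ i, z i ≠ 0 := by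
    by_contra h
    push Not at h
    exact hz (funext h)
  have h1 : 0 < ‖z i‖ ^ 2 := pow_pos (norm_pos_iff.2 hi) 2
  exact lt_of_lt_of_le h1
    (Finset.single_le_sum (f := fun i => ‖z i‖ ^ 2) (fun _ _ => sq_nonneg _) (Finset.mem_univ i))

private theorem Met_nsq_zero {n : ℕ} : nsq (0 : Fin n → ℂ) = 0 := by
  unfold nsq
  simp

private theorem Met_compact (n : ℕ) (a r : ℝ) :
    IsCompact {z : Fin n → ℂ | a ≤ nsq z ∧ nsq z ≤ r} := by
  refine Metric.isCompact_of_isClosed_isBounded ?_ ?_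
  · exact (isClosed_le continuous_const (Met_cont n)).inter
      (isClosed_le (Met_cont n) continuous_const)
  · refine (Metric.isBounded_closedBall (x := (0 : Fin n → ℂ)) (r := √r)).subset fun z hz => ?_
    rw [mem_closedBall_zero_iff, pi_norm_le_iff_of_nonneg (Real.sqrt_nonneg r)]
    intro i
    refine Real.le_sqrt_of_sq_le (le_trans ?_ hz.2)
    exact Finset.single_le_sum (f := fun i => ‖z i‖ ^ 2) (fun _ _ => sq_nonneg _)
      (Finset.mem_univ i)

private theorem Met_hom {n : ℕ} (B : Matrix (Fin n) (Fin n) ℂ) (r : ℝ) (v : Fin n → ℂ) :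
    (star ((r : ℂ) • v) ⬝ᵥ (B *ᵥ ((r : ℂ) • v))).re = r ^ 2 * (star v ⬝ᵥ (B *ᵥ v)).re := by
  rw [Matrix.mulVec_smul, star_smul, smul_dotProduct, dotProduct_smul, smul_eq_mul, smul_eq_mul,
    ← mul_assoc]
  have h1 : star (r : ℂ) * (r : ℂ) = ((r ^ 2 : ℝ) : ℂ) := by
    have h2 : star (r : ℂ) = (r : ℂ) := Complex.conj_ofReal r
    rw [h2]
    push_cast
    ring
  rw [h1, Complex.re_ofReal_mul]

theorem metric_ge {n : ℕ} {q : ℂ} (hq : 1 < ‖q‖)
    {A : (Fin n → ℂ) → Matrix (Fin n) (Fin n) ℂ} (hA : IsHermMetric q A) :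
    ∃ ε : ℝ, 0 < ε ∧ ∀ z, z ≠ 0 → ∀ v : Fin n → ℂ,
      ε * (nsq v / nsq z) ≤ (star v ⬝ᵥ (A z *ᵥ v)).re := by
  have hq0 : q ≠ 0 := by
    rintro rfl
    rw [norm_zero] at hq
    linarith
  -- the minimum on the compact set
  obtain ⟨ε, hε, hmin⟩ : ∃ ε : ℝ, 0 < ε ∧ ∀ z : Fin n → ℂ, 1 ≤ nsq z → nsq z ≤ ‖q‖ ^ 2 →
      ∀ v : Fin n → ℂ, nsq v = 1 → ε ≤ (star v ⬝ᵥ (A z *ᵥ v)).re := by
    obtain ⟨K, hK⟩ : ∃ K : Set ((Fin n → ℂ) × (Fin n → ℂ)),
        K = {z | 1 ≤ nsq z ∧ nsq z ≤ ‖q‖ ^ 2} ×ˢ {v | 1 ≤ nsq v ∧ nsq v ≤ 1} := ⟨_, rfl⟩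
    have hKc : IsCompact K := by
      rw [hK]
      exact (Met_compact n 1 _).prod (Met_compact n 1 1)
    by_cases hne : K.Nonempty
    · have hcont : ContinuousOn (fun x : (Fin n → ℂ) × (Fin n → ℂ) =>
          (star x.2 ⬝ᵥ (A x.1 *ᵥ x.2)).re) K := by
        have h1 : ContinuousOn (fun x : (Fin n → ℂ) × (Fin n → ℂ) => A x.1) K := by
          refine hA.cont.comp continuousOn_fst fun x hx => ?_
          rw [hK] at hx
          rw [Set.mem_compl_singleton_iff]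
          intro h2
          have h3 := hx.1.1
          rw [h2, Met_nsq_zero] at h3
          linarith
        refine Complex.continuous_re.comp_continuousOn ?_
        have h2 : (fun x : (Fin n → ℂ) × (Fin n → ℂ) => star x.2 ⬝ᵥ (A x.1 *ᵥ x.2)) =
            fun x => ∑ i, star (x.2 i) * ∑ j, A x.1 i j * x.2 j := rfl
        rw [h2]
        refine continuousOn_finsetSum _ fun i _ => ContinuousOn.mul ?_
          (continuousOn_finsetSum _ fun j _ => ContinuousOn.mul ?_ ?_)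
        · fun_prop
        · exact (continuous_apply_apply i j).comp_continuousOn h1
        · fun_prop
      obtain ⟨x, hxK, hx⟩ := hKc.exists_isMinOn hne hcont
      have hxK' := hxK
      rw [hK] at hxK'
      refine ⟨_, ?_, fun z hz1 hz2 v hv => hx (a := (z, v)) ?_⟩
      · have hz0 : x.1 ≠ 0 := by
          intro h2
          have h3 := hxK'.1.1
          rw [h2, Met_nsq_zero] at h3
          linarith
        have hv0 : x.2 ≠ 0 := by
          intro h2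
          have h3 := hxK'.2.1
          rw [h2, Met_nsq_zero] at h3
          linarith
        exact (hA.pos x.1 hz0).re_dotProduct_pos hv0
      · rw [hK]
        exact ⟨⟨hz1, hz2⟩, hv.ge, hv.le⟩
    · refine ⟨1, one_pos, fun z hz1 hz2 v hv => absurd ⟨(z, v), ?_⟩ hne⟩
      rw [hK]
      exact ⟨⟨hz1, hz2⟩, hv.ge, hv.le⟩
  -- all vectors
  have hall : ∀ z : Fin n → ℂ, 1 ≤ nsq z → nsq z ≤ ‖q‖ ^ 2 →
      ∀ v : Fin n → ℂ, ε * nsq v ≤ (star v ⬝ᵥ (A z *ᵥ v)).re := by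
    intro z hz1 hz2 v
    by_cases hv : v = 0
    · rw [hv, Met_nsq_zero, Matrix.mulVec_zero, dotProduct_zero, Complex.zero_re, mul_zero]
    · have h1 := Met_nsq_pos hv
      have h2 : 0 < √(nsq v) := Real.sqrt_pos.2 h1
      have h3 : v = ((√(nsq v) : ℝ) : ℂ) • ((((√(nsq v))⁻¹ : ℝ) : ℂ) • v) := by
        rw [smul_smul, ← Complex.ofReal_mul, mul_inv_cancel₀ h2.ne', Complex.ofReal_one, one_smul]
      have h4 : nsq ((((√(nsq v))⁻¹ : ℝ) : ℂ) • v) = 1 := by
        rw [Met_nsq_smul, Complex.norm_real, Real.norm_eq_abs, sq_abs, inv_pow, Real.sq_sqrt h1.le,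
          inv_mul_cancel₀ h1.ne']
      have h5 := hmin z hz1 hz2 _ h4
      have h6 : (star v ⬝ᵥ (A z *ᵥ v)).re = nsq v *
          (star ((((√(nsq v))⁻¹ : ℝ) : ℂ) • v) ⬝ᵥ
            (A z *ᵥ ((((√(nsq v))⁻¹ : ℝ) : ℂ) • v))).re := by
        conv_lhs => rw [h3]
        rw [Met_hom, Real.sq_sqrt h1.le]
      rw [h6, mul_comm]
      exact mul_le_mul_of_nonneg_left h5 h1.le
  refine ⟨ε, hε, fun z hz v => ?_⟩
  have hP1 : ∀ w : Fin n → ℂ, w ≠ 0 → nsq (q • w) * (star v ⬝ᵥ (A (q • w) *ᵥ v)).re =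
      nsq w * (star v ⬝ᵥ (A w *ᵥ v)).re := by
    intro w hw
    conv_rhs => rw [← hA.inv w hw]
    rw [Met_nsq_smul, Matrix.smul_mulVec, dotProduct_smul, smul_eq_mul, Complex.re_ofReal_mul]
    ring
  have hPk : ∀ k : ℤ, nsq (q ^ k • z) * (star v ⬝ᵥ (A (q ^ k • z) *ᵥ v)).re =
      nsq z * (star v ⬝ᵥ (A z *ᵥ v)).re := by
    intro k
    induction k using Int.induction_on with
    | zero => rw [zpow_zero, one_smul]
    | succ k ih =>
      rw [← ih, ← hP1 (q ^ (k : ℤ) • z) (smul_ne_zero (zpow_ne_zero _ hq0) hz), smul_smul,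
        ← zpow_one_add₀ hq0, add_comm (1 : ℤ)]
    | pred k ih =>
      rw [← ih, ← hP1 _ (smul_ne_zero (zpow_ne_zero _ hq0) hz), smul_smul, ← zpow_one_add₀ hq0]
      have h1 : (1 : ℤ) + (-(k : ℤ) - 1) = -k := by ring
      rw [h1]
  have hz' := Met_nsq_pos hz
  have hq2 : 1 < ‖q‖ ^ 2 := by nlinarith
  obtain ⟨k, hk1, hk2⟩ := exists_mem_Ico_zpow hz' hq2
  have hk3 : nsq (q ^ (-k) • z) = nsq z / (‖q‖ ^ 2) ^ k := by
    rw [Met_nsq_smul, norm_zpow, ← zpow_natCast, ← zpow_mul, mul_comm (-k), zpow_mul, zpow_neg,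
      zpow_natCast, div_eq_inv_mul]
  have hy : 0 < (‖q‖ ^ 2) ^ k := zpow_pos (by positivity) k
  have h1 : 1 ≤ nsq (q ^ (-k) • z) := by
    rw [hk3, one_le_div hy]
    exact hk1
  have h2 : nsq (q ^ (-k) • z) ≤ ‖q‖ ^ 2 := by
    rw [hk3, div_le_iff₀ hy]
    rw [zpow_add_one₀ (by positivity)] at hk2
    linarith
  have h3 := hall _ h1 h2 v
  have h4 := hPk (-k)
  rw [← mul_div_assoc, div_le_iff₀ hz', mul_comm _ (nsq z), ← h4]
  have h5 : 0 ≤ ε * nsq v := mul_nonneg hε.le (Met_nsq_nonneg v)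
  nlinarith

theorem fund_measurable (n : ℕ) (q : ℂ) : MeasurableSet (fund n q) :=
  (isClosed_le continuous_const (Met_cont n)).measurableSet.inter
    (isOpen_lt (Met_cont n) continuous_const).measurableSet

theorem integrable_fund {n : ℕ} (q : ℂ) {f : (Fin n → ℂ) → ℝ} (hf : ContinuousOn f {0}ᶜ) :
    IntegrableOn f (fund n q) := by
  have h1 : ContinuousOn f {z : Fin n → ℂ | 1 ≤ nsq z ∧ nsq z ≤ ‖q‖ ^ 2} := by
    refine hf.mono fun z hz => ?_
    rw [Set.mem_compl_singleton_iff]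
    intro h2
    have h3 := hz.1
    rw [h2, Met_nsq_zero] at h3
    linarith
  exact (h1.integrableOn_compact (Met_compact n 1 _)).mono_set fun z hz => ⟨hz.1, hz.2.le⟩

end Pool.Agent.HMV
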