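import Pool.Agent.HMV.Supp
import Pool.Agent.HMV.Cnt

/-!
HMV-SumB. The sum of the negative parts over all sheets is `O(T)` when `B = 2T`.
-/

open Finset

namespace Pool.Agent.HMV

theorem nsq_yy {m : ℕ} {q : ℂ} (hq : 1 < ‖q‖) (k : ℤ) (z : Fin (m + 1) → ℂ) :
    nsq (yy q k z) = ‖q‖ ^ (-(2 * k)) * nsq z := by
  have h : nsq (yy q k z) = ‖q ^ (-k)‖ ^ 2 * nsq z := nsq_smul _ z
  rw [h, norm_zpow, ← zpow_natCast, ← zpow_mul]
  congr 2
  push_cast
  ring

theorem yy_ne {m : ℕ} {q : ℂ} (hq : 1 < ‖q‖) (k : ℤ) {z : Fin (m + 1) → ℂ} (hz : z ≠ 0) :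
    yy q k z ≠ 0 := by
  have h0 : q ≠ 0 := by
    intro h
    rw [h, norm_zero] at hq
    exact absurd hq (by norm_num)
  exact smul_ne_zero (zpow_ne_zero _ h0) hz

private theorem log_small {x : ℝ} (hx0 : 0 < x) (hx : x ≤ 25 / 4) : Real.log x ≤ 2 := by
  rw [← Real.log_exp 2]
  apply Real.log_le_log hx0
  have h1 : (5 / 2 : ℝ) ≤ Real.exp 1 := by
    have := Real.exp_one_gt_d9
    linarith
  have h2 : Real.exp 2 = Real.exp 1 * Real.exp 1 := by
    rw [← Real.exp_add]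
    norm_num
  rw [h2]
  nlinarith

private theorem log_nsq {m : ℕ} {q : ℂ} (hq : 1 < ‖q‖) (k : ℤ) {z : Fin (m + 1) → ℂ}
    (hz : z ≠ 0) :
    Real.log (nsq (yy q k z)) = Real.log (nsq z) - k * (2 * Real.log ‖q‖) := by
  have h0 : 0 < ‖q‖ := by linarith
  rw [nsq_yy hq, Real.log_mul (zpow_pos h0 _).ne' (nsq_pos hz).ne', Real.log_zpow]
  push_cast
  ring

private theorem EE_pos {m : ℕ} (B T : ℝ) (z : Fin (m + 1) → ℂ) : 0 < EE B T z :=
  Real.exp_pos _

private theorem tau_bds {m : ℕ} (B T : ℝ) (z : Fin (m + 1) → ℂ) :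
    0 ≤ tau B T z ∧ tau B T z ≤ 1 := by
  have h1 := EE_pos B T z
  have h2 : EE B T z ≤ FF B T z := by
    have : 0 ≤ ‖z 0 - 1‖ ^ 2 := by positivity
    unfold FF
    linarith
  have h3 : 0 < FF B T z := h1.trans_le h2
  exact ⟨div_nonneg h1.le h3.le, (div_le_one h3).2 h2⟩

/-- bound of one term -/
private theorem one_term {m : ℕ} {T δ : ℝ} (hT : 1 ≤ T) (hδ : 0 < δ) {y : Fin (m + 1) → ℂ}
    (ht : tt y < T) :
    neg (2 * T) T y ≤ 1 + 2 * T * ((if T - 1 ≤ tt y then (1 : ℝ) else 0) +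
        (if ‖y 0 - 1‖ < δ then (1 : ℝ) else 0) + Real.exp (-T) / δ ^ 2) +
      2 * T * ((if T - 1 ≤ tt y then (1 : ℝ) else 0) + Real.exp (-T)) := by
  have hB : 0 ≤ 2 * T := by linarith
  obtain ⟨h1, h2⟩ := tau_bds (2 * T) T y
  have he : 0 < Real.exp (-T) := Real.exp_pos _
  have hd : 0 < Real.exp (-T) / δ ^ 2 := by positivity
  have h3 : Real.exp (-(2 * T * (T - tt y) ^ 2)) ≤ 1 := by
    rw [Real.exp_le_one_iff]
    have : 0 ≤ 2 * T * (T - tt y) ^ 2 := by positivity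
    linarith
  have h4 : Real.exp (-(2 * T * (T - tt y) ^ 2)) ≤
      (if T - 1 ≤ tt y then (1 : ℝ) else 0) + Real.exp (-T) := by
    split_ifs with hc
    · linarith
    · rw [zero_add]
      apply Real.exp_le_exp.2
      rw [not_le] at hc
      have : 1 ≤ (T - tt y) ^ 2 := by nlinarith
      nlinarith
  have h5 : tau (2 * T) T y ≤ (if T - 1 ≤ tt y then (1 : ℝ) else 0) +
      (if ‖y 0 - 1‖ < δ then (1 : ℝ) else 0) + Real.exp (-T) / δ ^ 2 := by
    by_cases hc : T - 1 ≤ tt y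
    · rw [if_pos hc]
      have : (0 : ℝ) ≤ (if ‖y 0 - 1‖ < δ then (1 : ℝ) else 0) := by split_ifs <;> norm_num
      linarith
    · by_cases hc' : ‖y 0 - 1‖ < δ
      · rw [if_neg hc, if_pos hc']
        linarith
      · rw [if_neg hc, if_neg hc', zero_add, zero_add]
        rw [not_le] at hc
        rw [not_lt] at hc'
        have h6 : EE (2 * T) T y ≤ Real.exp (-T) := by
          apply Real.exp_le_exp.2
          have h7 := bb_le hB ht.le
          have : 1 ≤ (T - tt y) ^ 2 := by nlinarith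
          unfold cc
          nlinarith
        have h8 : δ ^ 2 ≤ FF (2 * T) T y := by
          have h9 := EE_pos (2 * T) T y
          have h10 : δ ^ 2 ≤ ‖y 0 - 1‖ ^ 2 := pow_le_pow_left₀ hδ.le hc' 2
          unfold FF
          linarith
        exact div_le_div₀ he.le h6 (by positivity) h8
  unfold neg
  have h6 := mul_le_mul_of_nonneg_left h4 hB
  have h7 := mul_le_mul_of_nonneg_left h5 hB
  linarith

theorem sum_neg_le (m : ℕ) {q : ℂ} (hq : 1 < ‖q‖) : ∃ C : ℝ, 0 < C ∧ ∀ T : ℝ, 1 ≤ T →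
    ∀ z : Fin (m + 1) → ℂ, z ≠ 0 → ∀ S : Finset ℤ,
      (∀ k ∈ S, aa (2 * T) T (yy q k z) < -3) → ∑ k ∈ S, neg (2 * T) T (yy q k z) ≤ C * T := by
  classical
  have hQ0 : 0 < ‖q‖ := by linarith
  obtain ⟨L, hL⟩ : ∃ L, L = 2 * Real.log ‖q‖ := ⟨_, rfl⟩
  have hL0 : 0 < L := by
    rw [hL]
    exact mul_pos two_pos (Real.log_pos hq)
  obtain ⟨δ, hδ⟩ : ∃ δ, δ = (‖q‖ - 1) / (‖q‖ + 1) := ⟨_, rfl⟩
  have hδ0 : 0 < δ := by
    rw [hδ]
    exact div_pos (by linarith) (by linarith)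
  obtain ⟨C1, hC1⟩ : ∃ C1, C1 = 3 / L + 1 := ⟨_, rfl⟩
  have hC10 : 0 < C1 := by rw [hC1]; positivity
  refine ⟨7 * C1 + 2 + 2 * C1 / δ ^ 2, by positivity, fun T hT z hz S hS => ?_⟩
  have hB : 0 ≤ 2 * T := by linarith
  obtain ⟨x, hx⟩ : ∃ x, x = Real.log (nsq z) := ⟨_, rfl⟩
  have hlog : ∀ k : ℤ, Real.log (nsq (yy q k z)) = x - k * L := fun k => by
    rw [hx, hL]
    exact log_nsq hq k hz
  have hpos : ∀ k : ℤ, 0 < nsq (yy q k z) := fun k => nsq_pos (yy_ne hq k hz)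
  have htT : ∀ k ∈ S, tt (yy q k z) < T := fun k hk =>
    (aa_supp (yy_ne hq k hz) (hS k hk)).2.2.2.1
  have hup : ∀ k ∈ S, x - k * L ≤ Real.log (5 / 2) + T := by
    intro k hk
    have h1 := (aa_supp_nsq (yy_ne hq k hz) (hS k hk)).1
    have h2 := Real.log_le_log (hpos k) h1
    rw [hlog, Real.log_mul (by norm_num) (Real.exp_pos _).ne', Real.log_exp] at h2
    exact h2
  have hcardS : (S.card : ℝ) ≤ C1 * T := by
    have h1 := card_le (x := x) (α := Real.log (2 / 3)) (β := Real.log (5 / 2) + T) hL0 (by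
      have : Real.log (2 / 3) ≤ Real.log (5 / 2) := Real.log_le_log (by norm_num) (by norm_num)
      linarith) S (fun k hk => ⟨by
        rw [← hlog]
        exact Real.log_le_log (by norm_num) (aa_supp (yy_ne hq k hz) (hS k hk)).1, hup k hk⟩)
    have h2 : Real.log (5 / 2) - Real.log (2 / 3) ≤ 2 := by
      rw [← Real.log_div (by norm_num) (by norm_num)]
      exact log_small (by norm_num) (by norm_num)
    have h3 : (Real.log (5 / 2) + T - Real.log (2 / 3)) / L ≤ (3 * T) / L :=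
      div_le_div_of_nonneg_right (by linarith) hL0.le
    have h4 : C1 * T = 3 * T / L + T := by rw [hC1]; ring
    rw [h4]
    linarith
  have hcard1 : ((S.filter fun k => T - 1 ≤ tt (yy q k z)).card : ℝ) ≤ C1 := by
    have h1 := card_le (x := x) (α := Real.log (2 / 5) + (T - 1)) (β := Real.log (5 / 2) + T)
      hL0 (by
        have : Real.log (2 / 5) ≤ Real.log (5 / 2) := Real.log_le_log (by norm_num) (by norm_num)
        linarith) (S.filter fun k => T - 1 ≤ tt (yy q k z)) (fun k hk => by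
          rw [Finset.mem_filter] at hk
          refine ⟨?_, hup k hk.1⟩
          have h2 := (aa_supp_nsq (yy_ne hq k hz) (hS k hk.1)).2 (T - 1) hk.2
          have h3 := Real.log_le_log (by positivity) h2
          rw [hlog, Real.log_mul (by norm_num) (Real.exp_pos _).ne', Real.log_exp] at h3
          exact h3)
    have h2 : Real.log (5 / 2) - Real.log (2 / 5) ≤ 2 := by
      rw [← Real.log_div (by norm_num) (by norm_num)]
      exact log_small (by norm_num) (by norm_num)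
    have h3 : (Real.log (5 / 2) + T - (Real.log (2 / 5) + (T - 1))) / L ≤ 3 / L :=
      div_le_div_of_nonneg_right (by linarith) hL0.le
    rw [hC1]
    linarith
  have hcard2 : ((S.filter fun k => ‖(yy q k z) 0 - 1‖ < δ).card : ℝ) ≤ 1 := by
    have h1 : (S.filter fun k => ‖(yy q k z) 0 - 1‖ < δ).card ≤ 1 := by
      rw [Finset.card_le_one]
      intro j hj k hk
      rw [Finset.mem_filter] at hj hk
      rw [hδ] at hj hk
      exact close_unique hq (z 0) hj.2 hk.2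
    exact_mod_cast h1
  have hsum : ∑ k ∈ S, neg (2 * T) T (yy q k z) ≤
      ∑ k ∈ S, (1 + 2 * T * ((if T - 1 ≤ tt (yy q k z) then (1 : ℝ) else 0) +
        (if ‖(yy q k z) 0 - 1‖ < δ then (1 : ℝ) else 0) + Real.exp (-T) / δ ^ 2) +
      2 * T * ((if T - 1 ≤ tt (yy q k z) then (1 : ℝ) else 0) + Real.exp (-T))) :=
    Finset.sum_le_sum fun k hk => one_term hT hδ0 (htT k hk)
  refine hsum.trans ?_
  simp only [Finset.sum_add_distrib, ← Finset.mul_sum, Finset.sum_boole, Finset.sum_const,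
    nsmul_eq_mul, mul_one]
  have hTe : T * Real.exp (-T) ≤ 1 := by
    rw [Real.exp_neg, ← div_eq_mul_inv, div_le_one (Real.exp_pos _)]
    have := Real.add_one_le_exp T
    linarith
  have hSe : (S.card : ℝ) * Real.exp (-T) ≤ C1 := by
    calc (S.card : ℝ) * Real.exp (-T) ≤ C1 * T * Real.exp (-T) :=
          mul_le_mul_of_nonneg_right hcardS (Real.exp_pos _).le
      _ = C1 * (T * Real.exp (-T)) := by ring
      _ ≤ C1 * 1 := mul_le_mul_of_nonneg_left hTe hC10.le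
      _ = C1 := mul_one _
  have hSed : (S.card : ℝ) * (Real.exp (-T) / δ ^ 2) ≤ C1 / δ ^ 2 := by
    rw [← mul_div_assoc]
    exact div_le_div_of_nonneg_right hSe (by positivity)
  have hA : 2 * T * (((S.filter fun k => T - 1 ≤ tt (yy q k z)).card : ℝ) +
      ((S.filter fun k => ‖(yy q k z) 0 - 1‖ < δ).card : ℝ) +
      (S.card : ℝ) * (Real.exp (-T) / δ ^ 2)) ≤ 2 * T * (C1 + 1 + C1 / δ ^ 2) :=
    mul_le_mul_of_nonneg_left (by linarith) hB
  have hD : 2 * T * (((S.filter fun k => T - 1 ≤ tt (yy q k z)).card : ℝ) +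
      (S.card : ℝ) * Real.exp (-T)) ≤ 2 * T * (C1 + C1) :=
    mul_le_mul_of_nonneg_left (by linarith) hB
  have hE : (7 * C1 + 2 + 2 * C1 / δ ^ 2) * T =
      C1 * T + 2 * T * (C1 + 1 + C1 / δ ^ 2) + 2 * T * (C1 + C1) := by ring
  rw [hE]
  linarith

end Pool.Agent.HMV
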