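import Pool.Agent.HMV.Loc
import Pool.Agent.HMV.SumB

/-!
HMV-Phi. The sum `Φ(z) = ∑_k G(q^{-k} z)` is locally finite, smooth and `q`-invariant, and its Levi
form is the sum of the Levi forms.
-/

open scoped ContDiff Topology
open Finset

namespace Pool.Agent.HMV

private theorem phi_nsq_cont (n : ℕ) : Continuous (nsq : (Fin n → ℂ) → ℝ) := by
  unfold nsq
  fun_prop

private theorem phi_ne {n : ℕ} {x : Fin n → ℂ} (h : 0 < nsq x) : x ≠ 0 := by
  rintro rfl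
  simp [nsq] at h

theorem Phi_loc {m : ℕ} {q : ℂ} (hq : 1 < ‖q‖) {B : ℝ} (hB : 0 ≤ B) (T : ℝ)
    {z : Fin (m + 1) → ℂ} (hz : z ≠ 0) : ∃ S : Finset ℤ, 0 ∈ S ∧
      ∀ᶠ x in 𝓝 z, Phi q B T x = ∑ k ∈ S, GG B T (yy q k x) := by
  have hN : 0 < nsq z := nsq_pos hz
  have hQ0 : 0 < ‖q‖ := by linarith
  have hL : 0 < Real.log ‖q‖ := Real.log_pos hq
  refine ⟨insert 0 (Finset.Icc ⌊-Real.log (5 * Real.exp T / nsq z) / (2 * Real.log ‖q‖)⌋
    ⌈Real.log (3 * nsq z) / (2 * Real.log ‖q‖)⌉), Finset.mem_insert_self _ _, ?_⟩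
  have hc := (phi_nsq_cont (m + 1)).continuousAt (x := z)
  filter_upwards [hc.eventually (lt_mem_nhds (show nsq z / 2 < nsq z by linarith)),
    hc.eventually (gt_mem_nhds (show nsq z < 2 * nsq z by linarith))] with x hx1 hx2
  have hx0 : 0 < nsq x := by linarith
  have hxne := phi_ne hx0
  unfold Phi
  refine finsum_eq_sum_of_support_subset _ fun k hk => ?_
  have hy : yy q k x ≠ 0 := yy_ne hq k hxne
  have ha : aa B T (yy q k x) < -3 := by
    by_contra h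
    exact hk (GG_far hB T hy (not_lt.1 h) 0).1
  have h1 := (aa_supp hy ha).1
  have h2 := (aa_supp_nsq hy ha).1
  rw [nsq_yy hq] at h1 h2
  have hP : 0 < ‖q‖ ^ (-(2 * k)) := zpow_pos hQ0 _
  have h3 : 1 / (3 * nsq z) < ‖q‖ ^ (-(2 * k)) := by
    rw [div_lt_iff₀ (by positivity)]
    nlinarith
  have h4 : ‖q‖ ^ (-(2 * k)) < 5 * Real.exp T / nsq z := by
    rw [lt_div_iff₀ hN]
    nlinarith [Real.exp_pos T]
  have h5 := Real.log_lt_log (by positivity) h3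
  have h6 := Real.log_lt_log hP h4
  rw [Real.log_zpow] at h5 h6
  rw [one_div, Real.log_inv] at h5
  push_cast at h5 h6
  rw [Finset.coe_insert]
  refine Or.inr (Finset.mem_coe.2 (Finset.mem_Icc.2 ⟨?_, ?_⟩))
  · have h7 : -Real.log (5 * Real.exp T / nsq z) / (2 * Real.log ‖q‖) ≤ k := by
      rw [div_le_iff₀ (by positivity)]
      nlinarith
    exact_mod_cast (Int.floor_le _).trans h7
  · have h7 : (k : ℝ) ≤ Real.log (3 * nsq z) / (2 * Real.log ‖q‖) := by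
      rw [le_div_iff₀ (by positivity)]
      nlinarith
    exact_mod_cast h7.trans (Int.le_ceil _)

theorem Phi_inv {m : ℕ} {q : ℂ} (hq : 1 < ‖q‖) (B T : ℝ) {z : Fin (m + 1) → ℂ} (hz : z ≠ 0) :
    Phi q B T (q • z) = Phi q B T z := by
  have hq0 : q ≠ 0 := by
    rintro rfl
    simp at hq
    linarith
  have h1 : ∀ k : ℤ, yy q k (q • z) = yy q ((Equiv.subRight (1 : ℤ)) k) z := by
    intro k
    unfold yy
    rw [smul_smul, Equiv.subRight_apply, neg_sub, sub_eq_neg_add, zpow_add₀ hq0, zpow_one]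
  unfold Phi
  simp only [h1]
  exact finsum_comp_equiv (Equiv.subRight (1 : ℤ)) (f := fun k => GG B T (yy q k z))

private theorem phi_yy {m : ℕ} (q : ℂ) (k : ℤ) :
    ContDiff ℝ ∞ (yy q k : (Fin (m + 1) → ℂ) → (Fin (m + 1) → ℂ)) := by
  unfold yy
  exact contDiff_id.const_smul _

private theorem phi_at {m : ℕ} {q : ℂ} (hq : 1 < ‖q‖) {B : ℝ} (hB : 0 ≤ B) (T : ℝ)
    {z : Fin (m + 1) → ℂ} (hz : z ≠ 0) : ContDiffAt ℝ ∞ (Phi q B T) z := by
  obtain ⟨S, -, hS⟩ := Phi_loc hq hB T hz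
  refine ContDiffAt.congr_of_eventuallyEq ?_ hS
  refine ContDiffAt.sum fun k _ => ?_
  exact ContDiffAt.comp (g := GG B T) (f := yy q k) z (GG_smooth hB T (yy_ne hq k hz))
    (phi_yy q k).contDiffAt

theorem Phi_smooth {m : ℕ} {q : ℂ} (hq : 1 < ‖q‖) {B : ℝ} (hB : 0 ≤ B) (T : ℝ) :
    ContDiffOn ℝ ∞ (Phi q B T : (Fin (m + 1) → ℂ) → ℝ) {0}ᶜ :=
  fun _ hz => (phi_at hq hB T hz).contDiffWithinAt

theorem lev_Phi {m : ℕ} {q : ℂ} (hq : 1 < ‖q‖) {B : ℝ} (hB : 0 ≤ B) (T : ℝ)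
    {z : Fin (m + 1) → ℂ} (hz : z ≠ 0) : ∃ S : Finset ℤ, 0 ∈ S ∧
      ∀ v, lev (Phi q B T) z v = ∑ k ∈ S, lev (GG B T) (yy q k z) (yy q k v) := by
  obtain ⟨S, h0, hS⟩ := Phi_loc hq hB T hz
  refine ⟨S, h0, fun v => ?_⟩
  have h1 : ∀ k ∈ S, Jet (fun x => GG B T (yy q k x)) z (fun v => dz (GG B T) (yy q k z) (yy q k v))
      (fun v => lev (GG B T) (yy q k z) (yy q k v)) := by
    intro k _
    exact (Jet.of_contDiffAt (GG_smooth hB T (yy_ne hq k hz))).smul_comp (q ^ (-k))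
  exact ((Jet.sum S h1).congr hS).hl v

end Pool.Agent.HMV
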