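import Mathlib

/-!
Definitions for the statement: Monge-Ampere volumes of Hermitian metrics on Hopf manifolds.

Everything lives on `ℂⁿ = Fin n → ℂ`. A Hermitian metric of the Hopf manifold
`X = (ℂⁿ ∖ 0)/⟨z ↦ q z⟩` is a continuous field `A` of positive definite Hermitian matrices on
`ℂⁿ ∖ 0` with `|q|² A(q z) = A(z)`; a smooth function on `X` is a smooth function `φ` on
`ℂⁿ ∖ 0` with `φ(q z) = φ(z)`; `ω + dd^c φ` has the matrix `A + leviMat φ`; its volume is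
(up to a constant) the integral of the determinant over `{1 ≤ |z| < |q|}`.
-/

open scoped ContDiff ComplexOrder
open Finset

namespace Pool.Agent.HMV

/-- `|z|² = ∑ |z_i|²`. -/
noncomputable def nsq {n : ℕ} (z : Fin n → ℂ) : ℝ := ∑ i, ‖z i‖ ^ 2

/-- the second real derivative `D²φ(z)(v, w)` -/
noncomputable def D2 {n : ℕ} (φ : (Fin n → ℂ) → ℝ) (z v w : Fin n → ℂ) : ℝ :=
  fderiv ℝ (fderiv ℝ φ) z v w

/-- the complex Hessian: the entry `(j, k)` is `∂²φ/∂z̄_j ∂z_k`, that is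
`(1/4)(∂_{x_j} + i ∂_{y_j})(∂_{x_k} - i ∂_{y_k}) φ`, so that `x* (leviMat φ z) x` is the Levi form
of `φ` at `z` in the direction `x`. -/
noncomputable def leviMat {n : ℕ} (φ : (Fin n → ℂ) → ℝ) (z : Fin n → ℂ) :
    Matrix (Fin n) (Fin n) ℂ := fun j k =>
  ((D2 φ z (Pi.single j 1) (Pi.single k 1) +
      D2 φ z (Pi.single j Complex.I) (Pi.single k Complex.I) : ℝ) +
    Complex.I * (D2 φ z (Pi.single j Complex.I) (Pi.single k 1) -
      D2 φ z (Pi.single j 1) (Pi.single k Complex.I) : ℝ)) / 4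

/-- the fundamental domain `{1 ≤ |z| < |q|}` of `z ↦ q z` on `ℂⁿ ∖ 0` -/
def fund (n : ℕ) (q : ℂ) : Set (Fin n → ℂ) := {z | 1 ≤ nsq z ∧ nsq z < ‖q‖ ^ 2}

/-- `A` is a (continuous) Hermitian metric of the Hopf manifold `(ℂⁿ ∖ 0)/⟨z ↦ q z⟩`. -/
structure IsHermMetric {n : ℕ} (q : ℂ) (A : (Fin n → ℂ) → Matrix (Fin n) (Fin n) ℂ) : Prop where
  cont : ContinuousOn A {0}ᶜ
  pos : ∀ z, z ≠ 0 → (A z).PosDef
  inv : ∀ z, z ≠ 0 → (((‖q‖ ^ 2 : ℝ) : ℂ)) • A (q • z) = A z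

/-- `φ` is a smooth function on the Hopf manifold `(ℂⁿ ∖ 0)/⟨z ↦ q z⟩` such that
`ω + dd^c φ` is again a Hermitian metric, where `ω` is given by `A`. -/
structure IsPotential {n : ℕ} (q : ℂ) (A : (Fin n → ℂ) → Matrix (Fin n) (Fin n) ℂ)
    (φ : (Fin n → ℂ) → ℝ) : Prop where
  smooth : ContDiffOn ℝ ∞ φ {0}ᶜ
  inv : ∀ z, z ≠ 0 → φ (q • z) = φ z
  pos : ∀ z, z ≠ 0 → (A z + leviMat φ z).PosDef

/-- the volume `∫_X (ω + dd^c φ)^n`, up to a constant depending only on `n` -/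
noncomputable def mvol {n : ℕ} (q : ℂ) (A : (Fin n → ℂ) → Matrix (Fin n) (Fin n) ℂ)
    (φ : (Fin n → ℂ) → ℝ) : ℝ :=
  ∫ z in fund n q, (A z + leviMat φ z).det.re

end Pool.Agent.HMV
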