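import Pool.Agent.HMV.LevA

/-!
HMV-Tube. Lower bound of `PP` in the tube `1 ≤ |z'|² ≤ 2`, `|z₀ - 1|² ≤ E`, `B = 2T`, `T ≥ 3`.
-/

open Finset

namespace Pool.Agent.HMV

private theorem tube_tt_le {m : ℕ} {z : Fin (m + 1) → ℂ} (h2 : Pn z ≤ 2) : tt z ≤ 3 / 2 := by
  have hP := Pn_nonneg z
  unfold tt
  have h1 : Real.log (1 + Pn z) ≤ Real.log 3 := Real.log_le_log (by linarith) (by linarith)
  have h3 : Real.log 3 ≤ 3 / 2 := by
    rw [Real.log_le_iff_le_exp (by norm_num)]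
    have := Real.quadratic_le_exp_of_nonneg (x := 3 / 2) (by norm_num)
    linarith
  exact h1.trans h3

theorem EE_tube {m : ℕ} {T : ℝ} (hT : 3 ≤ T) {z : Fin (m + 1) → ℂ} (h2 : Pn z ≤ 2) :
    EE (2 * T) T z ≤ 3 * Real.exp (-(T ^ 3 / 2)) := by
  have hP := Pn_nonneg z
  have ht := tube_tt_le h2
  have hb := bb_le (B := 2 * T) (T := T) (t := tt z) (by linarith) (by linarith)
  have h3 : T / 2 ≤ T - tt z := by linarith
  have h4 : (T / 2) ^ 2 ≤ (T - tt z) ^ 2 := pow_le_pow_left₀ (by linarith) h3 2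
  have h5 : bb (2 * T) T (tt z) ≤ -(T ^ 3 / 2) := by
    have h6 : 2 * T * (T / 2) ^ 2 ≤ 2 * T * (T - tt z) ^ 2 :=
      mul_le_mul_of_nonneg_left h4 (by linarith)
    have h7 : 2 * T * (T / 2) ^ 2 = T ^ 3 / 2 := by ring
    linarith
  unfold EE cc
  rw [Real.exp_add]
  have h8 : Real.exp (tt z) = 1 + Pn z := by
    unfold tt
    exact Real.exp_log (by linarith)
  rw [h8, mul_comm]
  exact mul_le_mul (by linarith) (Real.exp_le_exp.2 h5) (Real.exp_pos _).le (by norm_num)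

theorem aa_tube {m : ℕ} {T : ℝ} (hT : 3 ≤ T) {z : Fin (m + 1) → ℂ} (h1 : 1 ≤ Pn z)
    (h2 : Pn z ≤ 2) (h3 : ‖z 0 - 1‖ ^ 2 ≤ EE (2 * T) T z) : aa (2 * T) T z < -4 := by
  have hE := EE_pos (2 * T) T z
  have hF := FF_pos (2 * T) T z
  have hEle := EE_tube hT h2
  have hFle : FF (2 * T) T z ≤ 6 * Real.exp (-(T ^ 3 / 2)) := by
    unfold FF
    linarith
  have hn : 1 ≤ nsq z := by
    rw [nsq_eq]
    have : 0 ≤ ‖z 0‖ ^ 2 := by positivity
    linarith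
  have hlog : 0 ≤ Real.log (nsq z) := Real.log_nonneg hn
  have h4 : Real.log (FF (2 * T) T z) ≤ Real.log 6 + -(T ^ 3 / 2) := by
    refine (Real.log_le_log hF hFle).trans (le_of_eq ?_)
    rw [Real.log_mul (by norm_num) (Real.exp_ne_zero _), Real.log_exp]
  have h5 : Real.log 6 ≤ 5 := by
    have := Real.log_le_sub_one_of_pos (show (0 : ℝ) < 6 by norm_num)
    linarith
  have h6 : (3 : ℝ) ^ 3 ≤ T ^ 3 := pow_le_pow_left₀ (by norm_num) hT 3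
  unfold aa
  linarith

theorem PP_tube {m : ℕ} {T : ℝ} (hT : 3 ≤ T) {z : Fin (m + 1) → ℂ} (h1 : 1 ≤ Pn z)
    (h2 : Pn z ≤ 2) (h3 : ‖z 0 - 1‖ ^ 2 ≤ EE (2 * T) T z) (v : Fin (m + 1) → ℂ) :
    T ^ 2 / 9 * Pn v +
      1 / (4 * EE (2 * T) T z) * ‖v 0 - (z 0 - 1) * dc (2 * T) T z v‖ ^ 2 ≤
      PP (2 * T) T z v := by
  have hE := EE_pos (2 * T) T z
  have hF := FF_pos (2 * T) T z
  have hFle : FF (2 * T) T z ≤ 2 * EE (2 * T) T z := by
    unfold FF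
    linarith
  have ht := tube_tt_le h2
  have hv := Pn_nonneg v
  have htau : 1 / 2 ≤ tau (2 * T) T z := by
    unfold tau
    rw [div_le_div_iff₀ (by norm_num) hF]
    linarith
  have hb : 2 * T ^ 2 ≤ 1 + bb1 (2 * T) T (tt z) := by
    have h4 := bb1_ge (B := 2 * T) (by linarith) T (tt z)
    have h5 : T / 2 ≤ T - tt z := by linarith
    have h6 : 2 * (2 * T) * (T / 2) ≤ 2 * (2 * T) * (T - tt z) :=
      mul_le_mul_of_nonneg_left h5 (by linarith)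
    have h7 : 2 * (2 * T) * (T / 2) = 2 * T ^ 2 := by ring
    linarith
  have hL : Pn v / 9 ≤ Lt z v := by
    refine le_trans ?_ (Lt_ge z v)
    have h4 : (1 + Pn z) ^ 2 ≤ 9 := by nlinarith
    exact div_le_div_of_nonneg_left hv (by positivity) h4
  have hA : 1 / 2 * (2 * T ^ 2) * (Pn v / 9) ≤
      tau (2 * T) T z * (1 + bb1 (2 * T) T (tt z)) * Lt z v := by
    have hT2 : 0 ≤ T ^ 2 := by positivity
    refine mul_le_mul (mul_le_mul htau hb (by positivity) (by linarith)) hL (by positivity) ?_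
    exact mul_nonneg (by linarith) (by linarith)
  have hB : 1 / (4 * EE (2 * T) T z) ≤ EE (2 * T) T z / FF (2 * T) T z ^ 2 := by
    rw [div_le_div_iff₀ (by positivity) (by positivity)]
    have h4 : FF (2 * T) T z ^ 2 ≤ (2 * EE (2 * T) T z) ^ 2 := pow_le_pow_left₀ hF.le hFle 2
    nlinarith
  have hC := mul_le_mul_of_nonneg_right hB
    (sq_nonneg ‖v 0 - (z 0 - 1) * dc (2 * T) T z v‖)
  unfold PP
  have hD : 1 / 2 * (2 * T ^ 2) * (Pn v / 9) = T ^ 2 / 9 * Pn v := by ring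
  linarith

theorem tube_nsq {m : ℕ} {η δ : ℝ} (hη : 0 ≤ η) (hη1 : η ≤ 1) {z : Fin (m + 1) → ℂ}
    (h1 : 1 ≤ Pn z) (h2 : Pn z ≤ 1 + δ) (h3 : ‖z 0 - 1‖ ≤ η) :
    2 - 2 * η ≤ nsq z ∧ nsq z ≤ 2 + 3 * η + δ := by
  have h4 : ‖z 0‖ ≤ 1 + η := by
    have h5 : z 0 = (z 0 - 1) + 1 := by ring
    rw [h5]
    refine (norm_add_le _ _).trans ?_
    rw [norm_one]
    linarith
  have h5 : 1 - η ≤ ‖z 0‖ := by
    have h6 : (1 : ℂ) = z 0 - (z 0 - 1) := by ring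
    have h7 : ‖(1 : ℂ)‖ ≤ ‖z 0‖ + ‖z 0 - 1‖ := by
      conv_lhs => rw [h6]
      exact norm_sub_le _ _
    rw [norm_one] at h7
    linarith
  rw [nsq_eq]
  have h6 : (1 - η) ^ 2 ≤ ‖z 0‖ ^ 2 := pow_le_pow_left₀ (by linarith) h5 2
  have h7 : ‖z 0‖ ^ 2 ≤ (1 + η) ^ 2 := pow_le_pow_left₀ (norm_nonneg _) h4 2
  constructor
  · nlinarith
  · nlinarith

/-- `v ↦ (z 0 - 1) * dc B T z v` is a linear combination of the coordinates `v 1, v 2, ...` -/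
theorem dc_linear {m : ℕ} (B T : ℝ) (z : Fin (m + 1) → ℂ) : ∃ c : Fin m → ℂ,
    ∀ v : Fin (m + 1) → ℂ, (z 0 - 1) * dc B T z v = ∑ i : Fin m, c i * v i.succ := by
  refine ⟨fun i => (z 0 - 1) * ((1 + bb1 B T (tt z) : ℝ) : ℂ) * (starRingEnd ℂ) (z i.succ) /
    ((1 + Pn z : ℝ) : ℂ), fun v => ?_⟩
  unfold dc dt ip
  rw [Finset.sum_div, Finset.mul_sum, Finset.mul_sum]
  refine Finset.sum_congr rfl fun i _ => ?_
  ring

end Pool.Agent.HMV
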