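import Pool.Agent.HMV.Glob
import Pool.Agent.HMV.Tube
import Pool.Agent.HMV.Det
import Pool.Agent.HMV.Fub
import Pool.Agent.HMV.Met
import Pool.Agent.HMV.Mat
import Pool.Agent.HMV.Jet
import Pool.Agent.HMV.JetC

/-!
HMV-Vol. Assembly (helper67).
-/

open scoped Matrix ComplexOrder Topology ContDiff
open Finset MeasureTheory

namespace Pool.Agent.HMV

variable {m : ℕ}

/-- the potential -/
noncomputable def pot (q : ℂ) (ε θ r T : ℝ) (z : Fin (m + 1) → ℂ) : ℝ :=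
  ε * (θ / (2 * T)) * Phi q (2 * T) T ((((r⁻¹ : ℝ) : ℂ)) • z)

private theorem smul_ne' {c : ℂ} (hc : c ≠ 0) {z : Fin (m + 1) → ℂ} (hz : z ≠ 0) : c • z ≠ 0 :=
  smul_ne_zero hc hz

theorem pot_smooth {q : ℂ} (hq : 1 < ‖q‖) (ε θ : ℝ) {r T : ℝ} (hr : 0 < r) (hT : 0 ≤ T) :
    ContDiffOn ℝ ∞ (pot q ε θ r T : (Fin (m + 1) → ℂ) → ℝ) {0}ᶜ := by
  have hc : (((r⁻¹ : ℝ) : ℂ)) ≠ 0 := by
    exact_mod_cast (inv_pos.2 hr).ne'
  have h1 : ContDiffOn ℝ ∞ (fun z : Fin (m + 1) → ℂ =>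
      Phi q (2 * T) T ((((r⁻¹ : ℝ) : ℂ)) • z)) {0}ᶜ := by
    refine (Phi_smooth (m := m) hq (by linarith : (0 : ℝ) ≤ 2 * T) T).comp
      (contDiff_const_smul (((r⁻¹ : ℝ) : ℂ))).contDiffOn ?_
    intro z hz
    exact smul_ne' hc hz
  exact contDiffOn_const.mul h1

theorem pot_inv {q : ℂ} (hq : 1 < ‖q‖) (ε θ : ℝ) {r : ℝ} (T : ℝ) (hr : 0 < r)
    {z : Fin (m + 1) → ℂ} (hz : z ≠ 0) : pot q ε θ r T (q • z) = pot q ε θ r T z := by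
  have hc : (((r⁻¹ : ℝ) : ℂ)) ≠ 0 := by
    exact_mod_cast (inv_pos.2 hr).ne'
  unfold pot
  rw [smul_comm, Phi_inv hq _ _ (smul_ne' hc hz)]

theorem pot_lev {q : ℂ} (hq : 1 < ‖q‖) (ε θ : ℝ) {r T : ℝ} (hr : 0 < r) (hT : 0 ≤ T)
    {z : Fin (m + 1) → ℂ} (hz : z ≠ 0) (v : Fin (m + 1) → ℂ) :
    lev (pot q ε θ r T) z v = ε * (θ / (2 * T) *
      lev (Phi q (2 * T) T) ((((r⁻¹ : ℝ) : ℂ)) • z) ((((r⁻¹ : ℝ) : ℂ)) • v)) := by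
  have hc : (((r⁻¹ : ℝ) : ℂ)) ≠ 0 := by
    exact_mod_cast (inv_pos.2 hr).ne'
  have hne := smul_ne' hc hz
  have h0 : ContDiffAt ℝ ∞ (Phi q (2 * T) T : (Fin (m + 1) → ℂ) → ℝ)
      ((((r⁻¹ : ℝ) : ℂ)) • z) :=
    (Phi_smooth (m := m) hq (by linarith : (0 : ℝ) ≤ 2 * T) T).contDiffAt
      (isOpen_compl_singleton.mem_nhds hne)
  have h1 := ((Jet.of_contDiffAt h0).smul_comp).const_mul (ε * (θ / (2 * T)))
  have h2 := h1.hl v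
  have h3 : lev (pot q ε θ r T) z v = ε * (θ / (2 * T)) *
      lev (Phi q (2 * T) T) ((((r⁻¹ : ℝ) : ℂ)) • z) ((((r⁻¹ : ℝ) : ℂ)) • v) := h2
  rw [h3]
  ring

theorem nsq_ratio {c : ℂ} (hc : c ≠ 0) (z v : Fin (m + 1) → ℂ) :
    nsq (c • v) / nsq (c • z) = nsq v / nsq z := by
  rw [nsq_smul, nsq_smul]
  have : ‖c‖ ^ 2 ≠ 0 := by positivity
  exact mul_div_mul_left _ _ this

/-- lower bounds for the form of `A + leviMat pot` -/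
theorem form_lower {q : ℂ} (hq : 1 < ‖q‖) {A : (Fin (m + 1) → ℂ) →
    Matrix (Fin (m + 1)) (Fin (m + 1)) ℂ} {ε θ : ℝ} (hε : 0 < ε)
    (hA : ∀ z, z ≠ 0 → ∀ v : Fin (m + 1) → ℂ,
      ε * (nsq v / nsq z) ≤ (star v ⬝ᵥ (A z *ᵥ v)).re)
    (hθ : ∀ T : ℝ, 1 ≤ T →
      ∀ z : Fin (m + 1) → ℂ, z ≠ 0 → ∀ v : Fin (m + 1) → ℂ,
      -(1 / 2) * (nsq v / nsq z) ≤ θ / (2 * T) * lev (Phi q (2 * T) T) z v ∧
      (aa (2 * T) T z < -4 →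
        -(1 / 2) * (nsq v / nsq z) + θ / (2 * T) * PP (2 * T) T z v ≤
          θ / (2 * T) * lev (Phi q (2 * T) T) z v))
    {r T : ℝ} (hr : 0 < r) (hT : 1 ≤ T) {z : Fin (m + 1) → ℂ} (hz : z ≠ 0)
    (v : Fin (m + 1) → ℂ) :
    ε / 2 * (nsq v / nsq z) ≤ (star v ⬝ᵥ ((A z + leviMat (pot q ε θ r T) z) *ᵥ v)).re ∧
      (aa (2 * T) T ((((r⁻¹ : ℝ) : ℂ)) • z) < -4 →
        ε * (θ / (2 * T) * PP (2 * T) T ((((r⁻¹ : ℝ) : ℂ)) • z) ((((r⁻¹ : ℝ) : ℂ)) • v)) ≤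
          (star v ⬝ᵥ ((A z + leviMat (pot q ε θ r T) z) *ᵥ v)).re) := by
  have hc : (((r⁻¹ : ℝ) : ℂ)) ≠ 0 := by
    exact_mod_cast (inv_pos.2 hr).ne'
  have hne := smul_ne' hc hz
  have hsm : ContDiffAt ℝ ∞ (pot q ε θ r T : (Fin (m + 1) → ℂ) → ℝ) z :=
    (pot_smooth (m := m) hq ε θ hr (by linarith)).contDiffAt
      (isOpen_compl_singleton.mem_nhds hz)
  have hsum : (star v ⬝ᵥ ((A z + leviMat (pot q ε θ r T) z) *ᵥ v)).re =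
      (star v ⬝ᵥ (A z *ᵥ v)).re + lev (pot q ε θ r T) z v := by
    rw [Matrix.add_mulVec, dotProduct_add, leviMat_form hsm, Complex.add_re, Complex.ofReal_re]
  have h1 := hA z hz v
  obtain ⟨h2, h3⟩ := hθ T hT _ hne ((((r⁻¹ : ℝ) : ℂ)) • v)
  rw [nsq_ratio hc] at h2 h3
  have h4 := pot_lev (m := m) hq ε θ hr (by linarith : (0 : ℝ) ≤ T) hz v
  have hpos : 0 ≤ nsq v / nsq z := div_nonneg (nsq_nonneg _) (nsq_nonneg _)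
  constructor
  · rw [hsum, h4]
    have := mul_le_mul_of_nonneg_left h2 hε.le
    nlinarith
  · intro ha
    rw [hsum, h4]
    have := mul_le_mul_of_nonneg_left (h3 ha) hε.le
    have h5 : 0 ≤ ε * (nsq v / nsq z) := by positivity
    nlinarith

theorem pot_isPotential {q : ℂ} (hq : 1 < ‖q‖) {A : (Fin (m + 1) → ℂ) →
    Matrix (Fin (m + 1)) (Fin (m + 1)) ℂ} (hM : IsHermMetric q A) {ε θ : ℝ} (hε : 0 < ε)
    (hA : ∀ z, z ≠ 0 → ∀ v : Fin (m + 1) → ℂ,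
      ε * (nsq v / nsq z) ≤ (star v ⬝ᵥ (A z *ᵥ v)).re)
    (hθ : ∀ T : ℝ, 1 ≤ T →
      ∀ z : Fin (m + 1) → ℂ, z ≠ 0 → ∀ v : Fin (m + 1) → ℂ,
      -(1 / 2) * (nsq v / nsq z) ≤ θ / (2 * T) * lev (Phi q (2 * T) T) z v ∧
      (aa (2 * T) T z < -4 →
        -(1 / 2) * (nsq v / nsq z) + θ / (2 * T) * PP (2 * T) T z v ≤
          θ / (2 * T) * lev (Phi q (2 * T) T) z v))
    {r T : ℝ} (hr : 0 < r) (hT : 1 ≤ T) : IsPotential q A (pot q ε θ r T) := by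
  refine ⟨pot_smooth hq ε θ hr (by linarith), fun z hz => pot_inv hq ε θ T hr hz, ?_⟩
  intro z hz
  have hsm : ContDiffAt ℝ ∞ (pot q ε θ r T : (Fin (m + 1) → ℂ) → ℝ) z :=
    (pot_smooth (m := m) hq ε θ hr (by linarith)).contDiffAt
      (isOpen_compl_singleton.mem_nhds hz)
  have hH : (A z + leviMat (pot q ε θ r T) z).IsHermitian :=
    (hM.pos z hz).isHermitian.add (leviMat_herm hsm)
  refine Matrix.PosDef.of_dotProduct_mulVec_pos hH ?_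
  intro v hv
  have h1 := (form_lower hq hε hA hθ hr hT hz v).1
  have h2 : 0 < nsq v / nsq z := div_pos (nsq_pos hv) (nsq_pos hz)
  have h3 : 0 < (star v ⬝ᵥ ((A z + leviMat (pot q ε θ r T) z) *ᵥ v)).re := by
    have : 0 < ε / 2 * (nsq v / nsq z) := by positivity
    linarith
  have h4 : (star v ⬝ᵥ ((A z + leviMat (pot q ε θ r T) z) *ᵥ v)).im = 0 :=
    hH.im_star_dotProduct_mulVec_self v
  rw [Complex.lt_def]
  exact ⟨h3, h4.symm⟩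

end Pool.Agent.HMV
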