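import Pool.Agent.HMV.Vol

/-!
HMV-Vol2. Assembly, second part: the volume (helper67).
-/

open scoped Matrix ComplexOrder Topology ContDiff
open Finset MeasureTheory

namespace Pool.Agent.HMV

variable {m : ℕ}

/-- `r² E` as a function of `z'` -/
noncomputable def ee (r T : ℝ) (y : Fin m → ℂ) : ℝ :=
  r ^ 2 * Real.exp (bb (2 * T) T (Real.log (1 + nsq y / r ^ 2)) + Real.log (1 + nsq y / r ^ 2))

/-- the shell -/
def shell (m : ℕ) (r δ : ℝ) : Set (Fin m → ℂ) :=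
  {y : Fin m → ℂ | r ^ 2 ≤ nsq y ∧ nsq y ≤ (1 + δ) * r ^ 2}

/-- the tube -/
def tube (m : ℕ) (r δ T : ℝ) : Set (Fin (m + 1) → ℂ) :=
  {z : Fin (m + 1) → ℂ | (fun i => z (Fin.succ i)) ∈ shell m r δ ∧
        ‖z 0 - (r : ℂ)‖ ^ 2 ≤ ee r T (fun i => z (Fin.succ i))}

theorem nsq_cont {n : ℕ} : Continuous (nsq : (Fin n → ℂ) → ℝ) := by
  unfold nsq
  fun_prop

theorem ee_pos {r : ℝ} (hr : 0 < r) (T : ℝ) (y : Fin m → ℂ) : 0 < ee r T y := by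
  unfold ee
  positivity

theorem ee_meas {r : ℝ} (hr : 0 < r) (T : ℝ) : Measurable (ee r T : (Fin m → ℂ) → ℝ) := by
  have h1 : Continuous fun y : Fin m → ℂ => Real.log (1 + nsq y / r ^ 2) := by
    refine Continuous.log (by have := nsq_cont (n := m); fun_prop) ?_
    intro y
    have h2 : 0 ≤ nsq y / r ^ 2 := div_nonneg (nsq_nonneg _) (by positivity)
    linarith
  have h3 : Continuous (bb (2 * T) T) := (bb_smooth (2 * T) T).continuous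
  have h4 : Continuous (ee r T : (Fin m → ℂ) → ℝ) := by
    unfold ee
    exact continuous_const.mul (Real.continuous_exp.comp ((h3.comp h1).add h1))
  exact h4.measurable

theorem Pn_tail (z : Fin (m + 1) → ℂ) : Pn z = nsq (fun i => z (Fin.succ i)) := rfl

theorem Pn_scale {r : ℝ} (hr : 0 < r) (z : Fin (m + 1) → ℂ) :
    Pn ((((r⁻¹ : ℝ) : ℂ)) • z) = nsq (fun i => z (Fin.succ i)) / r ^ 2 := by
  rw [Pn_smul, Pn_tail, Complex.norm_real, Real.norm_eq_abs, abs_of_pos (inv_pos.2 hr)]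
  field_simp

theorem ee_eq {r : ℝ} (hr : 0 < r) (T : ℝ) (z : Fin (m + 1) → ℂ) :
    ee r T (fun i => z (Fin.succ i)) = r ^ 2 * EE (2 * T) T ((((r⁻¹ : ℝ) : ℂ)) • z) := by
  unfold ee EE cc tt
  rw [Pn_scale hr]

theorem tube_facts {r δ T : ℝ} (hr : 0 < r) (hδ1 : δ ≤ 1) {z : Fin (m + 1) → ℂ}
    (hz : z ∈ tube m r δ T) :
    1 ≤ Pn ((((r⁻¹ : ℝ) : ℂ)) • z) ∧ Pn ((((r⁻¹ : ℝ) : ℂ)) • z) ≤ 1 + δ ∧
    Pn ((((r⁻¹ : ℝ) : ℂ)) • z) ≤ 2 ∧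
    ‖((((r⁻¹ : ℝ) : ℂ)) • z) 0 - 1‖ ^ 2 ≤ EE (2 * T) T ((((r⁻¹ : ℝ) : ℂ)) • z) ∧ z ≠ 0 := by
  obtain ⟨⟨h1, h2⟩, h3⟩ := hz
  have hr2 : 0 < r ^ 2 := by positivity
  have hP := Pn_scale hr z
  have e1 : 1 ≤ Pn ((((r⁻¹ : ℝ) : ℂ)) • z) := by
    rw [hP, le_div_iff₀ hr2]; linarith
  have e2 : Pn ((((r⁻¹ : ℝ) : ℂ)) • z) ≤ 1 + δ := by
    rw [hP, div_le_iff₀ hr2]; linarith
  refine ⟨e1, e2, by linarith, ?_, ?_⟩
  · have e3 : ((((r⁻¹ : ℝ) : ℂ)) • z) 0 - 1 = (((r⁻¹ : ℝ) : ℂ)) * (z 0 - (r : ℂ)) := by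
      have : (((r⁻¹ : ℝ) : ℂ)) * (r : ℂ) = 1 := by
        rw [← Complex.ofReal_mul, inv_mul_cancel₀ hr.ne']; simp
      rw [mul_sub, this]
      rfl
    rw [e3, norm_mul, mul_pow, Complex.norm_real, Real.norm_eq_abs, abs_of_pos (inv_pos.2 hr)]
    rw [ee_eq hr] at h3
    calc r⁻¹ ^ 2 * ‖z 0 - (r : ℂ)‖ ^ 2
        ≤ r⁻¹ ^ 2 * (r ^ 2 * EE (2 * T) T ((((r⁻¹ : ℝ) : ℂ)) • z)) :=
          mul_le_mul_of_nonneg_left h3 (by positivity)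
      _ = EE (2 * T) T ((((r⁻¹ : ℝ) : ℂ)) • z) := by field_simp
  · rintro rfl
    have : Pn ((((r⁻¹ : ℝ) : ℂ)) • (0 : Fin (m + 1) → ℂ)) = 0 := by
      simp [Pn]
    linarith

/-- the constants -/
theorem tube_sub_fund {q : ℂ} (hq : 1 < ‖q‖) {T : ℝ} (hT : 3 ≤ T)
    (hT2 : 3 * Real.exp (-(T ^ 3 / 2)) ≤ ((‖q‖ - 1) / (3 * ‖q‖)) ^ 2) {δ : ℝ}
    (hδ1 : δ ≤ 1) (hδ2 : δ ≤ (‖q‖ - 1) / 2) :
    tube m (√(‖q‖ / 2)) δ T ⊆ fund (m + 1) q := by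
  intro z hz
  set r := √(‖q‖ / 2) with hrdef
  have hQ0 : 0 < ‖q‖ := by linarith
  have hr : 0 < r := Real.sqrt_pos.2 (by positivity)
  have hr2 : r ^ 2 = ‖q‖ / 2 := Real.sq_sqrt (by positivity)
  obtain ⟨h1, h2, h3, h4, h5⟩ := tube_facts hr hδ1 hz
  set η := (‖q‖ - 1) / (3 * ‖q‖) with hη
  have hη0 : 0 ≤ η := div_nonneg (by linarith) (by positivity)
  have hη1 : η * (3 * ‖q‖) = ‖q‖ - 1 := by
    rw [hη]; field_simp
  have hη2 : η ≤ 1 := by nlinarith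
  have h6 : ‖((((r⁻¹ : ℝ) : ℂ)) • z) 0 - 1‖ ≤ η := by
    have h7 := EE_tube (m := m) hT h3
    have h8 : ‖((((r⁻¹ : ℝ) : ℂ)) • z) 0 - 1‖ ^ 2 ≤ η ^ 2 := le_trans h4 (le_trans h7 hT2)
    exact le_of_sq_le_sq h8 hη0 |> fun h => h
  obtain ⟨h9, h10⟩ := tube_nsq hη0 hη2 h1 h2 h6
  have h11 : nsq ((((r⁻¹ : ℝ) : ℂ)) • z) = nsq z / r ^ 2 := by
    rw [nsq_smul, Complex.norm_real, Real.norm_eq_abs, abs_of_pos (inv_pos.2 hr)]
    field_simp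
  have hr2p : 0 < r ^ 2 := by positivity
  rw [h11, le_div_iff₀ hr2p] at h9
  rw [h11, div_le_iff₀ hr2p] at h10
  rw [hr2] at h9 h10
  constructor
  · nlinarith
  · have : (2 + 3 * η + δ) * (‖q‖ / 2) < ‖q‖ ^ 2 := by
      have h12 : 3 * η ≤ ‖q‖ - 1 := by nlinarith
      have h13 : 2 + 3 * η + δ < 2 * ‖q‖ := by linarith
      nlinarith
    linarith

/-- lower bound of the determinant in the tube -/
theorem det_tube {q : ℂ} (hq : 1 < ‖q‖) {A : (Fin (m + 1) → ℂ) →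
    Matrix (Fin (m + 1)) (Fin (m + 1)) ℂ} (hM : IsHermMetric q A) {ε θ : ℝ} (hε : 0 < ε)
    (hθ0 : 0 < θ)
    (hA : ∀ z, z ≠ 0 → ∀ v : Fin (m + 1) → ℂ,
      ε * (nsq v / nsq z) ≤ (star v ⬝ᵥ (A z *ᵥ v)).re)
    (hθ : ∀ T : ℝ, 1 ≤ T →
      ∀ z : Fin (m + 1) → ℂ, z ≠ 0 → ∀ v : Fin (m + 1) → ℂ,
      -(1 / 2) * (nsq v / nsq z) ≤ θ / (2 * T) * lev (Phi q (2 * T) T) z v ∧
      (aa (2 * T) T z < -4 →
        -(1 / 2) * (nsq v / nsq z) + θ / (2 * T) * PP (2 * T) T z v ≤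
          θ / (2 * T) * lev (Phi q (2 * T) T) z v))
    {r δ T : ℝ} (hr : 0 < r) (hδ1 : δ ≤ 1) (hT : 3 ≤ T) {z : Fin (m + 1) → ℂ}
    (hz : z ∈ tube m r δ T) :
    (ε * θ / (8 * T)) * (ε * θ * T / (18 * r ^ 2)) ^ m * (1 / ee r T (fun i => z (Fin.succ i))) ≤
      (A z + leviMat (pot q ε θ r T) z).det.re := by
  obtain ⟨h1, h2, h3, h4, h5⟩ := tube_facts hr hδ1 hz
  have hT0 : 0 < T := by linarith
  set y := (((r⁻¹ : ℝ) : ℂ)) • z with hy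
  have hE : 0 < EE (2 * T) T y := EE_pos _ _ _
  have hsm : ContDiffAt ℝ ∞ (pot q ε θ r T : (Fin (m + 1) → ℂ) → ℝ) z :=
    (pot_smooth (m := m) hq ε θ hr (by linarith)).contDiffAt
      (isOpen_compl_singleton.mem_nhds h5)
  have hH : (A z + leviMat (pot q ε θ r T) z).IsHermitian :=
    (hM.pos z h5).isHermitian.add (leviMat_herm hsm)
  obtain ⟨c, hc⟩ := dc_linear (2 * T) T y
  have hlam : 0 < ε * θ * T / (18 * r ^ 2) := by positivity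
  have hmu : 0 < ε * θ / (8 * T) * (1 / (r ^ 2 * EE (2 * T) T y)) := by positivity
  have key := det_ge hH hlam hmu c ?_
  · rw [ee_eq hr]
    calc (ε * θ / (8 * T)) * (ε * θ * T / (18 * r ^ 2)) ^ m *
          (1 / (r ^ 2 * EE (2 * T) T ((((r⁻¹ : ℝ) : ℂ)) • z)))
        = ε * θ / (8 * T) * (1 / (r ^ 2 * EE (2 * T) T y)) *
          (ε * θ * T / (18 * r ^ 2)) ^ m := by rw [hy]; ring
      _ ≤ _ := key
  · intro v
    have h6 := (form_lower hq hε hA hθ hr (by linarith : (1 : ℝ) ≤ T) h5 v).2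
      (aa_tube hT h1 h3 h4)
    have h7 := PP_tube hT h1 h3 h4 ((((r⁻¹ : ℝ) : ℂ)) • v)
    have h8 : Pn ((((r⁻¹ : ℝ) : ℂ)) • v) = Pn v / r ^ 2 := by
      rw [Pn_scale hr, Pn_tail]
    have h9 : ‖((((r⁻¹ : ℝ) : ℂ)) • v) 0 - (y 0 - 1) * dc (2 * T) T y ((((r⁻¹ : ℝ) : ℂ)) • v)‖ ^ 2 =
        ‖v 0 - ∑ i : Fin m, c i * v i.succ‖ ^ 2 / r ^ 2 := by
      rw [hc]
      have : ((((r⁻¹ : ℝ) : ℂ)) • v) 0 - ∑ i : Fin m, c i * ((((r⁻¹ : ℝ) : ℂ)) • v) i.succ =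
          (((r⁻¹ : ℝ) : ℂ)) * (v 0 - ∑ i : Fin m, c i * v i.succ) := by
        rw [mul_sub, Finset.mul_sum]
        congr 1
        refine Finset.sum_congr rfl fun i _ => ?_
        simp only [Pi.smul_apply, smul_eq_mul]
        ring
      rw [this, norm_mul, mul_pow, Complex.norm_real, Real.norm_eq_abs,
        abs_of_pos (inv_pos.2 hr)]
      field_simp
    rw [h8, h9] at h7
    have h10 : ε * (θ / (2 * T) * (T ^ 2 / 9 * (Pn v / r ^ 2) +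
        1 / (4 * EE (2 * T) T y) * (‖v 0 - ∑ i : Fin m, c i * v i.succ‖ ^ 2 / r ^ 2))) ≤
        ε * (θ / (2 * T) * PP (2 * T) T y ((((r⁻¹ : ℝ) : ℂ)) • v)) := by
      have : 0 ≤ θ / (2 * T) := by positivity
      exact mul_le_mul_of_nonneg_left (mul_le_mul_of_nonneg_left h7 this) hε.le
    refine le_trans (le_of_eq ?_) (le_trans h10 h6)
    field_simp
    ring

theorem det_cont {q : ℂ} {A : (Fin (m + 1) → ℂ) →
    Matrix (Fin (m + 1)) (Fin (m + 1)) ℂ} (hM : IsHermMetric q A)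
    {φ : (Fin (m + 1) → ℂ) → ℝ} (hφ : ContDiffOn ℝ ∞ φ {0}ᶜ) :
    ContinuousOn (fun z => (A z + leviMat φ z).det.re) {0}ᶜ := by
  have h1 : ContinuousOn (fun z => A z + leviMat φ z) {0}ᶜ := hM.cont.add (leviMat_cont hφ)
  have h2 : Continuous fun M : Matrix (Fin (m + 1)) (Fin (m + 1)) ℂ => M.det.re :=
    Complex.continuous_re.comp (Continuous.matrix_det continuous_id)
  exact h2.comp_continuousOn h1

theorem fund_ne {q : ℂ} {z : Fin (m + 1) → ℂ} (hz : z ∈ fund (m + 1) q) : z ≠ 0 := by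
  rintro rfl
  have h : (1 : ℝ) ≤ nsq (0 : Fin (m + 1) → ℂ) := hz.1
  have : nsq (0 : Fin (m + 1) → ℂ) = 0 := by simp [nsq]
  linarith

theorem mvol_lower {q : ℂ} (hq : 1 < ‖q‖) {A : (Fin (m + 1) → ℂ) →
    Matrix (Fin (m + 1)) (Fin (m + 1)) ℂ} (hM : IsHermMetric q A) {ε θ : ℝ} (hε : 0 < ε)
    (hθ0 : 0 < θ)
    (hA : ∀ z, z ≠ 0 → ∀ v : Fin (m + 1) → ℂ,
      ε * (nsq v / nsq z) ≤ (star v ⬝ᵥ (A z *ᵥ v)).re)
    (hθ : ∀ T : ℝ, 1 ≤ T →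
      ∀ z : Fin (m + 1) → ℂ, z ≠ 0 → ∀ v : Fin (m + 1) → ℂ,
      -(1 / 2) * (nsq v / nsq z) ≤ θ / (2 * T) * lev (Phi q (2 * T) T) z v ∧
      (aa (2 * T) T z < -4 →
        -(1 / 2) * (nsq v / nsq z) + θ / (2 * T) * PP (2 * T) T z v ≤
          θ / (2 * T) * lev (Phi q (2 * T) T) z v))
    {δ T : ℝ} (hδ0 : 0 < δ) (hδ1 : δ ≤ 1) (hδ2 : δ ≤ (‖q‖ - 1) / 2) (hT : 3 ≤ T)
    (hT2 : 3 * Real.exp (-(T ^ 3 / 2)) ≤ ((‖q‖ - 1) / (3 * ‖q‖)) ^ 2) (hm : 1 ≤ m) :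
    (ε * θ / (8 * T)) * (ε * θ * T / (18 * √(‖q‖ / 2) ^ 2)) ^ m *
      (Real.pi * (volume (shell m (√(‖q‖ / 2)) δ)).toReal) ≤
      mvol q A (pot q ε θ (√(‖q‖ / 2)) T) := by
  set r := √(‖q‖ / 2) with hrdef
  have hQ0 : 0 < ‖q‖ := by linarith
  have hr : 0 < r := Real.sqrt_pos.2 (by positivity)
  have hT0 : 0 < T := by linarith
  set φ := (pot q ε θ r T : (Fin (m + 1) → ℂ) → ℝ) with hφ
  have hpot : IsPotential q A φ := pot_isPotential hq hM hε hA hθ hr (by linarith)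
  set f : (Fin (m + 1) → ℂ) → ℝ := fun z => (A z + leviMat φ z).det.re with hf
  have hfc : ContinuousOn f {0}ᶜ := det_cont hM hpot.smooth
  have hint : IntegrableOn f (fund (m + 1) q) := integrable_fund q hfc
  have hsub : tube m r δ T ⊆ fund (m + 1) q := tube_sub_fund hq hT hT2 hδ1 hδ2
  have hfpos : ∀ z ∈ fund (m + 1) q, 0 ≤ f z := by
    intro z hz
    have h1 := (hpot.pos z (fund_ne hz)).det_pos
    exact (Complex.lt_def.1 h1).1.le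
  have hs : 0 < volume (shell m r δ) ∧ volume (shell m r δ) < ⊤ ∧
      MeasurableSet (shell m r δ) := shell_pos hm hr hδ0
  have hmeas : MeasurableSet (tube m r δ T) :=
    tube_measurable (ee r T) (ee_meas hr T) (shell m r δ) hs.2.2 _
  have h1 : ∫ z in tube m r δ T, f z ≤ ∫ z in fund (m + 1) q, f z := by
    refine setIntegral_mono_set hint ?_ (Filter.Eventually.of_forall hsub)
    exact (ae_restrict_iff' (fund_measurable _ _)).2 (Filter.Eventually.of_forall hfpos)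
  have hint2 : IntegrableOn f (tube m r δ T) := hint.mono_set hsub
  set K : ℝ := (ε * θ / (8 * T)) * (ε * θ * T / (18 * r ^ 2)) ^ m with hK
  have hK0 : 0 ≤ K := by positivity
  have h2 : ENNReal.ofReal (∫ z in tube m r δ T, f z) =
      ∫⁻ z in tube m r δ T, ENNReal.ofReal (f z) := by
    refine ofReal_integral_eq_lintegral_ofReal hint2 ?_
    exact (ae_restrict_iff' hmeas).2 (Filter.Eventually.of_forall fun z hz => hfpos z (hsub hz))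
  have h3 : ENNReal.ofReal K * (ENNReal.ofReal Real.pi * volume (shell m r δ)) ≤
      ∫⁻ z in tube m r δ T, ENNReal.ofReal (f z) := by
    rw [← tube_lintegral (ee r T) (ee_meas hr T) (ee_pos hr T) (shell m r δ) hs.2.2 (r : ℂ)]
    rw [← lintegral_const_mul' _ _ ENNReal.ofReal_ne_top]
    refine setLIntegral_mono' hmeas ?_
    intro z hz
    rw [← ENNReal.ofReal_mul hK0]
    exact ENNReal.ofReal_le_ofReal (det_tube hq hM hε hθ0 hA hθ hr hδ1 hT hz)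
  have h4 : ENNReal.ofReal (K * (Real.pi * (volume (shell m r δ)).toReal)) ≤
      ENNReal.ofReal (∫ z in tube m r δ T, f z) := by
    rw [h2, ENNReal.ofReal_mul hK0, ENNReal.ofReal_mul Real.pi_pos.le,
      ENNReal.ofReal_toReal hs.2.1.ne]
    exact h3
  have h5 : 0 ≤ ∫ z in tube m r δ T, f z := by
    refine setIntegral_nonneg hmeas fun z hz => hfpos z (hsub hz)
  have h6 := (ENNReal.ofReal_le_ofReal_iff h5).1 h4
  exact le_trans h6 h1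

end Pool.Agent.HMV
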